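import Mathlib
import Pool.Agent.N248.KR.Src
set_option autoImplicit false

/-! Kakeya in random regions: covering of fat tubes by translated thin tubes. -/

namespace Pool.Agent.N248.KG

open MeasureTheory Set Metric
open scoped ENNReal NNReal
open Pool.Agent.N248.KR

/-- a long fat tube is covered by boundedly many translates of the unit tube -/
theorem cov (n : ℕ) (H R : ℝ) (hR : 1 ≤ R) : ∃ G : Finset (E n × ℝ),
    ∀ δ : ℝ, 0 < δ → δ ≤ 1 → ∀ a e : E n, ‖e‖ = 1 → ∀ y ∈ cyl H (R * δ) a e,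
      ∃ g ∈ G, y ∈ cyl (1 / 2) δ (a + δ • g.1 + g.2 • e) e := by
  classical
  obtain ⟨C, hC, hnet⟩ := net n R hR
  obtain ⟨N, hN1, hN2, hN3⟩ := hnet {x | ‖x‖ ≤ R} (fun x hx => hx) (1 / 4) (by norm_num)
    (by norm_num)
  set m : ℕ := ⌈2 * H⌉₊ + 1 with hm
  refine ⟨N ×ˢ ((Finset.Icc (-(m : ℤ)) m).image fun k : ℤ => (k : ℝ) / 2), ?_⟩
  intro δ hδ hδ1 a e he y hy
  obtain ⟨h1, h2⟩ := hy
  set t : ℝ := inner ℝ (y - a) e with ht
  set u : E n := δ⁻¹ • ((y - a) - t • e) with hu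
  have hun : ‖u‖ ≤ R := by
    rw [hu, norm_smul, norm_inv, Real.norm_eq_abs, abs_of_pos hδ, inv_mul_le_iff₀ hδ]
    linarith
  obtain ⟨v, hv, huv⟩ := hN3 u hun
  set k : ℤ := round (2 * t) with hk
  have hk1 : |2 * t - k| ≤ 1 / 2 := abs_sub_round (2 * t)
  have hk2 : |t - (k : ℝ) / 2| ≤ 1 / 4 := by
    have : t - (k : ℝ) / 2 = (2 * t - k) / 2 := by ring
    rw [this, abs_div, abs_two]
    linarith
  have hkm : (k : ℤ) ∈ Finset.Icc (-(m : ℤ)) m := by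
    have h3 := abs_le.1 h1
    have h4 := abs_le.1 hk1
    have h5 : 2 * H ≤ ⌈2 * H⌉₊ := Nat.le_ceil _
    rw [Finset.mem_Icc]
    have hmr : (m : ℝ) = ⌈2 * H⌉₊ + 1 := by rw [hm]; push_cast; ring
    constructor
    · have : (-(m : ℝ)) ≤ k := by rw [hmr]; linarith
      exact_mod_cast this
    · have : (k : ℝ) ≤ m := by rw [hmr]; linarith
      exact_mod_cast this
  refine ⟨(v, (k : ℝ) / 2), Finset.mem_product.2 ⟨hv, Finset.mem_image.2 ⟨k, hkm, rfl⟩⟩, ?_⟩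
  refine mem_cyl he (s := t - (k : ℝ) / 2) (ρ := δ / 4) (by linarith) (by linarith) ?_
  have h3 : y - (a + δ • v + ((k : ℝ) / 2) • e) - (t - (k : ℝ) / 2) • e = δ • (u - v) := by
    have : δ • u = (y - a) - t • e := by
      rw [hu, smul_smul, mul_inv_cancel₀ hδ.ne', one_smul]
    rw [smul_sub, this]
    module
  show ‖y - (a + δ • v + ((k : ℝ) / 2) • e) - (t - (k : ℝ) / 2) • e‖ ≤ δ / 4
  rw [h3, norm_smul, Real.norm_eq_abs, abs_of_pos hδ]
  nlinarith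

theorem lint_biUnion_le {α ι : Type*} [MeasurableSpace α] (ν : Measure α) (G : Finset ι)
    (S : ι → Set α) (f : α → ℝ≥0∞) :
    ∫⁻ y in ⋃ g ∈ G, S g, f y ∂ν ≤ ∑ g ∈ G, ∫⁻ y in S g, f y ∂ν := by
  classical
  induction G using Finset.induction_on with
  | empty => simp
  | insert g G hg ih =>
    rw [Finset.set_biUnion_insert, Finset.sum_insert hg]
    exact (lintegral_union_le _ _ _).trans (add_le_add le_rfl ih)

/-- the maximal function at nearby directions -/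
theorem near (d : ℕ) : ∃ C : ℝ, 1 ≤ C ∧ ∀ δ : ℝ, 0 < δ → δ ≤ 1 / 5 → ∀ e e' : E (d + 1), ‖e‖ = 1 →
    ‖e'‖ = 1 → ‖e - e'‖ ≤ δ → ∀ f : E (d + 1) → ℝ≥0∞,
      kmax δ f e ≤ ENNReal.ofReal C * kmax δ f e' := by
  obtain ⟨G, hG⟩ := cov (d + 1) 1 3 (by norm_num)
  have hκ := kap_pos d
  refine ⟨1 + G.card * 2 ^ d * (kap d)⁻¹, by
    have : 0 ≤ (G.card : ℝ) * 2 ^ d * (kap d)⁻¹ := by positivity
    linarith, ?_⟩
  intro δ hδ hδ5 e e' he he' hee f
  have hδd : 0 < δ ^ d := by positivity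
  conv_lhs => unfold kmax
  refine iSup_le fun a => ?_
  have hcov : cyl (1 / 2) δ a e ⊆ ⋃ g ∈ G, cyl (1 / 2) δ (a + δ • g.1 + g.2 • e') e' := by
    intro y hy
    have h1 := thin_fat (a' := a) he' hδ5 (by rw [sub_self, norm_zero]; exact hδ.le) hee hy
    obtain ⟨g, hg, h2⟩ := hG δ hδ (by linarith) a e' he' y h1
    rw [mem_iUnion₂]
    exact ⟨g, hg, h2⟩
  have hone : ∀ b : E (d + 1), ∫⁻ y in cyl (1 / 2) δ b e', f y ≤
      ENNReal.ofReal (2 ^ d * δ ^ d) * kmax δ f e' := by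
    intro b
    obtain ⟨h0, ht⟩ := vol_ne (d := d) hδ (a := b) he'
    have hT1 : volume (cyl (1 / 2) δ b e') ≤ ENNReal.ofReal (2 ^ d * δ ^ d) := by
      refine (vol_cyl_le (by norm_num) hδ.le he').trans (le_of_eq ?_)
      congr 1
      rw [mul_pow]; ring
    calc ∫⁻ y in cyl (1 / 2) δ b e', f y = volume (cyl (1 / 2) δ b e') *
          ((volume (cyl (1 / 2) δ b e'))⁻¹ * ∫⁻ y in cyl (1 / 2) δ b e', f y) := by
          rw [← mul_assoc, ENNReal.mul_inv_cancel h0 ht, one_mul]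
      _ ≤ ENNReal.ofReal (2 ^ d * δ ^ d) * kmax δ f e' := by
          gcongr
          exact le_iSup (fun b : E (d + 1) => (volume (cyl (1 / 2) δ b e'))⁻¹ *
            ∫⁻ y in cyl (1 / 2) δ b e', f y) b
  have h3 : ∫⁻ y in cyl (1 / 2) δ a e, f y ≤
      G.card * (ENNReal.ofReal (2 ^ d * δ ^ d) * kmax δ f e') := by
    calc ∫⁻ y in cyl (1 / 2) δ a e, f y
        ≤ ∫⁻ y in ⋃ g ∈ G, cyl (1 / 2) δ (a + δ • g.1 + g.2 • e') e', f y :=
          lintegral_mono_set hcov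
      _ ≤ ∑ g ∈ G, ∫⁻ y in cyl (1 / 2) δ (a + δ • g.1 + g.2 • e') e', f y :=
          lint_biUnion_le _ _ _ _
      _ ≤ ∑ _g ∈ G, ENNReal.ofReal (2 ^ d * δ ^ d) * kmax δ f e' :=
          Finset.sum_le_sum fun g _ => hone _
      _ = _ := by rw [Finset.sum_const, nsmul_eq_mul]
  calc (volume (cyl (1 / 2) δ a e))⁻¹ * ∫⁻ y in cyl (1 / 2) δ a e, f y
      ≤ ENNReal.ofReal ((kap d * δ ^ d)⁻¹) *
        (G.card * (ENNReal.ofReal (2 ^ d * δ ^ d) * kmax δ f e')) := by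
        gcongr
        exact vol_inv_le hδ he
    _ = ENNReal.ofReal ((kap d * δ ^ d)⁻¹ * (G.card * (2 ^ d * δ ^ d))) * kmax δ f e' := by
        rw [ENNReal.ofReal_mul (q := G.card * (2 ^ d * δ ^ d)) (by positivity),
          ENNReal.ofReal_mul (q := 2 ^ d * δ ^ d) (by positivity), ENNReal.ofReal_natCast]
        ring
    _ ≤ _ := by
        gcongr
        have : (kap d * δ ^ d)⁻¹ * (G.card * (2 ^ d * δ ^ d)) = G.card * 2 ^ d * (kap d)⁻¹ := by
          field_simp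
        rw [this]
        linarith

end Pool.Agent.N248.KG
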