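import Mathlib
import Pool.Agent.N248.KR.Samp
import Pool.Agent.N248.RR.C
set_option autoImplicit false

/-! Kakeya in random regions: samples in a finite set, and the probability that all tests are
passed. -/

namespace Pool.Agent.N248.KG

open MeasureTheory Set
open scoped ENNReal NNReal
open Pool.Agent.N248.KR (ct ct_nonneg ct_le sampling)

open scoped Classical in
/-- the sampling lemma on a finite set, without exceptions -/
theorem samp_fin {α : Type*} (F : Finset α) {ι : Type*} [Fintype ι] [Nonempty ι] (T : ι → Set α)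
    (μ K : ℝ) (hμ : 0 < μ) (hμm : μ ≤ Fintype.card ι) (hK : 0 < K)
    (hsm : 3 * Real.exp (-(K / 12)) * (Fintype.card ι * F.card) < 1)
    (s : ℕ) (hs1 : K * Fintype.card ι / μ ≤ s) (hs2 : (s : ℝ) ≤ K * Fintype.card ι / μ + 1) :
    ∃ w : Fin s → ι, (∀ x ∈ F, μ ≤ ct T x → K / 2 ≤ ct (fun l => T (w l)) x) ∧
      (∀ x ∈ F, K / 2 ≤ ct (fun l => T (w l)) x → μ / 4 ≤ ct T x) := by
  let _ : MeasurableSpace α := ⊤
  set ν : Measure α := Measure.count.restrict (F : Set α) with hν
  have hpt : ∀ (S : Set α) (x : α), x ∈ F → x ∈ S → 1 ≤ ν S := by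
    intro S x hx hS
    rw [hν, Measure.restrict_apply (MeasurableSpace.measurableSet_top)]
    calc (1 : ℝ≥0∞) = Measure.count {x} := by
          rw [Measure.count_singleton' MeasurableSpace.measurableSet_top]
      _ ≤ Measure.count (S ∩ (F : Set α)) := measure_mono (by
          rintro y hy
          rw [mem_singleton_iff] at hy
          rw [hy]
          exact ⟨hS, hx⟩)
  have hV : ∀ i, ν (T i) ≤ ENNReal.ofReal (F.card : ℝ) := by
    intro i
    rw [hν, ENNReal.ofReal_natCast]
    refine (measure_mono (subset_univ _)).trans ?_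
    rw [Measure.restrict_apply_univ, Measure.count_apply_finset' MeasurableSpace.measurableSet_top]
  obtain ⟨w, h1, h2⟩ := sampling ν T (fun i => MeasurableSpace.measurableSet_top) F.card
    (Nat.cast_nonneg _) hV μ K hμ hμm hK s hs1 hs2
  have hlt : ENNReal.ofReal (3 * Real.exp (-(K / 12)) * (Fintype.card ι * F.card)) < 1 := by
    rw [← ENNReal.ofReal_one]
    exact (ENNReal.ofReal_lt_ofReal_iff one_pos).2 hsm
  refine ⟨w, ?_, ?_⟩
  · intro x hx hx1
    by_contra hcon
    have := hpt ({x | μ ≤ ct T x} \ {x | K / 2 ≤ ct (fun l => T (w l)) x}) x hx ⟨hx1, hcon⟩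
    exact absurd (this.trans h1) (not_le.2 hlt)
  · intro x hx hx1
    by_contra hcon
    have := hpt ({x | K / 2 ≤ ct (fun l => T (w l)) x} \ {x | μ / 4 ≤ ct T x}) x hx ⟨hx1, hcon⟩
    exact absurd (this.trans h2) (not_le.2 hlt)

open scoped Classical in
/-- all tests are passed -/
def PassR {α Z : Type*} (F : Finset α) (U : Z → Set α) (K c lam : ℝ) (O : Set α) : Prop :=
  ∀ (s : ℕ) (w : Fin s → Z), 1 ≤ s →
    ((F.filter fun x => K / 2 ≤ ct (fun l => U (w l)) x ∧ x ∈ O).card : ℝ) ≤
      c * s + 1 + Real.exp 2 * (lam * (F.filter fun x => K / 2 ≤ ct (fun l => U (w l)) x).card)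

open scoped Classical in
/-- **all tests are passed with high probability** -/
theorem pass_prob {α Ω : Type*} [MeasurableSpace Ω] (P : Measure Ω) [IsProbabilityMeasure P]
    (A : α → Set Ω) (hA : ∀ T : Finset α, P (⋂ j ∈ T, A j) ≤ ∏ j ∈ T, P (A j)) (lam : ℝ)
    (hl : 0 ≤ lam) (hp : ∀ j, P (A j) ≤ ENNReal.ofReal lam) (F : Finset α) {Z : Type*} [Fintype Z]
    (U : Z → Set α) (K c B : ℝ) (hZ : (Fintype.card Z : ℝ) ≤ Real.exp B) (hB : 0 ≤ B)
    (hc : B + 1 ≤ c) :
    P {ω | ¬ PassR F U K c lam {x | ω ∈ A x}} ≤ ENNReal.ofReal (2 * Real.exp (-(c - B))) := by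
  have hc0 : 0 ≤ c := by linarith
  set W : (s : ℕ) → (Fin s → Z) → Finset α := fun s w =>
    F.filter fun x => K / 2 ≤ ct (fun l => U (w l)) x with hW
  set u : (s : ℕ) → (Fin s → Z) → ℕ := fun s w =>
    ⌈max (c * s) (Real.exp 2 * (lam * (W s w).card))⌉₊ with hu
  set Bd : (s : ℕ) → (Fin s → Z) → Set Ω := fun s w =>
    {ω | ∃ T ⊆ W s w, T.card = u s w ∧ ∀ j ∈ T, ω ∈ A j} with hBd
  have hBm : ∀ s w, P (Bd s w) ≤ ENNReal.ofReal (Real.exp (-(c * s))) := by
    intro s w
    have h1 : max (c * s) (Real.exp 2 * (lam * (W s w).card)) ≤ u s w := Nat.le_ceil _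
    refine (RR.few P A hA (W s w) lam (W s w).card hl le_rfl (fun j _ => hp j) (u s w)).trans ?_
    refine (ENNReal.ofReal_le_ofReal (RR.fact_bound _ (u s w) (by positivity) ?_)).trans
      (ENNReal.ofReal_le_ofReal (Real.exp_le_exp.2 (neg_le_neg ((le_max_left _ _).trans h1))))
    rw [mul_comm ((W s w).card : ℝ) lam]
    exact (le_max_right _ _).trans h1
  have hsub : {ω | ¬ PassR F U K c lam {x | ω ∈ A x}} ⊆
      ⋃ t : ℕ, ⋃ w : Fin (t + 1) → Z, Bd (t + 1) w := by
    intro ω hω
    simp only [PassR, mem_setOf_eq, not_forall, not_le] at hω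
    obtain ⟨s, w, hs, h1⟩ := hω
    obtain ⟨t, rfl⟩ : ∃ t, s = t + 1 := ⟨s - 1, by omega⟩
    simp only [mem_iUnion]
    refine ⟨t, w, ?_⟩
    have h2 : u (t + 1) w ≤ (F.filter fun x => K / 2 ≤ ct (fun l => U (w l)) x ∧
        ω ∈ A x).card := by
      have h3 : (u (t + 1) w : ℝ) < max (c * ((t + 1 : ℕ) : ℝ))
          (Real.exp 2 * (lam * (W (t + 1) w).card)) + 1 := Nat.ceil_lt_add_one (by positivity)
      have h4 : max (c * ((t + 1 : ℕ) : ℝ)) (Real.exp 2 * (lam * (W (t + 1) w).card)) ≤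
          c * ((t + 1 : ℕ) : ℝ) + Real.exp 2 * (lam * (W (t + 1) w).card) :=
        max_le (le_add_of_nonneg_right (by positivity)) (le_add_of_nonneg_left (by positivity))
      have h5 : (u (t + 1) w : ℝ) < (F.filter fun x => K / 2 ≤ ct (fun l => U (w l)) x ∧
          ω ∈ A x).card := by
        refine h3.trans_le (le_trans ?_ h1.le)
        have h6 : (W (t + 1) w).card = (F.filter fun x => K / 2 ≤ ct (fun l => U (w l)) x).card :=
          rfl
        rw [h6] at h4
        linarith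
      exact_mod_cast h5.le
    obtain ⟨T, hT, hTc⟩ := Finset.exists_subset_card_eq h2
    refine ⟨T, fun j hj => ?_, hTc, fun j hj => (Finset.mem_filter.1 (hT hj)).2.2⟩
    have := Finset.mem_filter.1 (hT hj)
    exact Finset.mem_filter.2 ⟨this.1, this.2.1⟩
  refine (measure_mono hsub).trans ((measure_iUnion_le _).trans ?_)
  have hterm : ∀ t : ℕ, P (⋃ w : Fin (t + 1) → Z, Bd (t + 1) w) ≤
      ENNReal.ofReal (Real.exp (-(c - B))) * (2⁻¹ : ℝ≥0∞) ^ t := by
    intro t
    calc P (⋃ w : Fin (t + 1) → Z, Bd (t + 1) w)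
        ≤ ∑ w : Fin (t + 1) → Z, P (Bd (t + 1) w) := measure_iUnion_fintype_le _ _
      _ ≤ ∑ _w : Fin (t + 1) → Z, ENNReal.ofReal (Real.exp (-(c * ((t + 1 : ℕ) : ℝ)))) :=
          Finset.sum_le_sum fun w _ => hBm _ _
      _ = ENNReal.ofReal ((Fintype.card Z : ℝ) ^ (t + 1) *
            Real.exp (-(c * ((t + 1 : ℕ) : ℝ)))) := by
          rw [Finset.sum_const, Finset.card_univ, Fintype.card_fun, Fintype.card_fin, nsmul_eq_mul,
            ← ENNReal.ofReal_natCast, ← ENNReal.ofReal_mul (by positivity)]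
          push_cast
          rfl
      _ ≤ ENNReal.ofReal (Real.exp (-(c - B)) * (2⁻¹ : ℝ) ^ t) := by
          apply ENNReal.ofReal_le_ofReal
          have h1 : (Fintype.card Z : ℝ) ^ (t + 1) ≤ Real.exp (B * (t + 1)) := by
            calc (Fintype.card Z : ℝ) ^ (t + 1) ≤ (Real.exp B) ^ (t + 1) := by gcongr
              _ = Real.exp (B * (t + 1)) := by rw [← Real.exp_nat_mul]; push_cast; ring_nf
          have h2 : Real.exp (B * (t + 1)) * Real.exp (-(c * (t + 1))) =
              Real.exp (-(c - B)) * Real.exp (-(c - B)) ^ t := by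
            rw [← Real.exp_add, ← Real.exp_nat_mul, ← Real.exp_add]
            congr 1; ring
          have h3 : Real.exp (-(c - B)) ≤ 2⁻¹ := by
            have h4 : Real.exp (-(c - B)) ≤ Real.exp (-1) := Real.exp_le_exp.2 (by linarith)
            have h5 : Real.exp (-1) < 0.3678794412 := Real.exp_neg_one_lt_d9
            have h6 : (0.3678794412 : ℝ) < 2⁻¹ := by norm_num
            linarith
          calc (Fintype.card Z : ℝ) ^ (t + 1) * Real.exp (-(c * ((t + 1 : ℕ) : ℝ)))
              ≤ Real.exp (B * (t + 1)) * Real.exp (-(c * (t + 1))) := by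
                push_cast
                gcongr
            _ = Real.exp (-(c - B)) * Real.exp (-(c - B)) ^ t := by rw [h2]
            _ ≤ Real.exp (-(c - B)) * (2⁻¹ : ℝ) ^ t := by gcongr
      _ = _ := by
          rw [ENNReal.ofReal_mul (by positivity), ENNReal.ofReal_pow (by positivity),
            ENNReal.ofReal_inv_of_pos (by norm_num)]
          norm_num
  refine (ENNReal.tsum_le_tsum hterm).trans ?_
  rw [ENNReal.tsum_mul_left, ENNReal.tsum_geometric, ENNReal.one_sub_inv_two, inv_inv]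
  refine le_of_eq ?_
  rw [show (2 : ℝ≥0∞) = ENNReal.ofReal 2 by norm_num, ← ENNReal.ofReal_mul (by positivity)]
  congr 1
  ring

end Pool.Agent.N248.KG
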