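import Mathlib
import Pool.Agent.N248.KG.A
import Pool.Agent.N248.KG.B
import Pool.Agent.N248.KT.Dual
set_option autoImplicit false

/-! Kakeya in random regions: the cells, and the volume of the level sets of a family of tubes. -/

namespace Pool.Agent.N248.KG

open MeasureTheory Set Metric
open scoped ENNReal NNReal
open Pool.Agent.N248.KR
open Pool.Agent.N248.KT (FF FF_meas FF_eq dual)

/-- the cells of side `δ` -/
def qc {n : ℕ} (δ : ℝ) (j : Fin n → ℤ) : Set (E n) := {x | ∀ i, δ * j i ≤ x i ∧ x i < δ * (j i + 1)}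

theorem qc_meas {n : ℕ} (δ : ℝ) (j : Fin n → ℤ) : MeasurableSet (qc δ j) := by
  have : qc δ j = ⋂ i, {x : E n | δ * j i ≤ x i} ∩ {x : E n | x i < δ * (j i + 1)} := by
    ext x
    simp only [qc, mem_ofPred_eq, mem_iInter, mem_inter_iff]
  rw [this]
  refine MeasurableSet.iInter fun i => ?_
  have hm : Measurable fun x : E n => x i := by fun_prop
  exact (measurableSet_le measurable_const hm).inter (measurableSet_lt hm measurable_const)

theorem qc_vol {n : ℕ} {δ : ℝ} (hδ : 0 < δ) (j : Fin n → ℤ) :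
    volume (qc δ j) = ENNReal.ofReal (δ ^ n) := by
  have h := (PiLp.volume_preserving_ofLp (Fin n)).measure_preimage
    (s := Set.univ.pi fun i => Ico (δ * j i) (δ * (j i + 1)))
    (MeasurableSet.univ_pi fun i => measurableSet_Ico).nullMeasurableSet
  have h2 : WithLp.ofLp ⁻¹' (Set.univ.pi fun i => Ico (δ * j i) (δ * (j i + 1))) = qc δ j := by
    ext x
    simp only [qc, mem_preimage, Set.mem_pi, mem_univ, true_implies, mem_Ico, mem_ofPred_eq]
  rw [h2] at h
  rw [h, volume_pi_pi]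
  have h3 : ∀ i, volume (Ico (δ * j i) (δ * (j i + 1))) = ENNReal.ofReal δ := by
    intro i
    rw [Real.volume_Ico]
    congr 1; ring
  rw [Finset.prod_congr rfl fun i _ => h3 i, Finset.prod_const, Finset.card_univ,
    Fintype.card_fin, ENNReal.ofReal_pow hδ.le]

theorem qc_disj {n : ℕ} {δ : ℝ} (hδ : 0 < δ) (j k : Fin n → ℤ) (h : j ≠ k) :
    Disjoint (qc δ j) (qc δ k) := by
  rw [Set.disjoint_left]
  intro x hj hk
  refine h (funext fun i => ?_)
  have h1 := hj i
  have h2 := hk i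
  have h3 : (j i : ℝ) < k i + 1 := lt_of_mul_lt_mul_left (h1.1.trans_lt h2.2) hδ.le
  have h4 : (k i : ℝ) < j i + 1 := lt_of_mul_lt_mul_left (h2.1.trans_lt h1.2) hδ.le
  have h5 : j i < k i + 1 := by exact_mod_cast h3
  have h6 : k i < j i + 1 := by exact_mod_cast h4
  omega

theorem qc_diam {n : ℕ} {δ : ℝ} (hδ : 0 < δ) (j : Fin n → ℤ) {x y : E n} (hx : x ∈ qc δ j)
    (hy : y ∈ qc δ j) : ‖x - y‖ ≤ n * δ := by
  rw [EuclideanSpace.norm_eq]
  have h4 : ∑ i : Fin n, ‖(x - y) i‖ ^ 2 ≤ ((n : ℝ) * δ) ^ 2 := by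
    calc ∑ i : Fin n, ‖(x - y) i‖ ^ 2
        ≤ ∑ i : Fin n, δ ^ 2 := Finset.sum_le_sum fun i _ => by
          rw [Real.norm_eq_abs]
          refine pow_le_pow_left₀ (abs_nonneg _) ?_ 2
          show |x i - y i| ≤ δ
          have h1 := hx i
          have h2 := hy i
          rw [abs_le]
          constructor <;> linarith
      _ = n * δ ^ 2 := by
          rw [Finset.sum_const, Finset.card_univ, Fintype.card_fin, nsmul_eq_mul]
      _ ≤ (n : ℝ) ^ 2 * δ ^ 2 := by
          refine mul_le_mul_of_nonneg_right ?_ (by positivity)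
          rcases Nat.eq_zero_or_pos n with h | h
          · simp [h]
          · have : (1 : ℝ) ≤ n := by exact_mod_cast h
            nlinarith
      _ = _ := by ring
  exact (Real.sqrt_le_sqrt h4).trans (by rw [Real.sqrt_sq (by positivity)])

/-- the cells which meet the fat tube of the net -/
def UU {n : ℕ} {Z : Type*} (δ : ℝ) (pos dir : Z → E n) (z : Z) : Set (Fin n → ℤ) :=
  {j | (qc δ j ∩ cyl 1 (3 * δ) (pos z) (dir z)).Nonempty}

theorem cell_sub {n : ℕ} {Z : Type*} {δ : ℝ} (hδ : 0 < δ) (hδ1 : δ ≤ 1) (pos dir : Z → E n)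
    (z : Z) {a e : E n} (he : ‖e‖ = 1) (ha : ‖a - pos z‖ ≤ δ)
    (hee : ‖e - dir z‖ ≤ δ) {j : Fin n → ℤ} (hj : j ∈ UU δ pos dir z) {x : E n}
    (hx : x ∈ qc δ j) : x ∈ cyl (n + 6) ((n + 6) * δ) a e := by
  obtain ⟨y, hy1, hy2, hy3⟩ := hj
  set s : ℝ := inner ℝ (y - pos z) (dir z) with hs
  have hxy := qc_diam hδ j hx hy1
  have hn0 : (0 : ℝ) ≤ n := Nat.cast_nonneg n
  refine mem_cyl he (s := s) (ρ := (n + 5) * δ) ?_ ?_ ?_
  · nlinarith
  · nlinarith
  · have h3 : x - a - s • e = (x - y) + (pos z - a) + s • (dir z - e) +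
        (y - pos z - s • dir z) := by
      rw [smul_sub]; abel
    rw [h3]
    have h4 : ‖s • (dir z - e)‖ ≤ 1 * δ := by
      rw [norm_smul, Real.norm_eq_abs]
      refine mul_le_mul hy2 ?_ (norm_nonneg _) (by norm_num)
      rw [norm_sub_rev]; exact hee
    have h5 : ‖pos z - a‖ ≤ δ := by rw [norm_sub_rev]; exact ha
    calc ‖(x - y) + (pos z - a) + s • (dir z - e) + (y - pos z - s • dir z)‖
        ≤ ‖x - y‖ + ‖pos z - a‖ + ‖s • (dir z - e)‖ + ‖y - pos z - s • dir z‖ :=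
          norm_add₄_le
      _ ≤ n * δ + δ + 1 * δ + 3 * δ := by gcongr
      _ = _ := by ring

variable {d M : ℕ}

/-- the number of fat tubes of the net over a cell is at most the number of pieces -/
theorem ct_le_FF {Z : Type*} {δ : ℝ} (hδ : 0 < δ) (hδ1 : δ ≤ 1) (pos dir : Z → E (d + 1))
    (G : Finset (E (d + 1) × ℝ))
    (hG : ∀ a e : E (d + 1), ‖e‖ = 1 →
      ∀ y ∈ cyl ((d + 1 : ℕ) + 6) (((d + 1 : ℕ) + 6) * δ) a e,
      ∃ g ∈ G, y ∈ cyl (1 / 2) δ (a + δ • g.1 + g.2 • e) e)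
    (ω : Fin M → Dir (d + 1)) (a : Fin M → E (d + 1)) (J : Finset (Fin M)) (z : Fin M → Z)
    (hza : ∀ i ∈ J, ‖a i - pos (z i)‖ ≤ δ) (hzd : ∀ i ∈ J, ‖(ω i : E (d + 1)) - dir (z i)‖ ≤ δ)
    (j : Fin (d + 1) → ℤ) (y : E (d + 1)) (hy : y ∈ qc δ j) :
    ENNReal.ofReal (ct (fun i : J => UU δ pos dir (z i)) j) ≤
      ∑ g ∈ G, FF δ ω (fun i => a i + δ • g.1 + g.2 • (ω i : E (d + 1))) J y := by
  classical
  have h1 : ENNReal.ofReal (ct (fun i : J => UU δ pos dir (z i)) j) =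
      ∑ i : J, (UU δ pos dir (z i)).indicator (fun _ => (1 : ℝ≥0∞)) j := by
    unfold ct
    rw [ENNReal.ofReal_sum_of_nonneg fun i _ => indicator_nonneg (fun _ _ => zero_le_one) _]
    refine Finset.sum_congr rfl fun i _ => ?_
    by_cases h : j ∈ UU δ pos dir (z i)
    · rw [indicator_of_mem h, indicator_of_mem h, ENNReal.ofReal_one]
    · rw [indicator_of_notMem h, indicator_of_notMem h, ENNReal.ofReal_zero]
  rw [h1, Finset.sum_coe_sort J (fun i => (UU δ pos dir (z i)).indicator (fun _ => (1 : ℝ≥0∞)) j)]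
  unfold FF
  rw [Finset.sum_comm]
  refine Finset.sum_le_sum fun i hi => ?_
  by_cases h : j ∈ UU δ pos dir (z i)
  · rw [indicator_of_mem h]
    have he : ‖(ω i : E (d + 1))‖ = 1 := norm_eq_of_mem_sphere (ω i)
    have h2 := cell_sub hδ hδ1 pos dir (z i) he (hza i hi) (hzd i hi) h hy
    obtain ⟨g, hg, h3⟩ := hG (a i) (ω i) he y h2
    refine le_trans ?_ (Finset.single_le_sum (f := fun g : E (d + 1) × ℝ =>
      (cyl (1 / 2) δ (a i + δ • g.1 + g.2 • (ω i : E (d + 1))) (ω i : E (d + 1))).indicator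
        (1 : E (d + 1) → ℝ≥0∞) y) (fun _ _ => zero_le) hg)
    rw [indicator_of_mem h3]
    rfl
  · rw [indicator_of_notMem h]
    exact zero_le

open scoped Classical in
/-- the number of cells of high multiplicity -/
theorem cell_levels {Z : Type*} {δ p Kc : ℝ} (hδ : 0 < δ) (hδ1 : δ ≤ 1) (hp : 1 < p)
    (hKc : 0 ≤ Kc) (pos dir : Z → E (d + 1)) (G : Finset (E (d + 1) × ℝ))
    (hG : ∀ a e : E (d + 1), ‖e‖ = 1 →
      ∀ y ∈ cyl ((d + 1 : ℕ) + 6) (((d + 1 : ℕ) + 6) * δ) a e,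
      ∃ g ∈ G, y ∈ cyl (1 / 2) δ (a + δ • g.1 + g.2 • e) e)
    (ω : Fin M → Dir (d + 1)) (hgood : Good p Kc δ ω)
    (a : Fin M → E (d + 1)) (J : Finset (Fin M)) (z : Fin M → Z)
    (hza : ∀ i ∈ J, ‖a i - pos (z i)‖ ≤ δ) (hzd : ∀ i ∈ J, ‖(ω i : E (d + 1)) - dir (z i)‖ ≤ δ)
    (F : Finset (Fin (d + 1) → ℤ)) (m : ℝ) (hm : 0 < m) :
    ((F.filter fun j => m ≤ ct (fun i : J => UU δ pos dir (z i)) j).card : ℝ) * δ ^ (d + 1) ≤
      m ^ (-(p / (p - 1))) * ((G.card : ℝ) ^ (p / (p - 1)) *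
        ((2 ^ d) ^ (p / (p - 1)) * Kc ^ (1 / (p - 1)) * δ ^ d * J.card)) := by
  have hp1 : 0 < p - 1 := by linarith
  set q : ℝ := p / (p - 1) with hq
  have hq1 : q - 1 = 1 / (p - 1) := by rw [hq]; field_simp; ring
  have hq0 : 1 ≤ q := by
    have : 0 < 1 / (p - 1) := by positivity
    linarith
  set D : ℝ := (2 ^ d) ^ q * Kc ^ (1 / (p - 1)) * δ ^ d * J.card with hD
  have hD0 : 0 ≤ D := by positivity
  set N := F.filter fun j => m ≤ ct (fun i : J => UU δ pos dir (z i)) j with hN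
  set S : E (d + 1) → ℝ≥0∞ := fun y =>
    ∑ g ∈ G, FF δ ω (fun i => a i + δ • g.1 + g.2 • (ω i : E (d + 1))) J y with hS
  have h1 : ∫⁻ y, S y ^ q ≤ ENNReal.ofReal ((G.card : ℝ) ^ q * D) := by
    calc ∫⁻ y, S y ^ q ≤ ∫⁻ y, (G.card : ℝ≥0∞) ^ (q - 1) *
          ∑ g ∈ G, FF δ ω (fun i => a i + δ • g.1 + g.2 • (ω i : E (d + 1))) J y ^ q :=
          lintegral_mono fun y => ENNReal.rpow_sum_le_const_mul_sum_rpow G _ hq0
      _ = (G.card : ℝ≥0∞) ^ (q - 1) *
          ∑ g ∈ G, ∫⁻ y, FF δ ω (fun i => a i + δ • g.1 + g.2 • (ω i : E (d + 1))) J y ^ q := by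
          rw [lintegral_const_mul _ (Finset.measurable_fun_sum _ fun g _ =>
            (FF_meas δ ω _ J).pow_const _), lintegral_finsetSum _ fun g _ =>
            (FF_meas δ ω _ J).pow_const _]
      _ ≤ (G.card : ℝ≥0∞) ^ (q - 1) * ∑ _g ∈ G, ENNReal.ofReal D := by
          gcongr with g hg
          exact dual hδ hp hKc hgood _ J
      _ = _ := by
          rw [Finset.sum_const, nsmul_eq_mul, ← ENNReal.ofReal_natCast,
            ENNReal.ofReal_rpow_of_nonneg (by positivity) (by linarith),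
            ← ENNReal.ofReal_mul (by positivity), ← ENNReal.ofReal_mul (by positivity)]
          congr 1
          rw [← mul_assoc]
          congr 1
          rcases Nat.eq_zero_or_pos G.card with h0 | h0
          · rw [h0]
            simp only [Nat.cast_zero, mul_zero]
            rw [Real.zero_rpow (by linarith)]
          · have : (0 : ℝ) < G.card := by exact_mod_cast h0
            rw [← Real.rpow_add_one this.ne']
            congr 1; ring
  have h2 : ENNReal.ofReal m ^ q * (N.card * ENNReal.ofReal (δ ^ (d + 1))) ≤ ∫⁻ y, S y ^ q := by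
    calc ENNReal.ofReal m ^ q * (N.card * ENNReal.ofReal (δ ^ (d + 1)))
        = ∑ j ∈ N, ∫⁻ _y in qc δ j, ENNReal.ofReal m ^ q := by
          simp_rw [setLIntegral_const, qc_vol hδ]
          rw [Finset.sum_const, nsmul_eq_mul]
          ring
      _ ≤ ∑ j ∈ N, ∫⁻ y in qc δ j, S y ^ q := by
          refine Finset.sum_le_sum fun j hj => setLIntegral_mono' (qc_meas δ j) fun y hy => ?_
          have h3 := ct_le_FF hδ hδ1 pos dir G hG ω a J z hza hzd j y hy
          have h4 := (Finset.mem_filter.1 hj).2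
          gcongr
          exact (ENNReal.ofReal_le_ofReal h4).trans h3
      _ = ∫⁻ y in ⋃ j ∈ N, qc δ j, S y ^ q := by
          rw [lintegral_biUnion_finset (fun j _ k _ h => qc_disj hδ j k h)
            fun j _ => qc_meas δ j]
      _ ≤ _ := setLIntegral_le_lintegral _ _
  have h3 := h2.trans h1
  rw [ENNReal.ofReal_rpow_of_nonneg hm.le (by linarith), ← ENNReal.ofReal_natCast,
    ← ENNReal.ofReal_mul (Nat.cast_nonneg _), ← ENNReal.ofReal_mul (by positivity),
    ENNReal.ofReal_le_ofReal_iff (by positivity)] at h3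
  rw [Real.rpow_neg hm.le]
  rw [← div_eq_inv_mul, le_div_iff₀ (by positivity)]
  linarith

end Pool.Agent.N248.KG
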