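import Mathlib
import Pool.Agent.N248.KG.C
set_option autoImplicit false

/-! Kakeya in random regions: the dual inequality over the chosen cells. -/

namespace Pool.Agent.N248.KG

open MeasureTheory Set Metric
open scoped ENNReal NNReal
open Pool.Agent.N248.KR
open Pool.Agent.N248.KT (FF FF_meas FF_eq dual)

open scoped Classical in
/-- the chosen cells of high multiplicity -/
theorem level_count {α Z : Type*} (F : Finset α) (U : Z → Set α) (K c lam : ℝ) (O : Set α)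
    (hK : 1 ≤ K) (hc : 1 ≤ c) (hpass : PassR F U K c lam O) {ι : Type*} [Fintype ι]
    [Nonempty ι] (z : ι → Z) (hl : 0 ≤ lam)
    (hsm : 3 * Real.exp (-(K / 12)) * (Fintype.card ι * F.card) < 1)
    (μ : ℝ) (hμ : 1 ≤ μ) (hμm : μ ≤ Fintype.card ι) :
    ((F.filter fun x => μ ≤ ct (fun i => U (z i)) x ∧ x ∈ O).card : ℝ) ≤
      3 * c * K * (Fintype.card ι / μ) +
        Real.exp 2 * (lam * (F.filter fun x => μ / 4 ≤ ct (fun i => U (z i)) x).card) := by
  set m : ℝ := (Fintype.card ι : ℝ) with hm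
  have hμ0 : 0 < μ := by linarith
  have h1 : 1 ≤ m / μ := by rw [le_div_iff₀ hμ0]; linarith
  have h2 : 1 ≤ K * m / μ := by
    rw [mul_div_assoc]; nlinarith
  set s : ℕ := ⌈K * m / μ⌉₊ with hs
  have hs1 : K * m / μ ≤ s := Nat.le_ceil _
  have hs2 : (s : ℝ) ≤ K * m / μ + 1 := (Nat.ceil_lt_add_one (by linarith)).le
  have hs0 : 1 ≤ s := by
    have : (1 : ℝ) ≤ s := h2.trans hs1
    exact_mod_cast this
  obtain ⟨w, hw1, hw2⟩ := samp_fin F (fun i => U (z i)) μ K hμ0 hμm (by linarith) hsm s hs1 hs2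
  have h3 := hpass s (fun l => z (w l)) hs0
  have h4 : ((F.filter fun x => μ ≤ ct (fun i => U (z i)) x ∧ x ∈ O).card : ℝ) ≤
      ((F.filter fun x => K / 2 ≤ ct (fun l => U (z (w l))) x ∧ x ∈ O).card : ℝ) := by
    have : (F.filter fun x => μ ≤ ct (fun i => U (z i)) x ∧ x ∈ O) ⊆
        (F.filter fun x => K / 2 ≤ ct (fun l => U (z (w l))) x ∧ x ∈ O) := by
      intro x hx
      obtain ⟨a1, a2, a3⟩ := Finset.mem_filter.1 hx
      exact Finset.mem_filter.2 ⟨a1, hw1 x a1 a2, a3⟩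
    exact_mod_cast Finset.card_le_card this
  have h5 : ((F.filter fun x => K / 2 ≤ ct (fun l => U (z (w l))) x).card : ℝ) ≤
      ((F.filter fun x => μ / 4 ≤ ct (fun i => U (z i)) x).card : ℝ) := by
    have : (F.filter fun x => K / 2 ≤ ct (fun l => U (z (w l))) x) ⊆
        (F.filter fun x => μ / 4 ≤ ct (fun i => U (z i)) x) := by
      intro x hx
      obtain ⟨a1, a2⟩ := Finset.mem_filter.1 hx
      exact Finset.mem_filter.2 ⟨a1, hw2 x a1 a2⟩
    exact_mod_cast Finset.card_le_card this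
  refine h4.trans (h3.trans ?_)
  have h6 : c * s + 1 ≤ 3 * c * K * (m / μ) := by
    have e1 : K * m / μ = K * (m / μ) := mul_div_assoc _ _ _
    have e2 : 1 ≤ K * (m / μ) := by rw [← e1]; exact h2
    have e3 : (s : ℝ) ≤ 2 * (K * (m / μ)) := by rw [e1] at hs2; linarith
    have e4 : c * s ≤ c * (2 * (K * (m / μ))) := mul_le_mul_of_nonneg_left e3 (by linarith)
    have e5 : 1 ≤ c * (K * (m / μ)) := by nlinarith
    linarith
  have h7 : Real.exp 2 * (lam * ((F.filter fun x => K / 2 ≤ ct (fun l => U (z (w l))) x).card : ℝ))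
      ≤ Real.exp 2 * (lam * ((F.filter fun x => μ / 4 ≤ ct (fun i => U (z i)) x).card : ℝ)) := by
    gcongr
  linarith

theorem pt_levels (c q : ℝ) (hq : 0 < q) (hc : c = 0 ∨ 1 ≤ c) (L : ℕ) (hL : c ≤ 2 ^ L) :
    c ^ q ≤ ∑ l ∈ Finset.range (L + 1), ((2 : ℝ) ^ (l + 1)) ^ q * (if (2 : ℝ) ^ l ≤ c then 1 else 0)
    := by
  rcases hc with h | h
  · rw [h, Real.zero_rpow hq.ne']
    exact Finset.sum_nonneg fun l _ => by positivity
  · have hex : ∃ l : ℕ, c < 2 ^ (l + 1) :=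
      ⟨L, hL.trans_lt (pow_lt_pow_right₀ (by norm_num) (by omega))⟩
    classical
    set l := Nat.find hex with hl
    have h1 : c < 2 ^ (l + 1) := Nat.find_spec hex
    have hlJ : l ≤ L := Nat.find_min' hex
      (hL.trans_lt (pow_lt_pow_right₀ (by norm_num) (by omega)))
    have h2 : (2 : ℝ) ^ l ≤ c := by
      rcases Nat.eq_zero_or_pos l with h0 | h0
      · rw [h0, pow_zero]; exact h
      · have := Nat.find_min hex (m := l - 1) (by omega)
        rw [not_lt, Nat.sub_add_cancel h0] at this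
        exact this
    calc c ^ q ≤ ((2 : ℝ) ^ (l + 1)) ^ q :=
          Real.rpow_le_rpow (by linarith) h1.le hq.le
      _ = ((2 : ℝ) ^ (l + 1)) ^ q * (if (2 : ℝ) ^ l ≤ c then 1 else 0) := by
          rw [if_pos h2, mul_one]
      _ ≤ _ := Finset.single_le_sum (f := fun l => ((2 : ℝ) ^ (l + 1)) ^ q *
          (if (2 : ℝ) ^ l ≤ c then (1 : ℝ) else 0)) (fun _ _ => by positivity)
            (Finset.mem_range.2 (by omega))

theorem ct_int' {α ι : Type*} [Fintype ι] (T : ι → Set α) (x : α) : ct T x = 0 ∨ 1 ≤ ct T x := by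
  let _ : MeasurableSpace α := ⊤
  exact ct_int T x

open scoped Classical in
theorem sum_levels {α : Type*} (F : Finset α) {ι : Type*} [Fintype ι] (T : ι → Set α) (O : Set α)
    (q : ℝ) (hq : 0 < q) (L : ℕ) (hL : (Fintype.card ι : ℝ) ≤ 2 ^ L) :
    ∑ x ∈ F.filter (fun x => x ∈ O), ct T x ^ q ≤ ∑ l ∈ Finset.range (L + 1),
      ((2 : ℝ) ^ (l + 1)) ^ q * (F.filter fun x => (2 : ℝ) ^ l ≤ ct T x ∧ x ∈ O).card := by
  calc ∑ x ∈ F.filter (fun x => x ∈ O), ct T x ^ q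
      ≤ ∑ x ∈ F.filter (fun x => x ∈ O), ∑ l ∈ Finset.range (L + 1),
        ((2 : ℝ) ^ (l + 1)) ^ q * (if (2 : ℝ) ^ l ≤ ct T x then 1 else 0) :=
        Finset.sum_le_sum fun x _ => pt_levels _ q hq (ct_int' T x) L ((ct_le T x).trans hL)
    _ = ∑ l ∈ Finset.range (L + 1), ∑ x ∈ F.filter (fun x => x ∈ O),
        ((2 : ℝ) ^ (l + 1)) ^ q * (if (2 : ℝ) ^ l ≤ ct T x then 1 else 0) := Finset.sum_comm
    _ = _ := by
        refine Finset.sum_congr rfl fun l _ => ?_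
        rw [← Finset.mul_sum, Finset.sum_boole, Finset.filter_filter]
        congr 3
        ext x
        simp only [Finset.mem_filter]
        tauto

variable {d M : ℕ}

open scoped Classical in
/-- **the dual inequality over the chosen cells** -/
theorem dual_cells {Z : Type*} {δ p Kc K c lam : ℝ} (hδ : 0 < δ) (hδ1 : δ ≤ 1) (hp : 1 < p)
    (hKc : 0 ≤ Kc) (pos dir : Z → E (d + 1)) (G : Finset (E (d + 1) × ℝ))
    (hG : ∀ a e : E (d + 1), ‖e‖ = 1 →
      ∀ y ∈ cyl ((d + 1 : ℕ) + 6) (((d + 1 : ℕ) + 6) * δ) a e,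
      ∃ g ∈ G, y ∈ cyl (1 / 2) δ (a + δ • g.1 + g.2 • e) e)
    (ω : Fin M → Dir (d + 1)) (hgood : Good p Kc δ ω)
    (a : Fin M → E (d + 1)) (J : Finset (Fin M)) (hJ : J.Nonempty) (z : Fin M → Z)
    (hza : ∀ i ∈ J, ‖a i - pos (z i)‖ ≤ δ) (hzd : ∀ i ∈ J, ‖(ω i : E (d + 1)) - dir (z i)‖ ≤ δ)
    (F : Finset (Fin (d + 1) → ℤ)) (O : Set (Fin (d + 1) → ℤ)) (hK : 1 ≤ K) (hc : 1 ≤ c)
    (hl : 0 ≤ lam) (hpass : PassR F (UU δ pos dir) K c lam O)
    (hsm : 3 * Real.exp (-(K / 12)) * (M * F.card) < 1) (L : ℕ) (hL : (M : ℝ) ≤ 2 ^ L) :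
    (∑ x ∈ F.filter (fun x => x ∈ O), ct (fun i : J => UU δ pos dir (z i)) x ^ (p / (p - 1))) *
      δ ^ (d + 1) ≤
      (L + 1) * (2 ^ (p / (p - 1)) * (3 * c * K) * (δ * (M : ℝ) ^ (1 / (p - 1))) +
        Real.exp 2 * lam * (8 ^ (p / (p - 1)) * ((G.card : ℝ) ^ (p / (p - 1)) *
          (2 ^ d) ^ (p / (p - 1)))) * Kc ^ (1 / (p - 1))) * (J.card * δ ^ d) := by
  have hp1 : 0 < p - 1 := by linarith
  set q : ℝ := p / (p - 1) with hq
  have hq1 : q - 1 = 1 / (p - 1) := by rw [hq]; field_simp; ring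
  have hq0 : 1 < q := by
    have : 0 < 1 / (p - 1) := by positivity
    linarith
  have : Nonempty J := ⟨⟨hJ.choose, hJ.choose_spec⟩⟩
  set T : J → Set (Fin (d + 1) → ℤ) := fun i => UU δ pos dir (z i) with hT
  have hcard : (Fintype.card J : ℝ) = J.card := by rw [Fintype.card_coe]
  have hJM : (J.card : ℝ) ≤ M := by
    have := Finset.card_le_univ J
    rw [Fintype.card_fin] at this
    exact_mod_cast this
  have hJ1 : (1 : ℝ) ≤ J.card := by exact_mod_cast hJ.card_pos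
  set m : ℝ := (J.card : ℝ) with hm
  have hm0 : 0 < m := by linarith
  set X : ℝ := 2 ^ q * (3 * c * K) * (δ * (M : ℝ) ^ (1 / (p - 1))) with hX
  set Y : ℝ := Real.exp 2 * lam * (8 ^ q * ((G.card : ℝ) ^ q * (2 ^ d) ^ q)) * Kc ^ (1 / (p - 1))
    with hY
  have hX0 : 0 ≤ X := by positivity
  have hY0 : 0 ≤ Y := by positivity
  have hterm : ∀ l : ℕ, ((2 : ℝ) ^ (l + 1)) ^ q *
      (F.filter fun x => (2 : ℝ) ^ l ≤ ct T x ∧ x ∈ O).card * δ ^ (d + 1) ≤
      (X + Y) * (m * δ ^ d) := by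
    intro l
    rcases le_or_gt ((2 : ℝ) ^ l) m with h | h
    · have h2l : (1 : ℝ) ≤ 2 ^ l := one_le_pow₀ (by norm_num)
      have h2l0 : (0 : ℝ) < 2 ^ l := by linarith
      have h1 := level_count F (UU δ pos dir) K c lam O hK hc hpass (fun i : J => z i) hl
        (lt_of_le_of_lt (by rw [hcard]; gcongr) hsm) (2 ^ l) h2l (by rw [hcard]; exact h)
      rw [hcard] at h1
      have h2 := cell_levels hδ hδ1 hp hKc pos dir G hG ω hgood a J z hza hzd F ((2 : ℝ) ^ l / 4)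
        (by positivity)
      rw [← hq] at h2
      set N4 : ℝ := ((F.filter fun x => (2 : ℝ) ^ l / 4 ≤ ct T x).card : ℝ) with hN4
      have e0 : ((2 : ℝ) ^ (l + 1)) ^ q = 2 ^ q * ((2 : ℝ) ^ l) ^ q := by
        rw [pow_succ, mul_comm, Real.mul_rpow (by norm_num) h2l0.le]
      have e1 : ((2 : ℝ) ^ (l + 1)) ^ q * (3 * c * K * (m / 2 ^ l)) * δ ^ (d + 1) ≤
          X * (m * δ ^ d) := by
        have e2 : ((2 : ℝ) ^ l) ^ q / 2 ^ l = ((2 : ℝ) ^ l) ^ (1 / (p - 1)) := by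
          rw [← hq1, Real.rpow_sub h2l0, Real.rpow_one]
        have e3 : ((2 : ℝ) ^ l) ^ (1 / (p - 1)) ≤ (M : ℝ) ^ (1 / (p - 1)) :=
          Real.rpow_le_rpow h2l0.le (h.trans hJM) (by positivity)
        calc ((2 : ℝ) ^ (l + 1)) ^ q * (3 * c * K * (m / 2 ^ l)) * δ ^ (d + 1)
            = 2 ^ q * (3 * c * K) * (δ * (((2 : ℝ) ^ l) ^ q / 2 ^ l)) * (m * δ ^ d) := by
              rw [e0, pow_succ]; ring
          _ ≤ X * (m * δ ^ d) := by
              rw [e2, hX]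
              gcongr
      have e4 : ((2 : ℝ) ^ (l + 1)) ^ q * (Real.exp 2 * (lam * N4)) * δ ^ (d + 1) ≤
          Y * (m * δ ^ d) := by
        have e5 : ((2 : ℝ) ^ (l + 1)) ^ q * ((2 : ℝ) ^ l / 4) ^ (-q) = 8 ^ q := by
          rw [Real.rpow_neg (by positivity), ← Real.inv_rpow (by positivity),
            ← Real.mul_rpow (by positivity) (by positivity)]
          congr 1
          rw [pow_succ]
          field_simp
          norm_num
        calc ((2 : ℝ) ^ (l + 1)) ^ q * (Real.exp 2 * (lam * N4)) * δ ^ (d + 1)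
            = Real.exp 2 * lam * ((2 : ℝ) ^ (l + 1)) ^ q * (N4 * δ ^ (d + 1)) := by ring
          _ ≤ Real.exp 2 * lam * ((2 : ℝ) ^ (l + 1)) ^ q * (((2 : ℝ) ^ l / 4) ^ (-q) *
                ((G.card : ℝ) ^ q * ((2 ^ d) ^ q * Kc ^ (1 / (p - 1)) * δ ^ d * m))) := by
              gcongr
          _ = Real.exp 2 * lam * (((2 : ℝ) ^ (l + 1)) ^ q * ((2 : ℝ) ^ l / 4) ^ (-q)) *
                ((G.card : ℝ) ^ q * ((2 ^ d) ^ q * Kc ^ (1 / (p - 1)) * δ ^ d * m)) := by ring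
          _ = Y * (m * δ ^ d) := by rw [e5, hY]; ring
      calc ((2 : ℝ) ^ (l + 1)) ^ q * (F.filter fun x => (2 : ℝ) ^ l ≤ ct T x ∧ x ∈ O).card *
            δ ^ (d + 1)
          ≤ ((2 : ℝ) ^ (l + 1)) ^ q * (3 * c * K * (m / 2 ^ l) + Real.exp 2 * (lam * N4)) *
            δ ^ (d + 1) := by gcongr
        _ = ((2 : ℝ) ^ (l + 1)) ^ q * (3 * c * K * (m / 2 ^ l)) * δ ^ (d + 1) +
            ((2 : ℝ) ^ (l + 1)) ^ q * (Real.exp 2 * (lam * N4)) * δ ^ (d + 1) := by ring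
        _ ≤ _ := by rw [add_mul]; exact add_le_add e1 e4
    · have h1 : (F.filter fun x => (2 : ℝ) ^ l ≤ ct T x ∧ x ∈ O) = ∅ := by
        refine Finset.filter_false_of_mem fun x _ hx => ?_
        have := ct_le T x
        rw [hcard] at this
        linarith [hx.1]
      rw [h1, Finset.card_empty]
      simp only [Nat.cast_zero, mul_zero, zero_mul]
      positivity
  have hS := sum_levels F T O q (by linarith) L (by rw [hcard]; exact hJM.trans hL)
  calc (∑ x ∈ F.filter (fun x => x ∈ O), ct T x ^ q) * δ ^ (d + 1)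
      ≤ (∑ l ∈ Finset.range (L + 1), ((2 : ℝ) ^ (l + 1)) ^ q *
        (F.filter fun x => (2 : ℝ) ^ l ≤ ct T x ∧ x ∈ O).card) * δ ^ (d + 1) := by gcongr
    _ = ∑ l ∈ Finset.range (L + 1), ((2 : ℝ) ^ (l + 1)) ^ q *
        (F.filter fun x => (2 : ℝ) ^ l ≤ ct T x ∧ x ∈ O).card * δ ^ (d + 1) := by
        rw [Finset.sum_mul]
    _ ≤ ∑ _l ∈ Finset.range (L + 1), (X + Y) * (m * δ ^ d) :=
        Finset.sum_le_sum fun l _ => hterm l
    _ = _ := by
        rw [Finset.sum_const, Finset.card_range, nsmul_eq_mul]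
        push_cast
        ring

end Pool.Agent.N248.KG
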