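import Mathlib
import Pool.Agent.N248.KG.D
set_option autoImplicit false

/-! Kakeya in random regions: the maximal inequality for functions on the chosen cells. -/

namespace Pool.Agent.N248.KG

open MeasureTheory Set Metric
open scoped ENNReal NNReal
open Pool.Agent.N248.KR
open Pool.Agent.N248.KT (FF FF_meas FF_eq dual)

variable {d M : ℕ}

/-- the constant of the dual inequality -/
noncomputable def RC (d M : ℕ) (g δ p Kc K c lam : ℝ) (L : ℕ) : ℝ :=
  (L + 1) * (2 ^ (p / (p - 1)) * (3 * c * K) * (δ * (M : ℝ) ^ (1 / (p - 1))) +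
    Real.exp 2 * lam * (8 ^ (p / (p - 1)) * (g ^ (p / (p - 1)) *
      (2 ^ d) ^ (p / (p - 1)))) * Kc ^ (1 / (p - 1)))

theorem alg_end {t I : ℝ≥0∞} {p κ x Rc : ℝ} (hp : 1 < p) (hκ : 0 < κ) (hx : 0 < x)
    (hRc : 0 ≤ Rc)
    (h : (t * ENNReal.ofReal (κ * x)) ^ p ≤ I * ENNReal.ofReal (Rc * x) ^ (p - 1)) :
    t ^ p * ENNReal.ofReal (κ ^ p * x) ≤ ENNReal.ofReal (Rc ^ (p - 1)) * I := by
  have hp0 : 0 < p := by linarith
  rw [ENNReal.mul_rpow_of_nonneg _ _ hp0.le, ENNReal.ofReal_rpow_of_nonneg (by positivity) hp0.le,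
    ENNReal.ofReal_rpow_of_nonneg (by positivity) (by linarith), Real.mul_rpow hκ.le hx.le,
    Real.mul_rpow hRc hx.le] at h
  have h1 : κ ^ p * x = κ ^ p * x ^ p * x ^ (-(p - 1)) := by
    rw [mul_assoc, ← Real.rpow_add hx]
    congr 1
    rw [show p + -(p - 1) = 1 by ring, Real.rpow_one]
  have h2 : Rc ^ (p - 1) = Rc ^ (p - 1) * x ^ (p - 1) * x ^ (-(p - 1)) := by
    rw [mul_assoc, ← Real.rpow_add hx, add_neg_cancel, Real.rpow_zero, mul_one]
  rw [h1, h2, ENNReal.ofReal_mul (by positivity), ENNReal.ofReal_mul (p := Rc ^ (p - 1) * x ^ (p - 1))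
    (by positivity)]
  calc t ^ p * (ENNReal.ofReal (κ ^ p * x ^ p) * ENNReal.ofReal (x ^ (-(p - 1))))
      = (t ^ p * ENNReal.ofReal (κ ^ p * x ^ p)) * ENNReal.ofReal (x ^ (-(p - 1))) := by ring
    _ ≤ (I * ENNReal.ofReal (Rc ^ (p - 1) * x ^ (p - 1))) * ENNReal.ofReal (x ^ (-(p - 1))) := by
        gcongr
    _ = _ := by ring

open scoped Classical in
/-- the weak type inequality for functions on the chosen cells -/
theorem weak_fun {Z : Type*} {δ p Kc K c lam R : ℝ} (hδ : 0 < δ) (hδ5 : δ ≤ 1 / 5) (hp : 1 < p)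
    (hKc : 0 ≤ Kc) (hR : 0 ≤ R) (pos dir : Z → E (d + 1)) (hdir : ∀ z, ‖dir z‖ = 1)
    (G : Finset (E (d + 1) × ℝ))
    (hG : ∀ a e : E (d + 1), ‖e‖ = 1 →
      ∀ y ∈ cyl ((d + 1 : ℕ) + 6) (((d + 1 : ℕ) + 6) * δ) a e,
      ∃ g ∈ G, y ∈ cyl (1 / 2) δ (a + δ • g.1 + g.2 • e) e)
    (hnet : ∀ a e : E (d + 1), ‖a‖ ≤ R + 1 → ‖e‖ = 1 → ∃ z, ‖a - pos z‖ ≤ δ ∧ ‖e - dir z‖ ≤ δ)
    (ω : Fin M → Dir (d + 1)) (hgood : Good p Kc δ ω)
    (F : Finset (Fin (d + 1) → ℤ)) (O : Set (Fin (d + 1) → ℤ))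
    (hF : ∀ x ∈ closedBall (0 : E (d + 1)) R, ∀ j, x ∈ qc δ j → j ∈ F)
    (hK : 1 ≤ K) (hc : 1 ≤ c)
    (hl : 0 ≤ lam) (hpass : PassR F (UU δ pos dir) K c lam O)
    (hsm : 3 * Real.exp (-(K / 12)) * (M * F.card) < 1) (L : ℕ) (hL : (M : ℝ) ≤ 2 ^ L)
    (f : E (d + 1) → ℝ≥0∞) (hf : AEMeasurable f volume)
    (hsupp : ∀ y, f y ≠ 0 → y ∈ closedBall (0 : E (d + 1)) R ∧ ∃ j ∈ O, y ∈ qc δ j)
    (J : Finset (Fin M)) (hJ : J.Nonempty) (t : ℝ≥0∞) (ht : ∀ i ∈ J, t < kmax δ f (ω i)) :
    t ^ p * ENNReal.ofReal (kap d ^ p * (J.card * δ ^ d)) ≤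
      ENNReal.ofReal (RC d M G.card δ p Kc K c lam L ^ (p - 1)) * ∫⁻ y, f y ^ p := by
  have hκ := kap_pos d
  have hp1 : 0 < p - 1 := by linarith
  have hδd : 0 < δ ^ d := by positivity
  have hJ1 : (1 : ℝ) ≤ J.card := by exact_mod_cast hJ.card_pos
  have hRC0 : 0 ≤ RC d M G.card δ p Kc K c lam L := by unfold RC; positivity
  refine alg_end hp hκ (by positivity) hRC0 ?_
  -- choose tubes
  have hn : ∀ i, ‖(ω i : E (d + 1))‖ = 1 := fun i => norm_eq_of_mem_sphere (ω i)
  have hex : ∀ i : Fin M, ∃ a : E (d + 1), ‖a‖ ≤ R + 1 ∧ (i ∈ J →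
      t < (volume (cyl (1 / 2) δ a (ω i : E (d + 1))))⁻¹ *
        ∫⁻ y in cyl (1 / 2) δ a (ω i : E (d + 1)), f y) := by
    intro i
    by_cases hi : i ∈ J
    · have h1 := ht i hi
      unfold kmax at h1
      obtain ⟨a, ha⟩ := lt_iSup_iff.1 h1
      refine ⟨a, ?_, fun _ => ha⟩
      by_contra hcon
      push Not at hcon
      have h2 : ∫⁻ y in cyl (1 / 2) δ a (ω i : E (d + 1)), f y = 0 := by
        rw [← lintegral_indicator (cyl_meas _ _ _ _)]
        have : (cyl (1 / 2) δ a (ω i : E (d + 1))).indicator f = fun _ => 0 := by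
          funext y
          by_cases hy : y ∈ cyl (1 / 2) δ a (ω i : E (d + 1))
          · rw [indicator_of_mem hy]
            by_contra hne
            have h3 := (hsupp y hne).1
            rw [mem_closedBall_zero_iff] at h3
            have h4 := cyl_sub_ball (hn i) hy
            have h5 : ‖a‖ ≤ ‖y‖ + ‖y - a‖ := by
              have : a = y - (y - a) := by abel
              conv_lhs => rw [this]
              exact norm_sub_le _ _
            linarith
          · rw [indicator_of_notMem hy]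
        rw [this]
        simp
      rw [h2, mul_zero] at ha
      exact absurd ha not_lt_zero
    · exact ⟨0, by rw [norm_zero]; linarith, fun h => absurd h hi⟩
  choose a ha1 ha2 using hex
  choose z hz1 hz2 using fun i : Fin M => hnet (a i) (ω i) (ha1 i) (hn i)
  set T : J → Set (Fin (d + 1) → ℤ) := fun i => UU δ pos dir (z i) with hT
  set q : ℝ := p / (p - 1) with hq
  have hq1 : q - 1 = 1 / (p - 1) := by rw [hq]; field_simp; ring
  have hq0 : 1 < q := by
    have : 0 < 1 / (p - 1) := by positivity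
    linarith
  have hpq : p.HolderConjugate q := by
    rw [Real.holderConjugate_iff]
    refine ⟨hp, ?_⟩
    rw [hq]
    field_simp
    ring
  -- first estimate
  have h1 : t * ENNReal.ofReal (kap d * (J.card * δ ^ d)) ≤ ∫⁻ y, f y * FF δ ω a J y := by
    have h2 : ∀ i ∈ J, t * ENNReal.ofReal (kap d * δ ^ d) ≤
        ∫⁻ y in cyl (1 / 2) δ (a i) (ω i : E (d + 1)), f y := by
      intro i hi
      obtain ⟨h0, htt⟩ := vol_ne (d := d) hδ (a := a i) (hn i)
      have h3 := ha2 i hi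
      have h4 : ENNReal.ofReal (kap d * δ ^ d) ≤
          volume (cyl (1 / 2) δ (a i) (ω i : E (d + 1))) := vol_cyl_ge hδ (hn i)
      calc t * ENNReal.ofReal (kap d * δ ^ d)
          ≤ ((volume (cyl (1 / 2) δ (a i) (ω i : E (d + 1))))⁻¹ *
            ∫⁻ y in cyl (1 / 2) δ (a i) (ω i : E (d + 1)), f y) *
            volume (cyl (1 / 2) δ (a i) (ω i : E (d + 1))) := mul_le_mul' h3.le h4
        _ = (volume (cyl (1 / 2) δ (a i) (ω i : E (d + 1))) *
            (volume (cyl (1 / 2) δ (a i) (ω i : E (d + 1))))⁻¹) *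
            ∫⁻ y in cyl (1 / 2) δ (a i) (ω i : E (d + 1)), f y := by ring
        _ = _ := by rw [ENNReal.mul_inv_cancel h0 htt, one_mul]
    have h3 : ∫⁻ y, f y * FF δ ω a J y =
        ∑ i ∈ J, ∫⁻ y in cyl (1 / 2) δ (a i) (ω i : E (d + 1)), f y := by
      have h4 : ∀ y, f y * FF δ ω a J y =
          ∑ i ∈ J, (cyl (1 / 2) δ (a i) (ω i : E (d + 1))).indicator f y := by
        intro y
        unfold FF
        rw [Finset.mul_sum]
        refine Finset.sum_congr rfl fun i _ => ?_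
        by_cases hy : y ∈ cyl (1 / 2) δ (a i) (ω i : E (d + 1))
        · rw [indicator_of_mem hy, indicator_of_mem hy, Pi.one_apply, mul_one]
        · rw [indicator_of_notMem hy, indicator_of_notMem hy, mul_zero]
      rw [lintegral_congr h4, lintegral_finsetSum' _ fun i _ => hf.indicator (cyl_meas _ _ _ _)]
      exact Finset.sum_congr rfl fun i _ => lintegral_indicator (cyl_meas _ _ _ _) _
    rw [h3]
    calc t * ENNReal.ofReal (kap d * (J.card * δ ^ d))
        = ∑ _i ∈ J, t * ENNReal.ofReal (kap d * δ ^ d) := by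
          rw [Finset.sum_const, nsmul_eq_mul,
            show kap d * ((J.card : ℝ) * δ ^ d) = J.card * (kap d * δ ^ d) by ring,
            ENNReal.ofReal_mul (Nat.cast_nonneg _), ENNReal.ofReal_natCast]
          ring
      _ ≤ _ := Finset.sum_le_sum h2
  -- the region
  set S : Set (E (d + 1)) := ⋃ j ∈ F.filter (fun x => x ∈ O), qc δ j with hS
  have hSm : MeasurableSet S := Finset.measurableSet_biUnion _ fun j _ => qc_meas δ j
  have h2 : ∫⁻ y, f y * FF δ ω a J y = ∫⁻ y, (f * S.indicator (FF δ ω a J)) y := by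
    refine lintegral_congr fun y => ?_
    rw [Pi.mul_apply]
    by_cases hy : f y = 0
    · rw [hy, zero_mul, zero_mul]
    · obtain ⟨h3, j, hj, h4⟩ := hsupp y hy
      have h5 : y ∈ S := by
        rw [hS, mem_iUnion₂]
        exact ⟨j, Finset.mem_filter.2 ⟨hF y h3 j h4, hj⟩, h4⟩
      rw [indicator_of_mem h5]
  have h3 : ∫⁻ y, (f * S.indicator (FF δ ω a J)) y ≤ (∫⁻ y, f y ^ p) ^ (1 / p) *
      (∫⁻ y, S.indicator (FF δ ω a J) y ^ q) ^ (1 / q) :=
    ENNReal.lintegral_mul_le_Lp_mul_Lq volume hpq hf ((FF_meas δ ω a J).indicator hSm).aemeasurable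
  have h4 : ∫⁻ y, S.indicator (FF δ ω a J) y ^ q ≤
      ENNReal.ofReal (RC d M G.card δ p Kc K c lam L * (J.card * δ ^ d)) := by
    have h5 : ∀ y, S.indicator (FF δ ω a J) y ^ q = S.indicator (fun y => FF δ ω a J y ^ q) y := by
      intro y
      by_cases hy : y ∈ S
      · rw [indicator_of_mem hy, indicator_of_mem hy]
      · rw [indicator_of_notMem hy, indicator_of_notMem hy, ENNReal.zero_rpow_of_pos (by linarith)]
    rw [lintegral_congr h5, lintegral_indicator hSm, hS]
    refine (lint_biUnion_le _ _ _ _).trans ?_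
    have h6 : ∀ j ∈ F.filter (fun x => x ∈ O), ∫⁻ y in qc δ j, FF δ ω a J y ^ q ≤
        ENNReal.ofReal (ct T j ^ q * δ ^ (d + 1)) := by
      intro j _
      calc ∫⁻ y in qc δ j, FF δ ω a J y ^ q ≤ ∫⁻ _y in qc δ j, ENNReal.ofReal (ct T j ^ q) := by
            refine setLIntegral_mono' (qc_meas δ j) fun y hy => ?_
            rw [← ENNReal.ofReal_rpow_of_nonneg (ct_nonneg _ _) (by linarith)]
            gcongr
            have e1 : ENNReal.ofReal (ct T j) =
                ∑ i ∈ J, (UU δ pos dir (z i)).indicator (fun _ => (1 : ℝ≥0∞)) j := by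
              unfold ct
              rw [ENNReal.ofReal_sum_of_nonneg fun i _ => indicator_nonneg
                (fun _ _ => zero_le_one) _,
                ← Finset.sum_coe_sort J (fun i => (UU δ pos dir (z i)).indicator
                  (fun _ => (1 : ℝ≥0∞)) j)]
              refine Finset.sum_congr rfl fun i _ => ?_
              by_cases h : j ∈ UU δ pos dir (z i)
              · rw [indicator_of_mem h, indicator_of_mem h, ENNReal.ofReal_one]
              · rw [indicator_of_notMem h, indicator_of_notMem h, ENNReal.ofReal_zero]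
            rw [e1]
            unfold FF
            refine Finset.sum_le_sum fun i hi => ?_
            by_cases hyi : y ∈ cyl (1 / 2) δ (a i) (ω i : E (d + 1))
            · have h7 : j ∈ UU δ pos dir (z i) :=
                ⟨y, hy, thin_fat (hdir _) hδ5 (hz1 i) (hz2 i) hyi⟩
              rw [indicator_of_mem hyi, indicator_of_mem h7]
              rfl
            · rw [indicator_of_notMem hyi]
              exact zero_le
        _ = _ := by
            rw [setLIntegral_const, qc_vol hδ, ← ENNReal.ofReal_mul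
              (Real.rpow_nonneg (ct_nonneg _ _) _)]
    refine (Finset.sum_le_sum h6).trans ?_
    rw [← ENNReal.ofReal_sum_of_nonneg fun j _ =>
      mul_nonneg (Real.rpow_nonneg (ct_nonneg _ _) _) (by positivity), ← Finset.sum_mul]
    apply ENNReal.ofReal_le_ofReal
    have h7 := dual_cells hδ (by linarith) hp hKc pos dir G hG ω hgood a J hJ z
      (fun i _ => hz1 i) (fun i _ => hz2 i) F O hK hc hl hpass hsm L hL
    exact h7
  have h5 : t * ENNReal.ofReal (kap d * (J.card * δ ^ d)) ≤ (∫⁻ y, f y ^ p) ^ (1 / p) *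
      ENNReal.ofReal (RC d M G.card δ p Kc K c lam L * (J.card * δ ^ d)) ^ (1 / q) := by
    refine h1.trans (h2.le.trans (h3.trans ?_))
    gcongr
  have h6 : (1 / q) * p = p - 1 := by
    rw [hq]; field_simp
  calc (t * ENNReal.ofReal (kap d * (J.card * δ ^ d))) ^ p
      ≤ ((∫⁻ y, f y ^ p) ^ (1 / p) *
        ENNReal.ofReal (RC d M G.card δ p Kc K c lam L * (J.card * δ ^ d)) ^ (1 / q)) ^ p := by
        gcongr
    _ = _ := by
        rw [ENNReal.mul_rpow_of_nonneg _ _ (by linarith), ← ENNReal.rpow_mul, ← ENNReal.rpow_mul,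
          h6, one_div, inv_mul_cancel₀ (by linarith), ENNReal.rpow_one]

end Pool.Agent.N248.KG
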