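import Mathlib
import Pool.Agent.N248.KG.E
set_option autoImplicit false

/-! Kakeya in random regions: the strong inequality. -/

namespace Pool.Agent.N248.KG

open MeasureTheory Set Metric
open scoped ENNReal NNReal
open Pool.Agent.N248.KR
open Pool.Agent.N248.KT (FF FF_meas FF_eq dual)

theorem pt_dy (v b : ℝ) (hb : 0 < b) (L : ℕ) (hL : v ≤ 2 ^ L * b) :
    v ≤ b + ∑ k ∈ Finset.range L, 2 * (2 ^ k * b * (if 2 ^ k * b < v then 1 else 0)) := by
  rcases le_or_gt v b with h | h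
  · refine h.trans (le_add_of_nonneg_right (Finset.sum_nonneg fun k _ => ?_))
    split_ifs <;> positivity
  · have hex : ∃ l : ℕ, v ≤ 2 ^ l * b := ⟨L, hL⟩
    classical
    set l := Nat.find hex with hl
    have h1 : v ≤ 2 ^ l * b := Nat.find_spec hex
    have hlL : l ≤ L := Nat.find_min' hex hL
    have hl0 : l ≠ 0 := by
      intro h0
      rw [h0, pow_zero, one_mul] at h1
      linarith
    obtain ⟨k, hk⟩ := Nat.exists_eq_succ_of_ne_zero hl0
    have h2 : 2 ^ k * b < v := by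
      by_contra hcon
      push Not at hcon
      exact Nat.find_min hex (by omega : k < l) hcon
    have h3 : v ≤ 2 * (2 ^ k * b * (if 2 ^ k * b < v then 1 else 0)) := by
      rw [if_pos h2, mul_one]
      rw [hk, Nat.succ_eq_add_one, pow_succ] at h1
      linarith
    have h4 : 2 * (2 ^ k * b * (if 2 ^ k * b < v then (1 : ℝ) else 0)) ≤
        ∑ k ∈ Finset.range L, 2 * (2 ^ k * b * (if 2 ^ k * b < v then 1 else 0)) :=
      Finset.single_le_sum (f := fun k => 2 * (2 ^ k * b * (if 2 ^ k * b < v then (1 : ℝ) else 0)))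
        (fun k _ => by split_ifs <;> positivity) (Finset.mem_range.2 (by omega))
    linarith

open scoped Classical in
theorem dy_sum {M : ℕ} (v : Fin M → ℝ) (b : ℝ) (hb : 0 < b) (L : ℕ) (hv : ∀ i, v i ≤ 2 ^ L * b)
    (W : ℝ) (hw : ∀ s : ℝ, 0 < s → s * (Finset.univ.filter fun i => s < v i).card ≤ W) :
    ∑ i, v i ≤ M * b + 2 * L * W := by
  calc ∑ i, v i ≤ ∑ i : Fin M, (b + ∑ k ∈ Finset.range L,
        2 * (2 ^ k * b * (if 2 ^ k * b < v i then 1 else 0))) :=
        Finset.sum_le_sum fun i _ => pt_dy (v i) b hb L (hv i)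
    _ = M * b + ∑ k ∈ Finset.range L, 2 * ((2 ^ k * b) *
        (Finset.univ.filter fun i => 2 ^ k * b < v i).card) := by
        rw [Finset.sum_add_distrib, Finset.sum_const, Finset.card_univ, Fintype.card_fin,
          nsmul_eq_mul, Finset.sum_comm]
        congr 1
        refine Finset.sum_congr rfl fun k _ => ?_
        rw [← Finset.mul_sum, ← Finset.mul_sum, Finset.sum_boole]
    _ ≤ M * b + ∑ _k ∈ Finset.range L, 2 * W := by
        gcongr with k hk
        exact hw _ (by positivity)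
    _ = _ := by
        rw [Finset.sum_const, Finset.card_range, nsmul_eq_mul]
        ring

variable {d M : ℕ}

/-- the maximal inequality for the directions `ω` and functions on `W` -/
def GoodOn (p C δ : ℝ) (W : Set (E (d + 1))) (ω : Fin M → Dir (d + 1)) : Prop :=
  ∀ f : E (d + 1) → ℝ≥0∞, AEMeasurable f volume → (∀ y, f y ≠ 0 → y ∈ W) →
    ENNReal.ofReal (δ ^ d) * ∑ i, kmax δ f (ω i) ^ p ≤ ENNReal.ofReal C * ∫⁻ y, f y ^ p

theorem GoodOn.mono {p C C' δ : ℝ} {W : Set (E (d + 1))} {ω : Fin M → Dir (d + 1)}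
    (h : GoodOn p C δ W ω) (hC : C ≤ C') : GoodOn p C' δ W ω := fun f hf hs =>
  (h f hf hs).trans (by gcongr)

/-- the trivial inequality -/
theorem goodOn_triv {p δ : ℝ} (hδ : 0 < δ) (hp : 1 < p) (W : Set (E (d + 1)))
    (ω : Fin M → Dir (d + 1)) : GoodOn p (M * (kap d)⁻¹) δ W ω := by
  have hκ := kap_pos d
  intro f hf _
  calc ENNReal.ofReal (δ ^ d) * ∑ i, kmax δ f (ω i) ^ p
      ≤ ENNReal.ofReal (δ ^ d) * ∑ _i : Fin M, ENNReal.ofReal ((kap d * δ ^ d)⁻¹) *
        ∫⁻ y, f y ^ p := by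
        gcongr with i
        exact kmax_pow_le hδ hp (norm_eq_of_mem_sphere (ω i)) hf
    _ = _ := by
        rw [Finset.sum_const, Finset.card_univ, Fintype.card_fin, nsmul_eq_mul, ← mul_assoc,
          ← mul_assoc, ← ENNReal.ofReal_natCast, ← ENNReal.ofReal_mul (by positivity),
          ← ENNReal.ofReal_mul (by positivity)]
        congr 2
        have : δ ^ d ≠ 0 := by positivity
        field_simp

open scoped Classical in
/-- the strong type inequality for functions on the chosen cells -/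
theorem strong_cells {Z : Type*} {δ p Kc K c lam R : ℝ} (hδ : 0 < δ) (hδ5 : δ ≤ 1 / 5) (hp : 1 < p)
    (hKc : 0 ≤ Kc) (hR : 0 ≤ R) (pos dir : Z → E (d + 1)) (hdir : ∀ z, ‖dir z‖ = 1)
    (G : Finset (E (d + 1) × ℝ))
    (hG : ∀ a e : E (d + 1), ‖e‖ = 1 →
      ∀ y ∈ cyl ((d + 1 : ℕ) + 6) (((d + 1 : ℕ) + 6) * δ) a e,
      ∃ g ∈ G, y ∈ cyl (1 / 2) δ (a + δ • g.1 + g.2 • e) e)
    (hnet : ∀ a e : E (d + 1), ‖a‖ ≤ R + 1 → ‖e‖ = 1 → ∃ z, ‖a - pos z‖ ≤ δ ∧ ‖e - dir z‖ ≤ δ)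
    (ω : Fin M → Dir (d + 1)) (hgood : Good p Kc δ ω)
    (F : Finset (Fin (d + 1) → ℤ)) (O : Set (Fin (d + 1) → ℤ))
    (hF : ∀ x ∈ closedBall (0 : E (d + 1)) R, ∀ j, x ∈ qc δ j → j ∈ F)
    (hK : 1 ≤ K) (hc : 1 ≤ c)
    (hl : 0 ≤ lam) (hpass : PassR F (UU δ pos dir) K c lam O)
    (hsm : 3 * Real.exp (-(K / 12)) * (M * F.card) < 1) (L L' : ℕ) (hL : (M : ℝ) ≤ 2 ^ L)
    (hL' : (kap d * δ ^ d)⁻¹ ≤ 2 ^ L' * δ ^ p) :
    GoodOn p (M * (δ ^ d * δ ^ p) + 2 * L' * ((kap d ^ p)⁻¹ *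
      RC d M G.card δ p Kc K c lam L ^ (p - 1))) δ
      ((⋃ j ∈ O, qc δ j) ∩ closedBall (0 : E (d + 1)) R) ω := by
  have hκ := kap_pos d
  have hδd : 0 < δ ^ d := by positivity
  have hp0 : 0 < p := by linarith
  have hRC0 : 0 ≤ RC d M G.card δ p Kc K c lam L := by unfold RC; positivity
  set Q : ℝ := RC d M G.card δ p Kc K c lam L ^ (p - 1) with hQ
  have hQ0 : 0 ≤ Q := by positivity
  intro f hf hsupp
  set I : ℝ≥0∞ := ∫⁻ y, f y ^ p with hI
  rcases Nat.eq_zero_or_pos M with hM0 | hM0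
  · subst hM0
    simp
  have hM : (0 : ℝ) < M := by exact_mod_cast hM0
  have hC0 : 0 < M * (δ ^ d * δ ^ p) + 2 * L' * ((kap d ^ p)⁻¹ * Q) := by positivity
  rcases eq_or_ne I ⊤ with hIt | hIt
  · rw [hIt, ENNReal.mul_top (by rw [ne_eq, ENNReal.ofReal_eq_zero, not_le]; exact hC0)]
    exact le_top
  have hb : ∀ i, kmax δ f (ω i) ^ p ≤ ENNReal.ofReal ((kap d * δ ^ d)⁻¹) * I := fun i =>
    kmax_pow_le hδ hp (norm_eq_of_mem_sphere (ω i)) hf
  rcases eq_or_ne I 0 with hI0 | hI0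
  · have : ∀ i, kmax δ f (ω i) ^ p = 0 := by
      intro i
      have := hb i
      rw [hI0, mul_zero] at this
      exact le_antisymm this zero_le
    simp [this]
  set Ir : ℝ := I.toReal with hIr
  have hIr0 : 0 < Ir := ENNReal.toReal_pos hI0 hIt
  have hIe : I = ENNReal.ofReal Ir := (ENNReal.ofReal_toReal hIt).symm
  set v : Fin M → ℝ := fun i => (kmax δ f (ω i) ^ p).toReal / Ir with hv
  have hkt : ∀ i, kmax δ f (ω i) ^ p ≠ ⊤ := fun i =>
    ne_top_of_le_ne_top (ENNReal.mul_ne_top ENNReal.ofReal_ne_top hIt) (hb i)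
  have hvi : ∀ i, kmax δ f (ω i) ^ p = ENNReal.ofReal (v i * Ir) := by
    intro i
    rw [hv]
    simp only
    rw [div_mul_cancel₀ _ hIr0.ne', ENNReal.ofReal_toReal (hkt i)]
  have hv1 : ∀ i, v i ≤ 2 ^ L' * δ ^ p := by
    intro i
    refine le_trans ?_ hL'
    have h1 := hb i
    rw [hvi i, hIe, ← ENNReal.ofReal_mul (by positivity),
      ENNReal.ofReal_le_ofReal_iff (by positivity)] at h1
    exact le_of_mul_le_mul_right h1 hIr0
  have hw : ∀ s : ℝ, 0 < s → s * (Finset.univ.filter fun i => s < v i).card ≤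
      (kap d ^ p)⁻¹ * (δ ^ d)⁻¹ * Q := by
    intro s hs
    set J := Finset.univ.filter fun i => s < v i with hJ
    rcases J.eq_empty_or_nonempty with h0 | h0
    · rw [h0, Finset.card_empty, Nat.cast_zero, mul_zero]
      positivity
    have h1 := weak_fun hδ hδ5 hp hKc hR pos dir hdir G hG hnet ω hgood F O hF hK hc hl hpass hsm
      L hL f hf (fun y hy => by
        have h2 := hsupp y hy
        refine ⟨h2.2, ?_⟩
        have h3 := h2.1
        rw [mem_iUnion₂] at h3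
        obtain ⟨j, hj, h4⟩ := h3
        exact ⟨j, hj, h4⟩) J h0 (ENNReal.ofReal (s * Ir) ^ (1 / p)) (by
        intro i hi
        have h2 := (Finset.mem_filter.1 hi).2
        have h3 : ENNReal.ofReal (s * Ir) < kmax δ f (ω i) ^ p := by
          rw [hvi i]
          exact (ENNReal.ofReal_lt_ofReal_iff (by
            have : 0 < v i := hs.trans h2
            positivity)).2 (mul_lt_mul_of_pos_right h2 hIr0)
        rw [one_div]
        exact (ENNReal.rpow_inv_lt_iff hp0).2 h3)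
    rw [← ENNReal.rpow_mul, one_div, inv_mul_cancel₀ hp0.ne', ENNReal.rpow_one, ← hI, hIe,
      ← ENNReal.ofReal_mul (by positivity), ← ENNReal.ofReal_mul (by positivity),
      ENNReal.ofReal_le_ofReal_iff (by positivity)] at h1
    rw [← hQ] at h1
    have h2 : s * (kap d ^ p * (J.card * δ ^ d)) ≤ Q := by
      refine le_of_mul_le_mul_right ?_ hIr0
      linarith
    have h3 : kap d ^ p ≠ 0 := by positivity
    calc s * (J.card : ℝ) = ((kap d ^ p)⁻¹ * kap d ^ p) * ((δ ^ d)⁻¹ * δ ^ d) *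
          (s * (J.card : ℝ)) := by
          rw [inv_mul_cancel₀ h3, inv_mul_cancel₀ hδd.ne', one_mul, one_mul]
      _ = (kap d ^ p)⁻¹ * (δ ^ d)⁻¹ * (s * (kap d ^ p * (J.card * δ ^ d))) := by ring
      _ ≤ _ := by gcongr
  have hsum := dy_sum v (δ ^ p) (by positivity) L' hv1 _ hw
  calc ENNReal.ofReal (δ ^ d) * ∑ i, kmax δ f (ω i) ^ p
      = ENNReal.ofReal (δ ^ d * ((∑ i, v i) * Ir)) := by
        have hv0 : ∀ i, 0 ≤ v i * Ir := fun i => by
          rw [hv]
          simp only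
          positivity
        rw [ENNReal.ofReal_mul hδd.le, Finset.sum_mul, ENNReal.ofReal_sum_of_nonneg fun i _ => hv0 i]
        congr 1
        exact Finset.sum_congr rfl fun i _ => hvi i
    _ ≤ ENNReal.ofReal ((M * (δ ^ d * δ ^ p) + 2 * L' * ((kap d ^ p)⁻¹ * Q)) * Ir) := by
        apply ENNReal.ofReal_le_ofReal
        rw [← mul_assoc]
        refine mul_le_mul_of_nonneg_right ?_ hIr0.le
        calc δ ^ d * ∑ i, v i ≤ δ ^ d * (M * δ ^ p + 2 * L' * ((kap d ^ p)⁻¹ * (δ ^ d)⁻¹ * Q)) := by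
              gcongr
          _ = M * (δ ^ d * δ ^ p) + 2 * L' * ((kap d ^ p)⁻¹ * (δ ^ d * (δ ^ d)⁻¹) * Q) := by ring
          _ = _ := by rw [mul_inv_cancel₀ hδd.ne', mul_one]
    _ = _ := by rw [ENNReal.ofReal_mul hC0.le, ← hIe]

end Pool.Agent.N248.KG
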