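import Mathlib
import Pool.Agent.N248.KG.F
set_option autoImplicit false

/-! Kakeya in random regions: parameters and probability. -/

namespace Pool.Agent.N248.KG

open MeasureTheory Set Metric
open scoped ENNReal NNReal
open Pool.Agent.N248.KR
open Pool.Agent.N248.KT (FF FF_meas FF_eq dual)

/-- the parameters for a small scale -/
theorem par (d : ℕ) {C1 C2 κ p s B : ℝ} (hC1 : 1 ≤ C1) (hC2 : 1 ≤ C2) (hκ : 0 < κ) (hp : 0 < p)
    (hs : 0 < s) (hB : 0 ≤ B) :
    ∃ C0 : ℝ, 1 ≤ C0 ∧ ∀ δ : ℝ, 0 < δ → δ ≤ 1 / 10 → ∃ (L L' : ℕ) (K c a : ℝ),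
      δ ^ (-((d : ℝ) + 1)) ≤ 2 ^ L ∧ (κ * δ ^ d)⁻¹ ≤ 2 ^ L' * δ ^ p ∧ 1 ≤ K ∧ 0 ≤ a ∧ a + 1 ≤ c ∧
      (C1 / δ) ^ (d + 1) * (C1 / δ) ^ (d + 1) ≤ Real.exp a ∧
      3 * Real.exp (-(K / 12)) * (δ ^ (-((d : ℝ) + 1)) * (C2 / δ) ^ (d + 1)) < 1 ∧
      2 * Real.exp (-(c - a)) ≤ δ ^ B ∧
      (L : ℝ) + 1 ≤ C0 * δ ^ (-s) ∧ (L' : ℝ) ≤ C0 * δ ^ (-s) ∧ K ≤ C0 * δ ^ (-s) ∧
      c ≤ C0 * δ ^ (-s) := by
  have hlog1 : 0 ≤ Real.log C1 := Real.log_nonneg hC1
  have hlog2 : 0 ≤ Real.log C2 := Real.log_nonneg hC2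
  obtain ⟨k0, hk0⟩ := exists_two_pow (κ⁻¹)
  set n : ℝ := (d : ℝ) + 1 with hn
  have hd0 : (0 : ℝ) ≤ d := Nat.cast_nonneg d
  have hn1 : 1 ≤ n := by rw [hn]; linarith
  set C00 : ℝ := 30 + 30 * n + 2 * (n + p) + k0 + 2 * n * Real.log C1 + 12 * n * Real.log C2 + B
    with hC00
  have hk00 : (0 : ℝ) ≤ k0 := Nat.cast_nonneg k0
  have g1 : 0 ≤ n * Real.log C1 := by positivity
  have g2 : 0 ≤ n * Real.log C2 := by positivity
  have hC00' : 1 ≤ C00 := by
    rw [hC00]
    nlinarith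
  refine ⟨C00 * (1 + 1 / s), by
    have : 0 < 1 / s := by positivity
    nlinarith, ?_⟩
  intro δ hδ hδ10
  have hδ1 : δ < 1 := by linarith
  set l : ℝ := -Real.log δ with hl
  have hl0 : 0 < l := by
    have := Real.log_neg hδ hδ1
    rw [hl]; linarith
  have hrp : ∀ x : ℝ, δ ^ (-x) = Real.exp (l * x) := by
    intro x
    rw [Real.rpow_def_of_pos hδ, hl]
    congr 1; ring
  have hrp' : ∀ x : ℝ, δ ^ x = Real.exp (-(l * x)) := by
    intro x
    rw [Real.rpow_def_of_pos hδ, hl]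
    congr 1; ring
  have hLs : 1 + l ≤ (1 + 1 / s) * δ ^ (-s) := by
    have h1 : 1 ≤ δ ^ (-s) := by
      rw [hrp]; exact Real.one_le_exp (by positivity)
    have h2 : l ≤ 1 / s * δ ^ (-s) := by
      rw [hrp, div_mul_eq_mul_div, one_mul, le_div_iff₀ hs]
      have := Real.add_one_le_exp (l * s)
      linarith
    nlinarith
  have hln2 := Real.log_two_gt_d9
  have htwo : ∀ x : ℝ, 0 ≤ x → Real.exp x ≤ 2 ^ ⌈2 * x⌉₊ := by
    intro x hx
    rw [← Real.exp_log (show (0 : ℝ) < 2 ^ ⌈2 * x⌉₊ by positivity), Real.log_pow]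
    refine Real.exp_le_exp.2 ?_
    have h1 : 2 * x ≤ ⌈2 * x⌉₊ := Nat.le_ceil _
    nlinarith
  have hceil : ∀ x : ℝ, 0 ≤ x → (⌈x⌉₊ : ℝ) ≤ x + 1 := fun x hx => (Nat.ceil_lt_add_one hx).le
  set a : ℝ := 2 * n * (Real.log C1 + l) with ha
  have ha0 : 0 ≤ a := by positivity
  refine ⟨⌈2 * (n * l)⌉₊, ⌈2 * ((n + p) * l)⌉₊ + k0, 12 * (2 + 2 * n * l + n * Real.log C2),
    a + 1 + B * l, a, ?_, ?_, ?_, ha0, ?_, ?_, ?_, ?_, ?_, ?_, ?_, ?_⟩
  · rw [hrp, mul_comm l n]
    exact htwo _ (by positivity)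
  · have h1 := htwo ((n + p) * l) (by positivity)
    have h2 : (κ * δ ^ d)⁻¹ = κ⁻¹ * Real.exp (l * d) := by
      rw [mul_inv, ← Real.rpow_natCast, ← Real.rpow_neg hδ.le, hrp]
    rw [h2, pow_add, hrp' p]
    calc κ⁻¹ * Real.exp (l * d) ≤ 2 ^ k0 * Real.exp (l * n) := by
          gcongr
          rw [hn]; linarith
      _ = Real.exp ((n + p) * l) * 2 ^ k0 * Real.exp (-(l * p)) := by
          have : Real.exp ((n + p) * l) = Real.exp (l * n) * Real.exp (l * p) := by
            rw [← Real.exp_add]; congr 1; ring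
          rw [this]
          have h3 : Real.exp (l * p) * Real.exp (-(l * p)) = 1 := by
            rw [← Real.exp_add, add_neg_cancel, Real.exp_zero]
          calc 2 ^ k0 * Real.exp (l * n) =
                2 ^ k0 * Real.exp (l * n) * (Real.exp (l * p) * Real.exp (-(l * p))) := by
                rw [h3, mul_one]
            _ = _ := by ring
      _ ≤ _ := by gcongr
  · have : 0 ≤ n * l := by positivity
    linarith
  · have : 0 ≤ B * l := by positivity
    linarith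
  · have h1 : C1 / δ = Real.exp (Real.log C1 + l) := by
      rw [Real.exp_add, Real.exp_log (by linarith), hl, Real.exp_neg, Real.exp_log hδ]
      rfl
    rw [h1, ← Real.exp_nat_mul, ← Real.exp_add, ha]
    refine Real.exp_le_exp.2 (le_of_eq ?_)
    push_cast
    rw [hn]
    ring
  · have h1 : C2 / δ = Real.exp (Real.log C2 + l) := by
      rw [Real.exp_add, Real.exp_log (by linarith), hl, Real.exp_neg, Real.exp_log hδ]
      rfl
    rw [h1, ← Real.exp_nat_mul, hrp, ← Real.exp_add, mul_assoc, ← Real.exp_add]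
    have h2 : -(12 * (2 + 2 * n * l + n * Real.log C2) / 12) +
        (l * n + ((d + 1 : ℕ) : ℝ) * (Real.log C2 + l)) = -2 := by
      push_cast
      rw [← hn]
      ring
    rw [h2]
    have h3 : Real.exp (-1) < 0.3678794412 := Real.exp_neg_one_lt_d9
    have h4 : Real.exp (-2) = Real.exp (-1) * Real.exp (-1) := by
      rw [← Real.exp_add]; norm_num
    rw [h4]
    have h5 := Real.exp_pos (-1)
    nlinarith
  · have h1 : a + 1 + B * l - a = 1 + B * l := by ring
    rw [h1, neg_add, Real.exp_add, hrp' B]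
    have h3 : Real.exp (-1) < 0.3678794412 := Real.exp_neg_one_lt_d9
    have h4 := Real.exp_pos (-(B * l))
    rw [show l * B = B * l by ring]
    nlinarith
  all_goals
    refine le_trans ?_ (le_of_eq (mul_assoc C00 (1 + 1 / s) (δ ^ (-s))).symm)
    refine le_trans ?_ (mul_le_mul_of_nonneg_left hLs (by linarith))
    have e1 : 0 ≤ n * Real.log C1 * l := by positivity
    have e2 : 0 ≤ n * Real.log C2 * l := by positivity
    have e3 : 0 ≤ k0 * l := by positivity
    have e4 : 0 ≤ n * l := by positivity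
    have e5 : 0 ≤ B * l := by positivity
    have e6 : 0 ≤ p * l := by positivity
    rw [hC00]
  · have := hceil (2 * (n * l)) (by positivity)
    nlinarith
  · have := hceil (2 * ((n + p) * l)) (by positivity)
    push_cast
    nlinarith
  · nlinarith
  · rw [ha]
    nlinarith

theorem cells_fin (n : ℕ) (R : ℝ) (hR : 0 ≤ R) (δ : ℝ) (hδ : 0 < δ) (hδ1 : δ ≤ 1) :
    ∃ F : Finset (Fin n → ℤ), (F.card : ℝ) ≤ ((2 * R + 5) / δ) ^ n ∧
      ∀ x ∈ closedBall (0 : E n) R, ∀ j, x ∈ qc δ j → j ∈ F := by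
  classical
  set m : ℕ := ⌈(R + 1) / δ⌉₊ with hm
  have hm1 : (R + 1) / δ ≤ m := Nat.le_ceil _
  have hm2 : (m : ℝ) ≤ (R + 1) / δ + 1 := (Nat.ceil_lt_add_one (by positivity)).le
  refine ⟨Fintype.piFinset fun _ => Finset.Icc (-(m : ℤ)) m, ?_, ?_⟩
  · rw [Fintype.card_piFinset]
    have h6 : ∀ i : Fin n, (Finset.Icc (-(m : ℤ)) m).card = 2 * m + 1 := by
      intro i
      rw [Int.card_Icc]
      omega
    rw [Finset.prod_congr rfl fun i _ => h6 i, Finset.prod_const, Finset.card_univ,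
      Fintype.card_fin]
    push_cast
    refine pow_le_pow_left₀ (by positivity) ?_ n
    have h1 : (1 : ℝ) ≤ 1 / δ := by rw [le_div_iff₀ hδ]; linarith
    have h2 : (2 * R + 5) / δ = 2 * ((R + 1) / δ) + 3 * (1 / δ) := by ring
    rw [h2]
    linarith
  · intro x hx j hj
    rw [mem_closedBall_zero_iff] at hx
    rw [Fintype.mem_piFinset]
    intro i
    have h1 : |x i| ≤ R := by
      have := (PiLp.norm_apply_le x i).trans hx
      rwa [Real.norm_eq_abs] at this
    have h2 := abs_le.1 h1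
    have h3 := hj i
    have h4 : R + 1 ≤ m * δ := by rwa [div_le_iff₀ hδ] at hm1
    rw [Finset.mem_Icc]
    constructor
    · by_contra hcon
      push Not at hcon
      have h5 : (j i : ℝ) + 1 ≤ -(m : ℝ) := by exact_mod_cast hcon
      have h6 : δ * ((j i : ℝ) + 1) ≤ δ * (-(m : ℝ)) := mul_le_mul_of_nonneg_left h5 hδ.le
      linarith
    · by_contra hcon
      push Not at hcon
      have h5 : (m : ℝ) + 1 ≤ j i := by exact_mod_cast hcon
      have h6 : δ * ((m : ℝ) + 1) ≤ δ * j i := mul_le_mul_of_nonneg_left h5 hδ.le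
      linarith

variable {d : ℕ}

theorem add_rpow_le' {u w r : ℝ} (hu : 0 ≤ u) (hw : 0 ≤ w) (hr : 0 ≤ r) :
    (u + w) ^ r ≤ 2 ^ r * (u ^ r + w ^ r) := by
  have h1 : u + w ≤ 2 * max u w := by
    have := le_max_left u w
    have := le_max_right u w
    linarith
  calc (u + w) ^ r ≤ (2 * max u w) ^ r := by gcongr
    _ = 2 ^ r * (max u w) ^ r := Real.mul_rpow (by norm_num) (le_max_of_le_left hu)
    _ ≤ _ := by
        gcongr
        rcases max_choice u w with h | h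
        · rw [h]
          have : 0 ≤ w ^ r := by positivity
          linarith
        · rw [h]
          have : 0 ≤ u ^ r := by positivity
          linarith

/-- the constant -/
theorem RC_le (d M : ℕ) {g δ p Kc K c lam : ℝ} (hδ : 0 < δ) (hp : 1 < p) (hg : 0 ≤ g)
    (hKc : 0 ≤ Kc) (hK : 1 ≤ K) (hc : 1 ≤ c) (hl : 0 ≤ lam) (L : ℕ) :
    RC d M g δ p Kc K c lam L ^ (p - 1) ≤
      (2 * ((2 ^ (p / (p - 1)) * 3 + Real.exp 2 * (8 ^ (p / (p - 1)) * (g ^ (p / (p - 1)) *
      (2 ^ d) ^ (p / (p - 1))))) * ((L + 1) * c * K))) ^ (p - 1) *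
        (lam ^ (p - 1) * Kc + δ ^ (p - 1) * M) := by
  have hp1 : 0 < p - 1 := by linarith
  set q : ℝ := p / (p - 1) with hq
  set g' : ℝ := Real.exp 2 * (8 ^ q * (g ^ q * (2 ^ d) ^ q)) with hg'
  have hg'0 : 0 ≤ g' := by positivity
  set u : ℝ := δ * (M : ℝ) ^ (1 / (p - 1)) with hu
  set w : ℝ := lam * Kc ^ (1 / (p - 1)) with hw
  have hu0 : 0 ≤ u := by positivity
  have hw0 : 0 ≤ w := by positivity
  have h8 : 1 / (p - 1) * (p - 1) = 1 := by field_simp
  have hup : u ^ (p - 1) = δ ^ (p - 1) * M := by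
    rw [hu, Real.mul_rpow hδ.le (by positivity), ← Real.rpow_mul (by positivity), h8,
      Real.rpow_one]
  have hwp : w ^ (p - 1) = lam ^ (p - 1) * Kc := by
    rw [hw, Real.mul_rpow hl (by positivity), ← Real.rpow_mul (by positivity), h8,
      Real.rpow_one]
  have hcK : 1 ≤ c * K := by nlinarith
  have h1 : RC d M g δ p Kc K c lam L ≤ ((2 ^ q * 3 + g') * ((L + 1) * c * K)) * (u + w) := by
    have e1 : RC d M g δ p Kc K c lam L = (L + 1) * (2 ^ q * (3 * c * K) * u + g' * w) := by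
      unfold RC
      rw [← hq, hg', hw, hu]
      ring
    rw [e1]
    have e2 : g' * w ≤ g' * (c * K) * w := by
      refine mul_le_mul_of_nonneg_right ?_ hw0
      nlinarith
    have e3 : 0 ≤ 2 ^ q * (3 * c * K) * w := by positivity
    have e4 : 0 ≤ g' * (c * K) * u := by positivity
    calc (L + 1) * (2 ^ q * (3 * c * K) * u + g' * w)
        ≤ (L + 1) * ((2 ^ q * 3 + g') * (c * K) * (u + w)) := by
          gcongr
          nlinarith
      _ = _ := by ring
  have hRC0 : 0 ≤ RC d M g δ p Kc K c lam L := by unfold RC; positivity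
  calc RC d M g δ p Kc K c lam L ^ (p - 1)
      ≤ (((2 ^ q * 3 + g') * ((L + 1) * c * K)) * (u + w)) ^ (p - 1) := by gcongr
    _ = ((2 ^ q * 3 + g') * ((L + 1) * c * K)) ^ (p - 1) * (u + w) ^ (p - 1) :=
        Real.mul_rpow (by positivity) (by positivity)
    _ ≤ ((2 ^ q * 3 + g') * ((L + 1) * c * K)) ^ (p - 1) *
          (2 ^ (p - 1) * (u ^ (p - 1) + w ^ (p - 1))) := by
        gcongr
        exact add_rpow_le' hu0 hw0 hp1.le
    _ = _ := by
        rw [hup, hwp, Real.mul_rpow (x := 2) (by norm_num) (by positivity)]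
        ring

end Pool.Agent.N248.KG
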