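import Mathlib
import Pool.Agent.N248.KG.A
import Pool.Agent.H789R2.FR.Caps
set_option autoImplicit false

/-! Kakeya in random regions: sums over a net of directions and integrals over the sphere. -/

namespace Pool.Agent.N248.KG

open MeasureTheory Set Metric
open scoped ENNReal NNReal
open Pool.Agent.N248.KR

/-- open caps -/
def cp {d : ℕ} (e : Dir (d + 1)) (r : ℝ) : Set (Dir (d + 1)) :=
  {θ | ‖(e : E (d + 1)) - (θ : E (d + 1))‖ < r}

theorem cp_meas {d : ℕ} (e : Dir (d + 1)) (r : ℝ) : MeasurableSet (cp e r) := by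
  have h2 : Continuous fun θ : Dir (d + 1) => ‖(e : E (d + 1)) - (θ : E (d + 1))‖ := by fun_prop
  exact (isOpen_lt h2 continuous_const).measurableSet

theorem capB (d : ℕ) (hd : 1 ≤ d) : ∃ c C : ℝ, 0 < c ∧ 0 < C ∧ ∀ r : ℝ, 0 < r → r ≤ 1 →
    ∀ e : Dir (d + 1), ENNReal.ofReal (c * r ^ d) ≤ Pu d (cp e r) ∧
      Pu d (cp e r) ≤ ENNReal.ofReal (C * r ^ d) := by
  obtain ⟨c, hc0, hc⟩ := Pool.Agent.H789R2.FR.cap_lower (d + 1) (by omega)
  obtain ⟨C, hC0, hC⟩ := Pool.Agent.H789R2.FR.cap_upper (d + 1) (by omega)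
  set s : ℝ := ((sg d univ)⁻¹).toReal with hs
  have hse : (sg d univ)⁻¹ = ENNReal.ofReal s := by
    rw [hs, ENNReal.ofReal_toReal (ENNReal.inv_ne_top.2 (sg_ne d).1)]
  have hs0 : 0 < s := ENNReal.toReal_pos (ENNReal.inv_ne_zero.2 (sg_ne d).2)
    (ENNReal.inv_ne_top.2 (sg_ne d).1)
  refine ⟨s * c, s * C, by positivity, by positivity, ?_⟩
  intro r hr hr1 e
  have he : ‖(e : E (d + 1))‖ = 1 := norm_eq_of_mem_sphere e
  have hmem : MeasurableSet {w : E (d + 1) | ‖(e : E (d + 1)) - w‖ < r} :=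
    (isOpen_lt (by fun_prop) continuous_const).measurableSet
  have h1 : (Pool.Agent.H789R2.FR.sg (d + 1)).real {w | ‖(e : E (d + 1)) - w‖ < r} =
      (sg d (cp e r)).toReal := by
    unfold Measure.real Pool.Agent.H789R2.FR.sg
    rw [Measure.map_apply measurable_subtype_coe hmem]
    rfl
  have h2 := hc r hr hr1 e he
  have h3 := hC r hr e he
  rw [h1, Nat.add_sub_cancel] at h2 h3
  have h4 : sg d (cp e r) = ENNReal.ofReal (sg d (cp e r)).toReal :=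
    (ENNReal.ofReal_toReal (measure_ne_top _ _)).symm
  rw [Measure.smul_apply, smul_eq_mul, hse, h4, ← ENNReal.ofReal_mul hs0.le]
  constructor
  · apply ENNReal.ofReal_le_ofReal
    rw [mul_assoc]
    exact mul_le_mul_of_nonneg_left h2 hs0.le
  · apply ENNReal.ofReal_le_ofReal
    rw [mul_assoc]
    exact mul_le_mul_of_nonneg_left h3 hs0.le

/-- nets of the sphere -/
theorem sph_net (d : ℕ) (hd : 1 ≤ d) : ∃ C : ℝ, 1 ≤ C ∧ ∀ δ : ℝ, 0 < δ → δ < 1 →
    ∃ (M : ℕ) (ω : Fin M → Dir (d + 1)), (M : ℝ) ≤ C * (δ ^ d)⁻¹ ∧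
      (∀ θ : Dir (d + 1), ∃ i, ‖(ω i : E (d + 1)) - (θ : E (d + 1))‖ ≤ δ) ∧
      ∀ i j, i ≠ j → δ / 2 < ‖(ω i : E (d + 1)) - (ω j : E (d + 1))‖ := by
  classical
  obtain ⟨c, C, hc, hC, hcap⟩ := capB d hd
  obtain ⟨C1, hC1, hnet⟩ := net (d + 1) 1 le_rfl
  refine ⟨4 ^ d / c + 1, by
    have : 0 < 4 ^ d / c := by positivity
    linarith, ?_⟩
  intro δ hδ hδ1
  obtain ⟨N, hN1, -, hN3⟩ := hnet {x | ‖x‖ = 1} (fun x hx => le_of_eq hx) (δ / 2) (by linarith)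
    (by linarith)
  set Sep : Finset (Finset (E (d + 1))) := N.powerset.filter fun F =>
    ∀ i ∈ F, ∀ j ∈ F, i ≠ j → δ / 2 < ‖i - j‖ with hSep
  have hne : Sep.Nonempty := ⟨∅, by
    rw [hSep, Finset.mem_filter]
    exact ⟨Finset.empty_mem_powerset _, by simp⟩⟩
  obtain ⟨F, hF, hmax⟩ := Finset.exists_max_image Sep Finset.card hne
  rw [hSep, Finset.mem_filter, Finset.mem_powerset] at hF
  have hnear : ∀ j ∈ N, ∃ i ∈ F, ‖i - j‖ ≤ δ / 2 := by
    intro j hj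
    by_contra hcon
    push Not at hcon
    have hjF : j ∉ F := by
      intro h
      have := hcon j h
      rw [sub_self, norm_zero] at this
      linarith
    have h1 : insert j F ∈ Sep := by
      rw [hSep, Finset.mem_filter, Finset.mem_powerset]
      refine ⟨Finset.insert_subset hj hF.1, ?_⟩
      intro a ha b hb hab
      rcases Finset.mem_insert.1 ha with ha1 | ha1
      · rcases Finset.mem_insert.1 hb with hb1 | hb1
        · exact absurd (ha1.trans hb1.symm) hab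
        · rw [ha1, norm_sub_rev]; exact hcon b hb1
      · rcases Finset.mem_insert.1 hb with hb1 | hb1
        · rw [hb1]; exact hcon a ha1
        · exact hF.2 a ha1 b hb1 hab
    have h2 := hmax _ h1
    rw [Finset.card_insert_of_notMem hjF] at h2
    omega
  have hsph : ∀ x ∈ F, x ∈ sphere (0 : E (d + 1)) 1 := fun x hx => by
    rw [mem_sphere_zero_iff_norm]
    exact hN1 x (hF.1 hx)
  set ω : Fin F.card → Dir (d + 1) := fun i => ⟨(F.equivFin.symm i : E (d + 1)),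
    hsph _ (F.equivFin.symm i).2⟩ with hω
  have hωe : ∀ i, (ω i : E (d + 1)) = (F.equivFin.symm i : E (d + 1)) := fun i => rfl
  have hsep : ∀ i j, i ≠ j → δ / 2 < ‖(ω i : E (d + 1)) - (ω j : E (d + 1))‖ := by
    intro i j hij
    rw [hωe, hωe]
    refine hF.2 _ (F.equivFin.symm i).2 _ (F.equivFin.symm j).2 fun h => hij ?_
    exact F.equivFin.symm.injective (Subtype.ext h)
  refine ⟨F.card, ω, ?_, ?_, hsep⟩
  · have hdis : Pairwise (Function.onFun Disjoint fun i => cp (ω i) (δ / 4)) := by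
      intro i j hij
      show Disjoint (cp (ω i) (δ / 4)) (cp (ω j) (δ / 4))
      rw [Set.disjoint_left]
      intro θ h1 h2
      have h3 := hsep i j hij
      have h4 : ‖(ω i : E (d + 1)) - (ω j : E (d + 1))‖ ≤
          ‖(ω i : E (d + 1)) - (θ : E (d + 1))‖ + ‖(ω j : E (d + 1)) - (θ : E (d + 1))‖ := by
        have : (ω i : E (d + 1)) - (ω j : E (d + 1)) =
            ((ω i : E (d + 1)) - (θ : E (d + 1))) - ((ω j : E (d + 1)) - (θ : E (d + 1))) := by abel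
        rw [this]
        exact norm_sub_le _ _
      have h5 : ‖(ω i : E (d + 1)) - (θ : E (d + 1))‖ < δ / 4 := h1
      have h6 : ‖(ω j : E (d + 1)) - (θ : E (d + 1))‖ < δ / 4 := h2
      linarith
    have h1 : (F.card : ℝ≥0∞) * ENNReal.ofReal (c * (δ / 4) ^ d) ≤ 1 := by
      calc (F.card : ℝ≥0∞) * ENNReal.ofReal (c * (δ / 4) ^ d)
          = ∑ _i : Fin F.card, ENNReal.ofReal (c * (δ / 4) ^ d) := by
            rw [Finset.sum_const, Finset.card_univ, Fintype.card_fin, nsmul_eq_mul]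
        _ ≤ ∑ i : Fin F.card, Pu d (cp (ω i) (δ / 4)) :=
            Finset.sum_le_sum fun i _ => (hcap (δ / 4) (by linarith) (by linarith) (ω i)).1
        _ = Pu d (⋃ i, cp (ω i) (δ / 4)) := by
            rw [measure_iUnion hdis fun i => cp_meas _ _, tsum_fintype]
        _ ≤ 1 := prob_le_one
    rw [← ENNReal.ofReal_natCast, ← ENNReal.ofReal_mul (Nat.cast_nonneg _), ← ENNReal.ofReal_one,
      ENNReal.ofReal_le_ofReal_iff zero_le_one] at h1
    have hδd : 0 < δ ^ d := by positivity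
    have h2 : (F.card : ℝ) * δ ^ d ≤ 4 ^ d / c := by
      rw [le_div_iff₀ hc]
      rw [div_pow, mul_div_assoc', mul_div_assoc', div_le_one (by positivity)] at h1
      linarith
    rw [← div_eq_mul_inv, le_div_iff₀ hδd]
    linarith
  · intro θ
    obtain ⟨y, hy, hy2⟩ := hN3 (θ : E (d + 1)) (norm_eq_of_mem_sphere θ)
    obtain ⟨x, hx, hx2⟩ := hnear y hy
    refine ⟨F.equivFin ⟨x, hx⟩, ?_⟩
    rw [hωe, Equiv.symm_apply_apply]
    have : (x : E (d + 1)) - θ = (x - y) - ((θ : E (d + 1)) - y) := by abel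
    rw [this]
    exact (norm_sub_le _ _).trans (by linarith)

/-- sums over a separated family of directions -/
theorem sum_le_int (d : ℕ) (hd : 1 ≤ d) {p : ℝ} (hp : 0 < p) : ∃ C : ℝ, 1 ≤ C ∧ ∀ δ : ℝ,
    0 < δ → δ ≤ 1 / 5 → ∀ (M : ℕ) (ω : Fin M → Dir (d + 1)),
      (∀ i j, i ≠ j → δ / 2 < ‖(ω i : E (d + 1)) - (ω j : E (d + 1))‖) →
      ∀ f : E (d + 1) → ℝ≥0∞, ENNReal.ofReal (δ ^ d) * ∑ i, kmax δ f (ω i) ^ p ≤
        ENNReal.ofReal C * ∫⁻ θ : Dir (d + 1), kmax δ f θ ^ p ∂(Pu d) := by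
  obtain ⟨c, C, hc, hC, hcap⟩ := capB d hd
  obtain ⟨C1, hC1, hnear⟩ := near d
  refine ⟨4 ^ d / c * C1 ^ p + 1, by
    have : 0 ≤ 4 ^ d / c * C1 ^ p := by positivity
    linarith, ?_⟩
  intro δ hδ hδ5 M ω hsep f
  have hdis : Pairwise (Function.onFun Disjoint fun i => cp (ω i) (δ / 4)) := by
    intro i j hij
    show Disjoint (cp (ω i) (δ / 4)) (cp (ω j) (δ / 4))
    rw [Set.disjoint_left]
    intro θ h1 h2
    have h3 := hsep i j hij
    have h4 : ‖(ω i : E (d + 1)) - (ω j : E (d + 1))‖ ≤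
        ‖(ω i : E (d + 1)) - (θ : E (d + 1))‖ + ‖(ω j : E (d + 1)) - (θ : E (d + 1))‖ := by
      have : (ω i : E (d + 1)) - (ω j : E (d + 1)) =
          ((ω i : E (d + 1)) - (θ : E (d + 1))) - ((ω j : E (d + 1)) - (θ : E (d + 1))) := by abel
      rw [this]
      exact norm_sub_le _ _
    have h5 : ‖(ω i : E (d + 1)) - (θ : E (d + 1))‖ < δ / 4 := h1
    have h6 : ‖(ω j : E (d + 1)) - (θ : E (d + 1))‖ < δ / 4 := h2
    linarith
  have h1 : ∀ i, ENNReal.ofReal (c * (δ / 4) ^ d) * kmax δ f (ω i) ^ p ≤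
      ENNReal.ofReal (C1 ^ p) * ∫⁻ θ in cp (ω i) (δ / 4), kmax δ f θ ^ p ∂(Pu d) := by
    intro i
    calc ENNReal.ofReal (c * (δ / 4) ^ d) * kmax δ f (ω i) ^ p
        ≤ Pu d (cp (ω i) (δ / 4)) * kmax δ f (ω i) ^ p := by
          gcongr
          exact (hcap (δ / 4) (by linarith) (by linarith) (ω i)).1
      _ = ∫⁻ _θ in cp (ω i) (δ / 4), kmax δ f (ω i) ^ p ∂(Pu d) := by
          rw [setLIntegral_const, mul_comm]
      _ ≤ ∫⁻ θ in cp (ω i) (δ / 4), ENNReal.ofReal (C1 ^ p) * kmax δ f θ ^ p ∂(Pu d) := by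
          refine setLIntegral_mono' (cp_meas _ _) fun θ hθ => ?_
          have h2 : ‖(ω i : E (d + 1)) - (θ : E (d + 1))‖ < δ / 4 := hθ
          have h3 := hnear δ hδ hδ5 (ω i) θ (norm_eq_of_mem_sphere _) (norm_eq_of_mem_sphere _)
            (by linarith) f
          calc kmax δ f (ω i) ^ p ≤ (ENNReal.ofReal C1 * kmax δ f θ) ^ p := by gcongr
            _ = _ := by
                rw [ENNReal.mul_rpow_of_nonneg _ _ hp.le,
                  ENNReal.ofReal_rpow_of_nonneg (by linarith) hp.le]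
      _ = _ := lintegral_const_mul' _ _ ENNReal.ofReal_ne_top
  have h4c : 0 < 4 ^ d / c := by positivity
  calc ENNReal.ofReal (δ ^ d) * ∑ i, kmax δ f (ω i) ^ p
      = ENNReal.ofReal (4 ^ d / c) *
        ∑ i, ENNReal.ofReal (c * (δ / 4) ^ d) * kmax δ f (ω i) ^ p := by
        rw [← Finset.mul_sum, ← mul_assoc, ← ENNReal.ofReal_mul h4c.le]
        congr 2
        rw [div_pow]
        field_simp
    _ ≤ ENNReal.ofReal (4 ^ d / c) * ∑ i, ENNReal.ofReal (C1 ^ p) *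
        ∫⁻ θ in cp (ω i) (δ / 4), kmax δ f θ ^ p ∂(Pu d) :=
        mul_le_mul' le_rfl (Finset.sum_le_sum fun i _ => h1 i)
    _ = ENNReal.ofReal (4 ^ d / c * C1 ^ p) *
        ∫⁻ θ in ⋃ i, cp (ω i) (δ / 4), kmax δ f θ ^ p ∂(Pu d) := by
        rw [← Finset.mul_sum, ← mul_assoc, ← ENNReal.ofReal_mul h4c.le,
          lintegral_iUnion (fun i => cp_meas _ _) hdis, tsum_fintype]
    _ ≤ _ := by
        gcongr
        · linarith
        · exact Measure.restrict_le_self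

/-- integrals over the sphere -/
theorem int_le_sum (d : ℕ) (hd : 1 ≤ d) {p : ℝ} (hp : 0 < p) : ∃ C : ℝ, 1 ≤ C ∧ ∀ δ : ℝ,
    0 < δ → δ ≤ 1 / 5 → ∀ (M : ℕ) (ω : Fin M → Dir (d + 1)),
      (∀ θ : Dir (d + 1), ∃ i, ‖(ω i : E (d + 1)) - (θ : E (d + 1))‖ ≤ δ) →
      ∀ f : E (d + 1) → ℝ≥0∞, ∫⁻ θ : Dir (d + 1), kmax δ f θ ^ p ∂(Pu d) ≤
        ENNReal.ofReal C * (ENNReal.ofReal (δ ^ d) * ∑ i, kmax δ f (ω i) ^ p) := by
  obtain ⟨c, C, hc, hC, hcap⟩ := capB d hd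
  obtain ⟨C1, hC1, hnear⟩ := near d
  refine ⟨C * 2 ^ d * C1 ^ p + 1, by
    have : 0 ≤ C * 2 ^ d * C1 ^ p := by positivity
    linarith, ?_⟩
  intro δ hδ hδ5 M ω hcov f
  have hm : ∀ i, MeasurableSet {θ : Dir (d + 1) | ‖(ω i : E (d + 1)) - (θ : E (d + 1))‖ ≤ δ} :=
    fun i => (isClosed_le (by fun_prop) continuous_const).measurableSet
  have huniv : (univ : Set (Dir (d + 1))) ⊆
      ⋃ i, {θ : Dir (d + 1) | ‖(ω i : E (d + 1)) - (θ : E (d + 1))‖ ≤ δ} := by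
    intro θ _
    rw [mem_iUnion]
    exact hcov θ
  have h1 : ∀ i, ∫⁻ θ in {θ : Dir (d + 1) | ‖(ω i : E (d + 1)) - (θ : E (d + 1))‖ ≤ δ},
      kmax δ f θ ^ p ∂(Pu d) ≤ ENNReal.ofReal (C * (2 * δ) ^ d) *
        (ENNReal.ofReal (C1 ^ p) * kmax δ f (ω i) ^ p) := by
    intro i
    calc ∫⁻ θ in {θ : Dir (d + 1) | ‖(ω i : E (d + 1)) - (θ : E (d + 1))‖ ≤ δ},
          kmax δ f θ ^ p ∂(Pu d)
        ≤ ∫⁻ _θ in {θ : Dir (d + 1) | ‖(ω i : E (d + 1)) - (θ : E (d + 1))‖ ≤ δ},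
          (ENNReal.ofReal (C1 ^ p) * kmax δ f (ω i) ^ p) ∂(Pu d) := by
          refine setLIntegral_mono' (hm i) fun θ hθ => ?_
          have h2 : ‖(ω i : E (d + 1)) - (θ : E (d + 1))‖ ≤ δ := hθ
          have h3 := hnear δ hδ hδ5 θ (ω i) (norm_eq_of_mem_sphere _) (norm_eq_of_mem_sphere _)
            (by rw [norm_sub_rev]; exact h2) f
          calc kmax δ f θ ^ p ≤ (ENNReal.ofReal C1 * kmax δ f (ω i)) ^ p := by gcongr
            _ = _ := by
                rw [ENNReal.mul_rpow_of_nonneg _ _ hp.le,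
                  ENNReal.ofReal_rpow_of_nonneg (by linarith) hp.le]
      _ = (ENNReal.ofReal (C1 ^ p) * kmax δ f (ω i) ^ p) *
          Pu d {θ : Dir (d + 1) | ‖(ω i : E (d + 1)) - (θ : E (d + 1))‖ ≤ δ} := setLIntegral_const _ _
      _ ≤ (ENNReal.ofReal (C1 ^ p) * kmax δ f (ω i) ^ p) * ENNReal.ofReal (C * (2 * δ) ^ d) := by
          gcongr
          refine (measure_mono ?_).trans (hcap (2 * δ) (by linarith) (by linarith) (ω i)).2
          intro θ hθ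
          have h2 : ‖(ω i : E (d + 1)) - (θ : E (d + 1))‖ ≤ δ := hθ
          show ‖(ω i : E (d + 1)) - (θ : E (d + 1))‖ < 2 * δ
          linarith
      _ = _ := mul_comm _ _
  calc ∫⁻ θ : Dir (d + 1), kmax δ f θ ^ p ∂(Pu d)
      = ∫⁻ θ in univ, kmax δ f θ ^ p ∂(Pu d) := by rw [Measure.restrict_univ]
    _ ≤ ∫⁻ θ in ⋃ i, {θ : Dir (d + 1) | ‖(ω i : E (d + 1)) - (θ : E (d + 1))‖ ≤ δ},
        kmax δ f θ ^ p ∂(Pu d) := lintegral_mono_set huniv
    _ ≤ ∑' i, ∫⁻ θ in {θ : Dir (d + 1) | ‖(ω i : E (d + 1)) - (θ : E (d + 1))‖ ≤ δ},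
        kmax δ f θ ^ p ∂(Pu d) := lintegral_iUnion_le _ _
    _ = ∑ i, ∫⁻ θ in {θ : Dir (d + 1) | ‖(ω i : E (d + 1)) - (θ : E (d + 1))‖ ≤ δ},
        kmax δ f θ ^ p ∂(Pu d) := tsum_fintype _
    _ ≤ ∑ i, ENNReal.ofReal (C * (2 * δ) ^ d) *
        (ENNReal.ofReal (C1 ^ p) * kmax δ f (ω i) ^ p) := Finset.sum_le_sum fun i _ => h1 i
    _ = ENNReal.ofReal (C * 2 ^ d * C1 ^ p) *
        (ENNReal.ofReal (δ ^ d) * ∑ i, kmax δ f (ω i) ^ p) := by
        rw [← Finset.mul_sum, ← Finset.mul_sum, ← mul_assoc, ← mul_assoc,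
          ← ENNReal.ofReal_mul (by positivity), ← ENNReal.ofReal_mul (by positivity)]
        congr 2
        rw [mul_pow]; ring
    _ ≤ _ := by
        gcongr
        linarith

end Pool.Agent.N248.KG
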