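import Mathlib
import Pool.Agent.N248.KG.G
import Pool.Agent.N248.KG.H
set_option autoImplicit false

/-! Kakeya in random regions: the random event, and the maximal function on the sphere. -/

namespace Pool.Agent.N248.KG

open MeasureTheory Set Metric
open scoped ENNReal NNReal
open Pool.Agent.N248.KR

variable {d : ℕ}

/-- the region of the chosen cells -/
def reg {n : ℕ} (δ : ℝ) (O : Set (Fin n → ℤ)) : Set (E n) := ⋃ j ∈ O, qc δ j

theorem reg_meas {n : ℕ} (δ : ℝ) (O : Set (Fin n → ℤ)) : MeasurableSet (reg δ O) :=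
  MeasurableSet.biUnion (Set.to_countable _) fun j _ => qc_meas δ j

/-- **all families of directions at once** -/
theorem cells_prob (d : ℕ) {p s B R : ℝ} (hp : 1 < p) (hs : 0 < s) (hB : 0 ≤ B) (hR : 0 ≤ R) :
    ∃ C : ℝ, 1 ≤ C ∧ ∀ δ : ℝ, 0 < δ → δ < 1 → ∀ {Ω : Type} [MeasurableSpace Ω] (P : Measure Ω)
      [IsProbabilityMeasure P] (A : (Fin (d + 1) → ℤ) → Set Ω),
      (∀ T : Finset (Fin (d + 1) → ℤ), P (⋂ j ∈ T, A j) ≤ ∏ j ∈ T, P (A j)) →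
      ∀ lam : ℝ, 0 ≤ lam → (∀ j, P (A j) ≤ ENNReal.ofReal lam) →
      P {x | ¬ ∀ (M : ℕ) (ω : Fin M → Dir (d + 1)) (Kc : ℝ), (M : ℝ) ≤ δ ^ (-((d : ℝ) + 1)) →
        0 ≤ Kc → Good p Kc δ ω → GoodOn p (C * δ ^ (-s) * (lam ^ (p - 1) * Kc + δ ^ (p - 1) * M)) δ
          (reg δ {j | x ∈ A j} ∩ closedBall (0 : E (d + 1)) R) ω} ≤ ENNReal.ofReal (δ ^ B) := by
  classical
  have hκ := kap_pos d
  have hp1 : 0 < p - 1 := by linarith
  have hd0 : (0 : ℝ) ≤ d := Nat.cast_nonneg d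
  obtain ⟨C1, hC1, hnet⟩ := net (d + 1) (R + 1) (by linarith)
  obtain ⟨G, hG⟩ := cov (d + 1) ((d + 1 : ℕ) + 6) ((d + 1 : ℕ) + 6) (by push_cast; linarith)
  set s' : ℝ := s / (3 * p - 2) with hs'
  have h3p : 0 < 3 * p - 2 := by linarith
  have hs'0 : 0 < s' := by positivity
  obtain ⟨C0, hC0, hpar⟩ := par d (C1 := C1) (C2 := 2 * R + 5) (κ := kap d) (p := p) (s := s')
    (B := B) hC1 (by linarith) hκ (by linarith) hs'0 hB
  set D0 : ℝ := 2 ^ (p / (p - 1)) * 3 + Real.exp 2 * (8 ^ (p / (p - 1)) *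
    ((G.card : ℝ) ^ (p / (p - 1)) * (2 ^ d) ^ (p / (p - 1)))) with hD0
  have hD00 : 0 ≤ D0 := by positivity
  set Cb : ℝ := 1 + 2 * C0 * ((kap d ^ p)⁻¹ * (2 * (D0 * C0 ^ 3)) ^ (p - 1)) with hCb
  set Ct : ℝ := (kap d)⁻¹ * 10 ^ (p - 1) with hCt
  have hCb1 : 1 ≤ Cb := by
    have : 0 ≤ 2 * C0 * ((kap d ^ p)⁻¹ * (2 * (D0 * C0 ^ 3)) ^ (p - 1)) := by positivity
    rw [hCb]; linarith
  have hCt0 : 0 ≤ Ct := by positivity
  refine ⟨Cb + Ct, by linarith, ?_⟩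
  intro δ hδ hδ1 Ω _ P _ A hA lam hl hpA
  have hδs : 1 ≤ δ ^ (-s) :=
    Real.one_le_rpow_of_pos_of_le_one_of_nonpos hδ hδ1.le (by linarith)
  rcases lt_or_ge (1 / 10) δ with h10 | h10
  · have hemp : {x | ¬ ∀ (M : ℕ) (ω : Fin M → Dir (d + 1)) (Kc : ℝ),
        (M : ℝ) ≤ δ ^ (-((d : ℝ) + 1)) → 0 ≤ Kc → Good p Kc δ ω →
        GoodOn p ((Cb + Ct) * δ ^ (-s) * (lam ^ (p - 1) * Kc + δ ^ (p - 1) * M)) δ
          (reg δ {j | x ∈ A j} ∩ closedBall (0 : E (d + 1)) R) ω} = ∅ := by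
      rw [Set.eq_empty_iff_forall_notMem]
      intro x hx
      refine hx fun M ω Kc _ hKc _ => (goodOn_triv hδ hp _ ω).mono ?_
      have h1 : 1 ≤ (10 : ℝ) ^ (p - 1) * δ ^ (p - 1) := by
        rw [← Real.mul_rpow (by norm_num) hδ.le]
        exact Real.one_le_rpow (by linarith) hp1.le
      have h2 : (M : ℝ) * (kap d)⁻¹ ≤ Ct * (δ ^ (p - 1) * M) := by
        calc (M : ℝ) * (kap d)⁻¹ = M * (kap d)⁻¹ * 1 := by ring
          _ ≤ M * (kap d)⁻¹ * ((10 : ℝ) ^ (p - 1) * δ ^ (p - 1)) := by gcongr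
          _ = _ := by rw [hCt]; ring
      have h3 : 0 ≤ lam ^ (p - 1) * Kc := by positivity
      have h4 : 0 ≤ δ ^ (p - 1) * (M : ℝ) := by positivity
      calc (M : ℝ) * (kap d)⁻¹ ≤ Ct * (δ ^ (p - 1) * M) := h2
        _ ≤ (Cb + Ct) * (lam ^ (p - 1) * Kc + δ ^ (p - 1) * M) := by
            gcongr
            · linarith
            · linarith
        _ = (Cb + Ct) * 1 * (lam ^ (p - 1) * Kc + δ ^ (p - 1) * M) := by ring
        _ ≤ _ := by gcongr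
    rw [hemp, measure_empty]
    exact zero_le
  obtain ⟨L, L', K, c, a, h1, h2, hK, ha, hac, h4, h5, h6, h7, h8, h9, h10'⟩ := hpar δ hδ h10
  obtain ⟨F, hFc, hF⟩ := cells_fin (d + 1) R hR δ hδ hδ1.le
  obtain ⟨N1, hN1a, hN1b, hN1c⟩ := hnet {x | ‖x‖ ≤ R + 1} (fun x hx => hx) δ hδ hδ1
  obtain ⟨N2, hN2a, hN2b, hN2c⟩ := hnet {x | ‖x‖ = 1} (fun x hx => by
    have : ‖x‖ = 1 := hx
    linarith) δ hδ hδ1
  set pos : N1 × N2 → E (d + 1) := fun z => (z.1 : E (d + 1)) with hpos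
  set dir : N1 × N2 → E (d + 1) := fun z => (z.2 : E (d + 1)) with hdir
  have hdir1 : ∀ z, ‖dir z‖ = 1 := fun z => hN2a _ z.2.2
  have hZ : (Fintype.card (N1 × N2) : ℝ) ≤ Real.exp a := by
    refine le_trans ?_ h4
    rw [Fintype.card_prod, Fintype.card_coe, Fintype.card_coe]
    push_cast
    exact mul_le_mul hN1b hN2b (Nat.cast_nonneg _) (by positivity)
  have hprob := pass_prob P A hA lam hl hpA F (UU δ pos dir) K c a hZ ha hac
  refine le_trans (measure_mono ?_) (hprob.trans (ENNReal.ofReal_le_ofReal h6))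
  intro x hx hpass
  refine hx fun M ω Kc hM hKc hgood => ?_
  have hML : (M : ℝ) ≤ 2 ^ L := hM.trans h1
  have hsm : 3 * Real.exp (-(K / 12)) * (M * F.card) < 1 :=
    lt_of_le_of_lt (by gcongr) h5
  have hc1 : 1 ≤ c := by linarith
  have hst := strong_cells hδ (by linarith) hp hKc hR pos dir hdir1 G
    (fun a e he y hy => hG δ hδ hδ1.le a e he y hy) (fun a e ha he => by
      obtain ⟨y1, hy1, hy2⟩ := hN1c a ha
      obtain ⟨y3, hy3, hy4⟩ := hN2c e he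
      exact ⟨(⟨y1, hy1⟩, ⟨y3, hy3⟩), hy2, hy4⟩) ω hgood F {j | x ∈ A j} hF hK hc1 hl hpass hsm
    L L' hML h2
  refine GoodOn.mono hst ?_
  have hRC := RC_le d M (g := G.card) (K := K) (c := c) (lam := lam) (Kc := Kc) hδ hp
    (Nat.cast_nonneg _) hKc hK hc1 hl L
  rw [← hD0] at hRC
  have hRC0 : 0 ≤ RC d M G.card δ p Kc K c lam L := by
    unfold RC
    positivity
  have hRC1 : 0 ≤ (kap d ^ p)⁻¹ * RC d M G.card δ p Kc K c lam L ^ (p - 1) := by positivity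
  set V : ℝ := lam ^ (p - 1) * Kc + δ ^ (p - 1) * M with hV
  have hV0 : 0 ≤ V := by positivity
  set S : ℝ := δ ^ (-s') with hS
  have hS0 : 0 < S := by positivity
  have hδd : δ ^ d ≤ 1 := pow_le_one₀ hδ.le hδ1.le
  have e1 : (M : ℝ) * (δ ^ d * δ ^ p) ≤ 1 * (δ ^ (-s) * V) := by
    have f1 : δ ^ p ≤ δ ^ (p - 1) := Real.rpow_le_rpow_of_exponent_ge hδ hδ1.le (by linarith)
    have f2 : 0 ≤ lam ^ (p - 1) * Kc := by positivity
    calc (M : ℝ) * (δ ^ d * δ ^ p) ≤ M * (1 * δ ^ (p - 1)) := by gcongr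
      _ ≤ V := by rw [hV]; linarith
      _ = 1 * V := (one_mul _).symm
      _ ≤ δ ^ (-s) * V := by gcongr
      _ = _ := (one_mul _).symm
  have e2 : RC d M G.card δ p Kc K c lam L ^ (p - 1) ≤
      (2 * (D0 * C0 ^ 3)) ^ (p - 1) * S ^ (3 * (p - 1)) * V := by
    refine hRC.trans ?_
    have f1 : ((L : ℝ) + 1) * c * K ≤ (C0 * S) * (C0 * S) * (C0 * S) := by gcongr
    have f2 : 2 * (D0 * (((L : ℝ) + 1) * c * K)) ≤ 2 * (D0 * C0 ^ 3) * S ^ (3 : ℝ) := by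
      have : S ^ (3 : ℝ) = S ^ 3 := by
        rw [show (3 : ℝ) = ((3 : ℕ) : ℝ) by norm_num, Real.rpow_natCast]
      rw [this]
      calc 2 * (D0 * (((L : ℝ) + 1) * c * K)) ≤ 2 * (D0 * ((C0 * S) * (C0 * S) * (C0 * S))) := by
            gcongr
        _ = _ := by ring
    have f3 : (2 * (D0 * (((L : ℝ) + 1) * c * K))) ^ (p - 1) ≤
        (2 * (D0 * C0 ^ 3)) ^ (p - 1) * S ^ (3 * (p - 1)) := by
      refine (Real.rpow_le_rpow (by positivity) f2 hp1.le).trans (le_of_eq ?_)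
      rw [Real.mul_rpow (by positivity) (by positivity), ← Real.rpow_mul hS0.le]
    exact mul_le_mul_of_nonneg_right f3 hV0
  have e3 : S * S ^ (3 * (p - 1)) = δ ^ (-s) := by
    rw [← Real.rpow_one_add' hS0.le (by positivity), hS, ← Real.rpow_mul hδ.le]
    congr 1
    rw [hs']
    field_simp
    ring
  calc (M : ℝ) * (δ ^ d * δ ^ p) + 2 * L' * ((kap d ^ p)⁻¹ *
        RC d M G.card δ p Kc K c lam L ^ (p - 1))
      ≤ 1 * (δ ^ (-s) * V) + 2 * (C0 * S) * ((kap d ^ p)⁻¹ *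
        ((2 * (D0 * C0 ^ 3)) ^ (p - 1) * S ^ (3 * (p - 1)) * V)) := by gcongr
    _ = 1 * (δ ^ (-s) * V) + 2 * C0 * ((kap d ^ p)⁻¹ * (2 * (D0 * C0 ^ 3)) ^ (p - 1)) *
        ((S * S ^ (3 * (p - 1))) * V) := by ring
    _ = Cb * (δ ^ (-s) * V) := by rw [e3, hCb]; ring
    _ ≤ (Cb + Ct) * (δ ^ (-s) * V) := by
        refine mul_le_mul_of_nonneg_right (by linarith) (by positivity)
    _ = _ := by ring

end Pool.Agent.N248.KG
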