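import Mathlib
import Pool.Agent.N248.KG.I
set_option autoImplicit false

/-! Kakeya in random regions: from the whole space to random regions. -/

namespace Pool.Agent.N248.KG

open MeasureTheory Set Metric
open scoped ENNReal NNReal
open Pool.Agent.N248.KR

variable {d : ℕ}

/-- the maximal inequality on the sphere for functions on `W` -/
def KBOn (d : ℕ) (p C δ : ℝ) (W : Set (E (d + 1))) : Prop :=
  ∀ f : E (d + 1) → ℝ≥0∞, AEMeasurable f volume → (∀ y, f y ≠ 0 → y ∈ W) →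
    ∫⁻ θ : Dir (d + 1), kmax δ f θ ^ p ∂(Pu d) ≤ ENNReal.ofReal C * ∫⁻ y, f y ^ p

theorem KBOn.mono {p C C' δ : ℝ} {W : Set (E (d + 1))} (h : KBOn d p C δ W) (hC : C ≤ C') :
    KBOn d p C' δ W := fun f hf hs => (h f hf hs).trans (by gcongr)

theorem KBOn_triv {p δ : ℝ} (hδ : 0 < δ) (hp : 1 < p) (W : Set (E (d + 1))) :
    KBOn d p ((kap d * δ ^ d)⁻¹) δ W := by
  intro f hf _
  calc ∫⁻ θ : Dir (d + 1), kmax δ f θ ^ p ∂(Pu d)
      ≤ ∫⁻ _θ : Dir (d + 1), (ENNReal.ofReal ((kap d * δ ^ d)⁻¹) * ∫⁻ y, f y ^ p) ∂(Pu d) :=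
        lintegral_mono fun θ => kmax_pow_le hδ hp (norm_eq_of_mem_sphere θ) hf
    _ = _ := by rw [lintegral_const, measure_univ, mul_one]

/-- **from the whole space to random regions** -/
theorem fwd_sph (hd : 1 ≤ d) {p γ : ℝ} (hp : 1 < p) (h : KB d (Pu d) p γ) :
    ∀ ε B R : ℝ, 0 < ε → 0 ≤ B → 0 ≤ R → ∃ C : ℝ, 1 ≤ C ∧ ∀ δ : ℝ, 0 < δ → δ < 1 →
      ∀ {Ω : Type} [MeasurableSpace Ω] (P : Measure Ω)
      [IsProbabilityMeasure P] (A : (Fin (d + 1) → ℤ) → Set Ω),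
      (∀ T : Finset (Fin (d + 1) → ℤ), P (⋂ j ∈ T, A j) ≤ ∏ j ∈ T, P (A j)) →
      ∀ lam : ℝ, 0 ≤ lam → (∀ j, P (A j) ≤ ENNReal.ofReal lam) →
      P {x | ¬ KBOn d p (C * δ ^ (-ε) * (lam ^ (p - 1) * δ ^ (-γ) + δ ^ (p - ((d : ℝ) + 1)))) δ
        (reg δ {j | x ∈ A j} ∩ closedBall (0 : E (d + 1)) R)} ≤ ENNReal.ofReal (δ ^ B) := by
  intro ε B R hε hB hR
  have hκ := kap_pos d
  have hp0 : 0 < p := by linarith
  obtain ⟨Cn, hCn, hnet⟩ := sph_net d hd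
  obtain ⟨Ca, hCa, hsi⟩ := sum_le_int d hd hp0
  obtain ⟨Cb, hCb, his⟩ := int_le_sum d hd hp0
  obtain ⟨C1, hC1, hKB⟩ := h (ε / 2) (by linarith)
  obtain ⟨Cc, hCc, hcell⟩ := cells_prob d (p := p) (s := ε / 2) (B := B) (R := R) hp (by linarith)
    hB hR
  set δ₀ : ℝ := min (1 / 10) (1 / Cn) with hδ₀
  have hδ₀0 : 0 < δ₀ := lt_min (by norm_num) (by positivity)
  set D1 : ℝ := Cb * Cc * (Ca * C1 + Cn) with hD1
  set D2 : ℝ := (kap d)⁻¹ * δ₀ ^ (1 - p) with hD2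
  have hD11 : 1 ≤ D1 := by
    have h1 : 1 ≤ Ca * C1 + Cn := by
      have : 0 ≤ Ca * C1 := by positivity
      linarith
    have h2 : 1 ≤ Cb * Cc := by nlinarith
    rw [hD1]
    nlinarith
  have hD20 : 0 ≤ D2 := by positivity
  refine ⟨D1 + D2, by linarith, ?_⟩
  intro δ hδ hδ1 Ω _ P _ A hA lam hl hpA
  rcases lt_or_ge δ₀ δ with hlt | hle
  · have hemp : {x | ¬ KBOn d p ((D1 + D2) * δ ^ (-ε) * (lam ^ (p - 1) * δ ^ (-γ) +
        δ ^ (p - ((d : ℝ) + 1)))) δ (reg δ {j | x ∈ A j} ∩ closedBall (0 : E (d + 1)) R)} = ∅ := by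
      rw [Set.eq_empty_iff_forall_notMem]
      intro x hx
      refine hx ((KBOn_triv hδ hp _).mono ?_)
      have e1 : 1 ≤ δ ^ (-ε) :=
        Real.one_le_rpow_of_pos_of_le_one_of_nonpos hδ hδ1.le (by linarith)
      have e2 : (δ ^ d)⁻¹ = δ ^ (p - ((d : ℝ) + 1)) * δ ^ (1 - p) := by
        rw [← Real.rpow_add hδ, ← Real.rpow_natCast, ← Real.rpow_neg hδ.le]
        congr 1; ring
      have e3 : δ ^ (1 - p) ≤ δ₀ ^ (1 - p) :=
        Real.rpow_le_rpow_of_nonpos hδ₀0 hlt.le (by linarith)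
      have e4 : 0 ≤ lam ^ (p - 1) * δ ^ (-γ) := by positivity
      have e5 : 0 < δ ^ (p - ((d : ℝ) + 1)) := by positivity
      calc (kap d * δ ^ d)⁻¹ = (kap d)⁻¹ * (δ ^ (p - ((d : ℝ) + 1)) * δ ^ (1 - p)) := by
            rw [mul_inv, e2]
        _ ≤ (kap d)⁻¹ * (δ ^ (p - ((d : ℝ) + 1)) * δ₀ ^ (1 - p)) := by gcongr
        _ = D2 * 1 * δ ^ (p - ((d : ℝ) + 1)) := by rw [hD2]; ring
        _ ≤ (D1 + D2) * δ ^ (-ε) * (lam ^ (p - 1) * δ ^ (-γ) + δ ^ (p - ((d : ℝ) + 1))) := by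
            gcongr
            · linarith
            · linarith
    rw [hemp, measure_empty]
    exact zero_le
  have h10 : δ ≤ 1 / 10 := hle.trans (min_le_left _ _)
  have hCnδ : Cn * δ ≤ 1 := by
    have := hle.trans (min_le_right _ _)
    rw [le_div_iff₀ (by linarith)] at this
    linarith
  obtain ⟨M, ω, hM, hcov, hsep⟩ := hnet δ hδ hδ1
  have hδd : 0 < δ ^ d := by positivity
  have hM2 : (M : ℝ) ≤ δ ^ (-((d : ℝ) + 1)) := by
    have e1 : δ ^ (-((d : ℝ) + 1)) = δ⁻¹ * (δ ^ d)⁻¹ := by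
      rw [neg_add, Real.rpow_add hδ, Real.rpow_neg hδ.le, Real.rpow_natCast, Real.rpow_neg_one,
        mul_comm]
    rw [e1]
    refine hM.trans ?_
    have : Cn ≤ δ⁻¹ := by
      rw [← one_div, le_div_iff₀ hδ]; exact hCnδ
    gcongr
  set Kc : ℝ := Ca * (C1 * δ ^ (-γ - ε / 2)) with hKc
  have hKc0 : 0 ≤ Kc := by positivity
  have hgood : Good p Kc δ ω := by
    intro f hf
    refine (hsi δ hδ (by linarith) M ω hsep f).trans ?_
    calc ENNReal.ofReal Ca * ∫⁻ θ : Dir (d + 1), kmax δ f θ ^ p ∂(Pu d)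
        ≤ ENNReal.ofReal Ca * (ENNReal.ofReal (C1 * δ ^ (-γ - ε / 2)) * ∫⁻ y, f y ^ p) := by
          gcongr
          exact hKB δ hδ hδ1 f hf
      _ = _ := by rw [← mul_assoc, ← ENNReal.ofReal_mul (by linarith)]
  refine le_trans (measure_mono ?_) (hcell δ hδ hδ1 P A hA lam hl hpA)
  intro x hx hgo
  refine hx ?_
  have h1 := hgo M ω Kc hM2 hKc0 hgood
  intro f hf hs
  calc ∫⁻ θ : Dir (d + 1), kmax δ f θ ^ p ∂(Pu d)
      ≤ ENNReal.ofReal Cb * (ENNReal.ofReal (δ ^ d) * ∑ i, kmax δ f (ω i) ^ p) :=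
        his δ hδ (by linarith) M ω hcov f
    _ ≤ ENNReal.ofReal Cb * (ENNReal.ofReal (Cc * δ ^ (-(ε / 2)) *
        (lam ^ (p - 1) * Kc + δ ^ (p - 1) * M)) * ∫⁻ y, f y ^ p) :=
        mul_le_mul' le_rfl (h1 f hf hs)
    _ = ENNReal.ofReal (Cb * (Cc * δ ^ (-(ε / 2)) *
        (lam ^ (p - 1) * Kc + δ ^ (p - 1) * M))) * ∫⁻ y, f y ^ p := by
        rw [← mul_assoc, ← ENNReal.ofReal_mul (by linarith)]
    _ ≤ _ := by
        refine mul_le_mul' (ENNReal.ofReal_le_ofReal ?_) le_rfl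
        have e1 : δ ^ (-γ - ε / 2) = δ ^ (-γ) * δ ^ (-(ε / 2)) := by
          rw [← Real.rpow_add hδ]; congr 1
        have e2 : δ ^ (-(ε / 2)) * δ ^ (-(ε / 2)) = δ ^ (-ε) := by
          rw [← Real.rpow_add hδ]; congr 1; ring
        have e3 : 1 ≤ δ ^ (-(ε / 2)) :=
          Real.one_le_rpow_of_pos_of_le_one_of_nonpos hδ hδ1.le (by linarith)
        have e4 : δ ^ (p - 1) * M ≤ Cn * δ ^ (p - ((d : ℝ) + 1)) := by
          have : δ ^ (p - ((d : ℝ) + 1)) = δ ^ (p - 1) * (δ ^ d)⁻¹ := by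
            rw [← Real.rpow_natCast, ← Real.rpow_neg hδ.le, ← Real.rpow_add hδ]
            congr 1; ring
          rw [this]
          calc δ ^ (p - 1) * (M : ℝ) ≤ δ ^ (p - 1) * (Cn * (δ ^ d)⁻¹) := by gcongr
            _ = _ := by ring
        have e5 : 0 < δ ^ (p - ((d : ℝ) + 1)) := by positivity
        set S : ℝ := δ ^ (-(ε / 2)) with hS
        calc Cb * (Cc * S * (lam ^ (p - 1) * Kc + δ ^ (p - 1) * M))
            ≤ Cb * (Cc * S * (lam ^ (p - 1) * Kc + Cn * δ ^ (p - ((d : ℝ) + 1)))) := by gcongr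
          _ = Cb * Cc * (Ca * C1 * (S * S) * (lam ^ (p - 1) * δ ^ (-γ)) +
              Cn * (S * 1) * δ ^ (p - ((d : ℝ) + 1))) := by
              rw [hKc, e1]; ring
          _ ≤ Cb * Cc * (Ca * C1 * (S * S) * (lam ^ (p - 1) * δ ^ (-γ)) +
              Cn * (S * S) * δ ^ (p - ((d : ℝ) + 1))) := by gcongr
          _ ≤ Cb * Cc * ((Ca * C1 + Cn) * (S * S) * (lam ^ (p - 1) * δ ^ (-γ)) +
              (Ca * C1 + Cn) * (S * S) * δ ^ (p - ((d : ℝ) + 1))) := by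
              gcongr
              · linarith
              · have : 0 ≤ Ca * C1 := by positivity
                linarith
          _ = D1 * δ ^ (-ε) * (lam ^ (p - 1) * δ ^ (-γ) + δ ^ (p - ((d : ℝ) + 1))) := by
              rw [e2, hD1]; ring
          _ ≤ _ := by
              gcongr
              linarith

end Pool.Agent.N248.KG
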