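import Mathlib
import Pool.Agent.N248.KG.J
set_option autoImplicit false

/-! Kakeya in random regions: from random regions back to the whole space, local part. -/

namespace Pool.Agent.N248.KG

open MeasureTheory Set Metric
open scoped ENNReal NNReal
open Pool.Agent.N248.KR

variable {d : ℕ}

theorem cell_ex {n : ℕ} {δ : ℝ} (hδ : 0 < δ) (y : E n) : ∃ j : Fin n → ℤ, y ∈ qc δ j := by
  refine ⟨fun i => ⌊y i / δ⌋, fun i => ?_⟩
  have h1 := Int.floor_le (y i / δ)
  have h2 := Int.lt_floor_add_one (y i / δ)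
  rw [le_div_iff₀ hδ] at h1
  rw [div_lt_iff₀ hδ] at h2
  constructor <;> linarith

theorem regL {n : ℕ} {δ : ℝ} (hδ : 0 < δ) {Ω : Type} (A : (Fin n → ℤ) → Set Ω)
    (h : E n → ℝ≥0∞) (x : Ω) :
    ∫⁻ y in reg δ {j | x ∈ A j}, h y =
      ∑' j, (A j).indicator (fun _ => ∫⁻ y in qc δ j, h y) x := by
  have h1 : ∫⁻ y in reg δ {j | x ∈ A j}, h y =
      ∑' j : {j | x ∈ A j}, ∫⁻ y in qc δ (j : Fin n → ℤ), h y := by
    unfold reg
    exact lintegral_biUnion (Set.to_countable _) (fun j _ => qc_meas δ j)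
      (fun j _ k _ hjk => qc_disj hδ j k hjk) _
  rw [h1, tsum_subtype {j | x ∈ A j} (fun j => ∫⁻ y in qc δ j, h y)]
  refine tsum_congr fun j => ?_
  by_cases hj : x ∈ A j
  · rw [indicator_of_mem hj, indicator_of_mem (show j ∈ {j | x ∈ A j} from hj)]
  · rw [indicator_of_notMem hj, indicator_of_notMem (show j ∉ {j | x ∈ A j} from hj)]

theorem regM {n : ℕ} {δ : ℝ} (hδ : 0 < δ) {Ω : Type} [MeasurableSpace Ω]
    (A : (Fin n → ℤ) → Set Ω) (hAm : ∀ j, MeasurableSet (A j)) (h : E n → ℝ≥0∞) :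
    Measurable fun x => ∫⁻ y in reg δ {j | x ∈ A j}, h y := by
  simp_rw [regL hδ A h]
  exact Measurable.ennreal_tsum fun j => measurable_const.indicator (hAm j)

theorem regE {n : ℕ} {δ lam : ℝ} (hδ : 0 < δ) {Ω : Type} [MeasurableSpace Ω] (P : Measure Ω)
    (A : (Fin n → ℤ) → Set Ω) (hAm : ∀ j, MeasurableSet (A j))
    (hpA : ∀ j, P (A j) = ENNReal.ofReal lam) (h : E n → ℝ≥0∞) :
    ∫⁻ x, (∫⁻ y in reg δ {j | x ∈ A j}, h y) ∂P = ENNReal.ofReal lam * ∫⁻ y, h y := by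
  simp_rw [regL hδ A h]
  rw [lintegral_tsum fun j => (measurable_const.indicator (hAm j)).aemeasurable]
  have h1 : ∀ j, ∫⁻ x, (A j).indicator (fun _ => ∫⁻ y in qc δ j, h y) x ∂P =
      ENNReal.ofReal lam * ∫⁻ y in qc δ j, h y := by
    intro j
    rw [lintegral_indicator_const (hAm j), hpA, mul_comm]
  simp_rw [h1]
  rw [ENNReal.tsum_mul_left]
  congr 1
  have h2 : (⋃ j : Fin n → ℤ, qc δ j) = univ := by
    rw [Set.eq_univ_iff_forall]
    intro y
    rw [mem_iUnion]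
    exact cell_ex hδ y
  rw [← lintegral_iUnion (fun j => qc_meas δ j) (fun j k hjk => qc_disj hδ j k hjk), h2,
    Measure.restrict_univ]

theorem jensen {Ω : Type} [MeasurableSpace Ω] (P : Measure Ω) [IsProbabilityMeasure P] {p : ℝ}
    (hp : 1 < p) (X : Ω → ℝ≥0∞) (hX : AEMeasurable X P) :
    (∫⁻ x, X x ∂P) ^ p ≤ ∫⁻ x, X x ^ p ∂P := by
  have hp0 : 0 < p := by linarith
  have hpq : p.HolderConjugate (Real.conjExponent p) := Real.HolderConjugate.conjExponent hp
  have h1 := ENNReal.lintegral_mul_le_Lp_mul_Lq P hpq (f := X) (g := fun _ => 1) hX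
    aemeasurable_const
  simp only [Pi.mul_apply, mul_one, ENNReal.one_rpow, lintegral_const, one_mul,
    measure_univ] at h1
  calc (∫⁻ x, X x ∂P) ^ p ≤ ((∫⁻ x, X x ^ p ∂P) ^ (1 / p)) ^ p := by gcongr
    _ = _ := by rw [← ENNReal.rpow_mul, one_div, inv_mul_cancel₀ hp0.ne', ENNReal.rpow_one]

theorem local_conv {M : ℕ} {δ p lam R Ca C' : ℝ} (hδ : 0 < δ) (hp : 1 < p)
    (hlam : 0 < lam) (hC' : 0 ≤ C') (hCa : 0 ≤ Ca) (ω : Fin M → Dir (d + 1))
    (hsi : ∀ f : E (d + 1) → ℝ≥0∞, ENNReal.ofReal (δ ^ d) * ∑ i, kmax δ f (ω i) ^ p ≤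
        ENNReal.ofReal Ca * ∫⁻ θ : Dir (d + 1), kmax δ f θ ^ p ∂(Pu d))
    {Ω : Type} [MeasurableSpace Ω] (P : Measure Ω) [IsProbabilityMeasure P]
    (A : (Fin (d + 1) → ℤ) → Set Ω) (hAm : ∀ j, MeasurableSet (A j))
    (hpA : ∀ j, P (A j) = ENNReal.ofReal lam)
    (hbad : P {x | ¬ KBOn d p C' δ (reg δ {j | x ∈ A j} ∩ closedBall (0 : E (d + 1)) R)} ≤
      ENNReal.ofReal (lam ^ p / 2))
    (f : E (d + 1) → ℝ≥0∞) (hf : AEMeasurable f volume)
    (hsupp : ∀ y, f y ≠ 0 → y ∈ closedBall (0 : E (d + 1)) R) (hI : ∫⁻ y, f y ^ p ≠ ⊤) :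
    ENNReal.ofReal (δ ^ d) * ∑ i, kmax δ f (ω i) ^ p ≤
      ENNReal.ofReal (2 ^ p * (2 * lam ^ (-p)) * (Ca * C') * lam) * ∫⁻ y, f y ^ p := by
  classical
  have hp0 : 0 < p := by linarith
  have hn : ∀ i, ‖(ω i : E (d + 1))‖ = 1 := fun i => norm_eq_of_mem_sphere (ω i)
  set I : ℝ≥0∞ := ∫⁻ y, f y ^ p with hIdef
  have hkt : ∀ i, kmax δ f (ω i) ≠ ⊤ := by
    intro i h
    have h1 := kmax_pow_le (p := p) hδ hp (hn i) hf
    rw [h, ENNReal.top_rpow_of_pos hp0, top_le_iff] at h1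
    exact ENNReal.mul_ne_top ENNReal.ofReal_ne_top hI h1
  have hex : ∀ i : Fin M, ∃ a : E (d + 1), kmax δ f (ω i) ≤
      2 * ((volume (cyl (1 / 2) δ a (ω i : E (d + 1))))⁻¹ *
        ∫⁻ y in cyl (1 / 2) δ a (ω i : E (d + 1)), f y) := by
    intro i
    rcases eq_or_ne (kmax δ f (ω i)) 0 with h0 | h0
    · exact ⟨0, by rw [h0]; exact zero_le⟩
    · have h1 := ENNReal.half_lt_self h0 (hkt i)
      conv_rhs at h1 => unfold kmax
      obtain ⟨a, ha⟩ := lt_iSup_iff.1 h1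
      refine ⟨a, ?_⟩
      calc kmax δ f (ω i) = 2 * (kmax δ f (ω i) / 2) := by
            rw [ENNReal.mul_div_cancel (by norm_num) (by norm_num)]
        _ ≤ _ := by gcongr
  choose a ha using hex
  set T : Fin M → Set (E (d + 1)) := fun i => cyl (1 / 2) δ (a i) (ω i : E (d + 1)) with hT
  have hTm : ∀ i, MeasurableSet (T i) := fun i => cyl_meas _ _ _ _
  set m : Fin M → ℝ≥0∞ := fun i => (volume (T i))⁻¹ * ∫⁻ y in T i, f y with hm
  have hmk : ∀ i, m i ≤ kmax δ f (ω i) := fun i =>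
    le_iSup (fun b : E (d + 1) => (volume (cyl (1 / 2) δ b (ω i : E (d + 1))))⁻¹ *
      ∫⁻ y in cyl (1 / 2) δ b (ω i : E (d + 1)), f y) (a i)
  have hmt : ∀ i, m i ≠ ⊤ := fun i => ne_top_of_le_ne_top (hkt i) (hmk i)
  set W : Ω → Set (E (d + 1)) := fun x => reg δ {j | x ∈ A j} with hW
  set X : Fin M → Ω → ℝ≥0∞ := fun i x =>
    (volume (T i))⁻¹ * ∫⁻ y in W x, (T i).indicator f y with hX
  have hXm : ∀ i, Measurable (X i) := fun i => (regM hδ A hAm _).const_mul _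
  have hXE : ∀ i, ∫⁻ x, X i x ∂P = ENNReal.ofReal lam * m i := by
    intro i
    rw [hX]
    simp only
    rw [lintegral_const_mul _ (regM hδ A hAm _), regE hδ P A hAm hpA, lintegral_indicator (hTm i),
      hm]
    ring
  have hXle : ∀ i x, X i x ≤ m i := by
    intro i x
    rw [hX, hm]
    simp only
    refine mul_le_mul' le_rfl ?_
    rw [← lintegral_indicator (hTm i)]
    exact setLIntegral_le_lintegral _ _
  -- the maximal function of the restriction
  have hXk : ∀ i x, X i x ≤ kmax δ ((W x).indicator f) (ω i) := by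
    intro i x
    refine le_trans (le_of_eq ?_) (le_iSup (fun b : E (d + 1) =>
      (volume (cyl (1 / 2) δ b (ω i : E (d + 1))))⁻¹ *
      ∫⁻ y in cyl (1 / 2) δ b (ω i : E (d + 1)), (W x).indicator f y) (a i))
    rw [hX]
    simp only
    congr 1
    rw [← lintegral_indicator (reg_meas δ _), ← lintegral_indicator (cyl_meas _ _ _ _),
      Set.indicator_indicator, Set.indicator_indicator, inter_comm]
  -- the bad set
  set Nb : Set Ω := toMeasurable P {x | ¬ KBOn d p C' δ (W x ∩ closedBall (0 : E (d + 1)) R)}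
    with hNb
  have hNm : MeasurableSet Nb := measurableSet_toMeasurable _ _
  have hNP : P Nb ≤ ENNReal.ofReal (lam ^ p / 2) := by
    rw [hNb, measure_toMeasurable]; exact hbad
  have hNg : ∀ x ∈ Nbᶜ, KBOn d p C' δ (W x ∩ closedBall (0 : E (d + 1)) R) := by
    intro x hx
    by_contra hcon
    exact hx (subset_toMeasurable P _ hcon)
  have hlow : ∀ i, ENNReal.ofReal (lam ^ p / 2) * m i ^ p ≤ ∫⁻ x in Nbᶜ, X i x ^ p ∂P := by
    intro i
    have h1 := jensen P hp (X i) (hXm i).aemeasurable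
    rw [hXE, ENNReal.mul_rpow_of_nonneg _ _ hp0.le, ENNReal.ofReal_rpow_of_nonneg hlam.le hp0.le]
      at h1
    have h2 : ∫⁻ x, X i x ^ p ∂P = ∫⁻ x in Nb, X i x ^ p ∂P + ∫⁻ x in Nbᶜ, X i x ^ p ∂P :=
      (lintegral_add_compl _ hNm).symm
    have h3 : ∫⁻ x in Nb, X i x ^ p ∂P ≤ ENNReal.ofReal (lam ^ p / 2) * m i ^ p := by
      calc ∫⁻ x in Nb, X i x ^ p ∂P ≤ ∫⁻ _x in Nb, m i ^ p ∂P := by
            refine lintegral_mono fun x => ?_
            have := hXle i x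
            gcongr
        _ = m i ^ p * P Nb := setLIntegral_const _ _
        _ ≤ _ := by rw [mul_comm]; gcongr
    have h4 : ENNReal.ofReal (lam ^ p) = ENNReal.ofReal (lam ^ p / 2) +
        ENNReal.ofReal (lam ^ p / 2) := by
      rw [← ENNReal.ofReal_add (by positivity) (by positivity)]
      congr 1; ring
    rw [h4, add_mul, h2] at h1
    have h5 : ENNReal.ofReal (lam ^ p / 2) * m i ^ p ≠ ⊤ :=
      ENNReal.mul_ne_top ENNReal.ofReal_ne_top (ENNReal.rpow_ne_top_of_nonneg hp0.le (hmt i))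
    refine (ENNReal.add_le_add_iff_left h5).1 (h1.trans ?_)
    gcongr
  -- the good set
  have hup : ∀ x ∈ Nbᶜ, ENNReal.ofReal (δ ^ d) * ∑ i, X i x ^ p ≤
      ENNReal.ofReal (Ca * C') * ∫⁻ y in W x, f y ^ p := by
    intro x hx
    have h1 : ∫⁻ y, (W x).indicator f y ^ p = ∫⁻ y in W x, f y ^ p := by
      rw [← lintegral_indicator (reg_meas δ _)]
      refine lintegral_congr fun y => ?_
      by_cases hy : y ∈ W x
      · rw [indicator_of_mem hy, indicator_of_mem hy]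
      · rw [indicator_of_notMem hy, indicator_of_notMem hy, ENNReal.zero_rpow_of_pos hp0]
    calc ENNReal.ofReal (δ ^ d) * ∑ i, X i x ^ p
        ≤ ENNReal.ofReal (δ ^ d) * ∑ i, kmax δ ((W x).indicator f) (ω i) ^ p := by
          gcongr with i
          exact hXk i x
      _ ≤ ENNReal.ofReal Ca *
          ∫⁻ θ : Dir (d + 1), kmax δ ((W x).indicator f) θ ^ p ∂(Pu d) := hsi _
      _ ≤ ENNReal.ofReal Ca * (ENNReal.ofReal C' * ∫⁻ y, (W x).indicator f y ^ p) := by
          refine mul_le_mul' le_rfl (hNg x hx _ (hf.indicator (reg_meas δ _)) fun y hy => ?_)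
          have h2 : y ∈ W x := by
            by_contra hcon
            exact hy (indicator_of_notMem hcon _)
          refine ⟨h2, hsupp y ?_⟩
          rwa [indicator_of_mem h2] at hy
      _ = _ := by rw [h1, ← mul_assoc, ← ENNReal.ofReal_mul hCa]
  have hsum : ENNReal.ofReal (lam ^ p / 2) * (ENNReal.ofReal (δ ^ d) * ∑ i, m i ^ p) ≤
      ENNReal.ofReal (Ca * C') * (ENNReal.ofReal lam * I) := by
    calc ENNReal.ofReal (lam ^ p / 2) * (ENNReal.ofReal (δ ^ d) * ∑ i, m i ^ p)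
        = ENNReal.ofReal (δ ^ d) * ∑ i, ENNReal.ofReal (lam ^ p / 2) * m i ^ p := by
          rw [← Finset.mul_sum]; ring
      _ ≤ ENNReal.ofReal (δ ^ d) * ∑ i, ∫⁻ x in Nbᶜ, X i x ^ p ∂P :=
          mul_le_mul' le_rfl (Finset.sum_le_sum fun i _ => hlow i)
      _ = ∫⁻ x in Nbᶜ, ENNReal.ofReal (δ ^ d) * ∑ i, X i x ^ p ∂P := by
          rw [lintegral_const_mul _ (Finset.measurable_fun_sum _ fun i _ => (hXm i).pow_const _),
            lintegral_finsetSum _ fun i _ => (hXm i).pow_const _]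
      _ ≤ ∫⁻ x in Nbᶜ, (ENNReal.ofReal (Ca * C') * ∫⁻ y in W x, f y ^ p) ∂P :=
          setLIntegral_mono' hNm.compl hup
      _ ≤ ∫⁻ x, (ENNReal.ofReal (Ca * C') * ∫⁻ y in W x, f y ^ p) ∂P :=
          setLIntegral_le_lintegral _ _
      _ = _ := by
          rw [lintegral_const_mul _ (regM hδ A hAm _), regE hδ P A hAm hpA]
  calc ENNReal.ofReal (δ ^ d) * ∑ i, kmax δ f (ω i) ^ p
      ≤ ENNReal.ofReal (δ ^ d) * ∑ i, ENNReal.ofReal (2 ^ p) * m i ^ p := by
        refine mul_le_mul' le_rfl (Finset.sum_le_sum fun i _ => ?_)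
        calc kmax δ f (ω i) ^ p ≤ (2 * m i) ^ p := by
              gcongr
              exact ha i
          _ = _ := by
              rw [ENNReal.mul_rpow_of_nonneg _ _ hp0.le,
                show (2 : ℝ≥0∞) = ENNReal.ofReal 2 by norm_num,
                ENNReal.ofReal_rpow_of_nonneg (by norm_num) hp0.le]
    _ = ENNReal.ofReal (2 ^ p) * (ENNReal.ofReal (2 * lam ^ (-p)) *
        (ENNReal.ofReal (lam ^ p / 2) * (ENNReal.ofReal (δ ^ d) * ∑ i, m i ^ p))) := by
        rw [← mul_assoc (ENNReal.ofReal (2 * lam ^ (-p))), ← ENNReal.ofReal_mul (by positivity)]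
        have : 2 * lam ^ (-p) * (lam ^ p / 2) = 1 := by
          rw [Real.rpow_neg hlam.le]
          field_simp
        rw [this, ENNReal.ofReal_one, one_mul, ← Finset.mul_sum]
        ring
    _ ≤ ENNReal.ofReal (2 ^ p) * (ENNReal.ofReal (2 * lam ^ (-p)) *
        (ENNReal.ofReal (Ca * C') * (ENNReal.ofReal lam * I))) := by gcongr
    _ = _ := by
        rw [← mul_assoc (ENNReal.ofReal (Ca * C')), ← mul_assoc, ← mul_assoc,
          ← ENNReal.ofReal_mul (by positivity), ← ENNReal.ofReal_mul (by positivity),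
          ← ENNReal.ofReal_mul (by positivity)]
        congr 2
        ring

end Pool.Agent.N248.KG
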