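import Mathlib
import Pool.Agent.N248.KG.K
set_option autoImplicit false

/-! Kakeya in random regions: from functions on a ball to all functions, and existence of random
cells. -/

namespace Pool.Agent.N248.KG

open MeasureTheory Set Metric ProbabilityTheory
open scoped ENNReal NNReal
open Pool.Agent.N248.KR

variable {d : ℕ}

theorem cnt {n : ℕ} (S : Finset (Fin n → ℤ)) (R : ℕ) (y : E n) :
    ∑ k ∈ S, (closedBall (lv k) (R : ℝ)).indicator (1 : E n → ℝ≥0∞) y ≤
      (((2 * R + 1) ^ n : ℕ) : ℝ≥0∞) := by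
  classical
  have h3 : ∑ k ∈ S, (closedBall (lv k) (R : ℝ)).indicator (1 : E n → ℝ≥0∞) y =
      ((S.filter fun k => y ∈ closedBall (lv k) (R : ℝ)).card : ℝ≥0∞) := by
    rw [Finset.card_filter]
    push_cast
    refine Finset.sum_congr rfl fun k _ => ?_
    by_cases h : y ∈ closedBall (lv k) (R : ℝ)
    · rw [indicator_of_mem h, if_pos h, Pi.one_apply]
    · rw [indicator_of_notMem h, if_neg h]
  rw [h3]
  have h4 : (S.filter fun k => y ∈ closedBall (lv k) (R : ℝ)) ⊆
      Fintype.piFinset fun i => Finset.Icc (⌈y i⌉ - (R : ℤ)) (⌈y i⌉ + R) := by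
    intro k hk
    rw [Finset.mem_filter, mem_closedBall, dist_eq_norm] at hk
    rw [Fintype.mem_piFinset]
    intro i
    have h5 : |y i - k i| ≤ R := by
      have := (PiLp.norm_apply_le (y - lv k) i).trans hk.2
      rwa [Real.norm_eq_abs] at this
    rw [abs_le] at h5
    rw [Finset.mem_Icc]
    have h6 := Int.le_ceil (y i)
    have h7 := Int.ceil_lt_add_one (y i)
    constructor
    · have h8 : ((⌈y i⌉ : ℤ) : ℝ) < ((k i + R + 1 : ℤ) : ℝ) := by push_cast; linarith
      have h9 : ⌈y i⌉ < k i + R + 1 := by exact_mod_cast h8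
      omega
    · have h8 : ((k i : ℤ) : ℝ) ≤ ((⌈y i⌉ + R : ℤ) : ℝ) := by push_cast; linarith
      exact_mod_cast h8
  have h5 := Finset.card_le_card h4
  rw [Fintype.card_piFinset] at h5
  have h6 : ∀ i : Fin n, (Finset.Icc (⌈y i⌉ - (R : ℤ)) (⌈y i⌉ + R)).card = 2 * R + 1 := by
    intro i
    rw [Int.card_Icc]
    omega
  rw [Finset.prod_congr rfl fun i _ => h6 i, Finset.prod_const, Finset.card_univ,
    Fintype.card_fin] at h5
  exact_mod_cast h5

theorem overlapF {n : ℕ} (R : ℕ) (g : E n → ℝ≥0∞) (hg : AEMeasurable g volume) :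
    ∑' k : Fin n → ℤ, ∫⁻ y in closedBall (lv k) (R : ℝ), g y ≤
      (((2 * R + 1) ^ n : ℕ) : ℝ≥0∞) * ∫⁻ y, g y := by
  have h1 : ∀ k : Fin n → ℤ, ∫⁻ y in closedBall (lv k) (R : ℝ), g y =
      ∫⁻ y, (closedBall (lv k) (R : ℝ)).indicator g y := fun k =>
    (lintegral_indicator measurableSet_closedBall _).symm
  simp_rw [h1]
  rw [← lintegral_tsum fun k => hg.indicator measurableSet_closedBall,
    ← lintegral_const_mul' _ _ (ENNReal.natCast_ne_top _)]
  refine lintegral_mono fun y => ?_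
  rw [ENNReal.tsum_eq_iSup_sum]
  refine iSup_le fun S => ?_
  calc ∑ k ∈ S, (closedBall (lv k) (R : ℝ)).indicator g y
      = ∑ k ∈ S, (closedBall (lv k) (R : ℝ)).indicator (1 : E n → ℝ≥0∞) y * g y := by
        refine Finset.sum_congr rfl fun k _ => ?_
        by_cases h : y ∈ closedBall (lv k) (R : ℝ)
        · rw [indicator_of_mem h, indicator_of_mem h, Pi.one_apply, one_mul]
        · rw [indicator_of_notMem h, indicator_of_notMem h, zero_mul]
    _ = (∑ k ∈ S, (closedBall (lv k) (R : ℝ)).indicator (1 : E n → ℝ≥0∞) y) * g y := by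
        rw [Finset.sum_mul]
    _ ≤ _ := by
        gcongr
        exact cnt S R y

/-- translation -/
theorem kmax_tr {n : ℕ} (δ : ℝ) (F : E n → ℝ≥0∞) (v e : E n) :
    kmax δ F e ≤ kmax δ (fun y => F (y + v)) e := by
  conv_lhs => unfold kmax
  refine iSup_le fun a => ?_
  refine le_trans (le_of_eq ?_) (le_iSup (fun b : E n => (volume (cyl (1 / 2) δ b e))⁻¹ *
    ∫⁻ y in cyl (1 / 2) δ b e, F (y + v)) (a - v))
  have h1 : ∀ z : E n, z ∈ cyl (1 / 2) δ (a - v) e ↔ z + v ∈ cyl (1 / 2) δ a e := by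
    intro z
    have : z - (a - v) = z + v - a := by abel
    show (|inner ℝ (z - (a - v)) e| ≤ 1 / 2 ∧ ‖(z - (a - v)) - (inner ℝ (z - (a - v)) e) • e‖ ≤ δ) ↔
      (|inner ℝ (z + v - a) e| ≤ 1 / 2 ∧ ‖(z + v - a) - (inner ℝ (z + v - a) e) • e‖ ≤ δ)
    rw [this]
  have h2 : volume (cyl (1 / 2) δ (a - v) e) = volume (cyl (1 / 2) δ a e) := by
    have : cyl (1 / 2) δ (a - v) e = (fun z => z + v) ⁻¹' cyl (1 / 2) δ a e := by
      ext z
      exact h1 z
    rw [this, measure_preimage_add_right]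
  rw [h2]
  congr 1
  rw [← lintegral_indicator (cyl_meas _ _ _ _), ← lintegral_indicator (cyl_meas _ _ _ _),
    ← lintegral_add_right_eq_self (fun y => (cyl (1 / 2) δ a e).indicator F y) v]
  refine lintegral_congr fun z => ?_
  by_cases h : z + v ∈ cyl (1 / 2) δ a e
  · rw [indicator_of_mem h, indicator_of_mem ((h1 z).2 h)]
  · rw [indicator_of_notMem h, indicator_of_notMem fun h' => h ((h1 z).1 h')]

/-- localisation -/
theorem kmax_loc {δ p : ℝ} (hp : 0 < p) (hδ5 : δ ≤ 1 / 5) {e : E (d + 1)}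
    (he : ‖e‖ = 1) (f : E (d + 1) → ℝ≥0∞) :
    kmax δ f e ^ p ≤ ∑' k : Fin (d + 1) → ℤ,
      kmax δ ((closedBall (lv k) ((d + 2 : ℕ) : ℝ)).indicator f) e ^ p := by
  set S := ∑' k : Fin (d + 1) → ℤ,
      kmax δ ((closedBall (lv k) ((d + 2 : ℕ) : ℝ)).indicator f) e ^ p with hS
  have h1 : kmax δ f e ≤ S ^ (p⁻¹) := by
    conv_lhs => unfold kmax
    refine iSup_le fun a => ?_
    rw [ENNReal.le_rpow_inv_iff hp]
    set k : Fin (d + 1) → ℤ := fun j => ⌊a j⌋ with hk
    refine le_trans ?_ (ENNReal.le_tsum k)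
    gcongr
    refine le_trans (le_of_eq ?_) (le_iSup (fun b : E (d + 1) =>
      (volume (cyl (1 / 2) δ b e))⁻¹ * ∫⁻ y in cyl (1 / 2) δ b e,
        (closedBall (lv k) ((d + 2 : ℕ) : ℝ)).indicator f y) a)
    congr 1
    refine setLIntegral_congr_fun (cyl_meas _ _ _ _) fun y hy => ?_
    have h2 := cyl_sub_ball he hy
    have h3 := norm_cell (n := d + 1) a
    have h4 : y ∈ closedBall (lv k) ((d + 2 : ℕ) : ℝ) := by
      rw [mem_closedBall, dist_eq_norm]
      have : y - lv k = (y - a) + (a - lv k) := by abel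
      rw [this]
      refine (norm_add_le _ _).trans ?_
      push_cast at h3 ⊢
      linarith
    rw [indicator_of_mem h4]
  exact (ENNReal.le_rpow_inv_iff hp).1 h1

/-- **from a ball to the whole space** -/
theorem glob {M : ℕ} {δ p D : ℝ} (hp : 0 < p) (hδ5 : δ ≤ 1 / 5) (hD : 0 < D)
    (ω : Fin M → Dir (d + 1))
    (h : ∀ f : E (d + 1) → ℝ≥0∞, AEMeasurable f volume →
      (∀ y, f y ≠ 0 → y ∈ closedBall (0 : E (d + 1)) ((d + 2 : ℕ) : ℝ)) → ∫⁻ y, f y ^ p ≠ ⊤ →
      ENNReal.ofReal (δ ^ d) * ∑ i, kmax δ f (ω i) ^ p ≤ ENNReal.ofReal D * ∫⁻ y, f y ^ p)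
    (f : E (d + 1) → ℝ≥0∞) (hf : AEMeasurable f volume) :
    ENNReal.ofReal (δ ^ d) * ∑ i, kmax δ f (ω i) ^ p ≤
      ENNReal.ofReal (D * (2 * (d + 2) + 1) ^ (d + 1)) * ∫⁻ y, f y ^ p := by
  set I : ℝ≥0∞ := ∫⁻ y, f y ^ p with hI
  rcases eq_or_ne I ⊤ with hIt | hIt
  · rw [hIt, ENNReal.mul_top (by
      rw [ne_eq, ENNReal.ofReal_eq_zero, not_le]; positivity)]
    exact le_top
  set B : (Fin (d + 1) → ℤ) → Set (E (d + 1)) := fun k => closedBall (lv k) ((d + 2 : ℕ) : ℝ) with hB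
  set g : (Fin (d + 1) → ℤ) → E (d + 1) → ℝ≥0∞ := fun k y => (B k).indicator f (y + lv k) with hg
  have hgm : ∀ k, AEMeasurable (g k) volume := fun k =>
    (hf.indicator measurableSet_closedBall).comp_quasiMeasurePreserving
      (measurePreserving_add_right volume (lv k)).quasiMeasurePreserving
  have hgs : ∀ k y, g k y ≠ 0 → y ∈ closedBall (0 : E (d + 1)) ((d + 2 : ℕ) : ℝ) := by
    intro k y hy
    have h1 : y + lv k ∈ B k := by
      by_contra hcon
      exact hy (indicator_of_notMem hcon _)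
    rw [hB] at h1
    simp only [mem_closedBall, dist_eq_norm] at h1 ⊢
    rw [add_sub_cancel_right] at h1
    rw [sub_zero]
    exact h1
  have hgI : ∀ k, ∫⁻ y, g k y ^ p = ∫⁻ y in B k, f y ^ p := by
    intro k
    have h1 : ∫⁻ y, g k y ^ p = ∫⁻ y, (B k).indicator f y ^ p :=
      lintegral_add_right_eq_self (fun y => (B k).indicator f y ^ p) (lv k)
    rw [h1, ← lintegral_indicator measurableSet_closedBall]
    refine lintegral_congr fun y => ?_
    by_cases hy : y ∈ B k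
    · rw [indicator_of_mem hy, indicator_of_mem hy]
    · rw [indicator_of_notMem hy, indicator_of_notMem hy, ENNReal.zero_rpow_of_pos hp]
  have hgt : ∀ k, ∫⁻ y, g k y ^ p ≠ ⊤ := fun k => by
    rw [hgI]
    exact ne_top_of_le_ne_top hIt (setLIntegral_le_lintegral _ _)
  calc ENNReal.ofReal (δ ^ d) * ∑ i, kmax δ f (ω i) ^ p
      ≤ ENNReal.ofReal (δ ^ d) * ∑ i, ∑' k, kmax δ (g k) (ω i) ^ p := by
        refine mul_le_mul' le_rfl (Finset.sum_le_sum fun i _ => ?_)
        refine (kmax_loc hp hδ5 (norm_eq_of_mem_sphere (ω i)) f).trans ?_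
        refine ENNReal.tsum_le_tsum fun k => ?_
        have := kmax_tr δ ((B k).indicator f) (lv k) (ω i)
        gcongr
    _ = ∑' k, ENNReal.ofReal (δ ^ d) * ∑ i, kmax δ (g k) (ω i) ^ p := by
        rw [← Summable.tsum_finsetSum fun i _ => ENNReal.summable, ENNReal.tsum_mul_left]
    _ ≤ ∑' k, ENNReal.ofReal D * ∫⁻ y in B k, f y ^ p := by
        refine ENNReal.tsum_le_tsum fun k => ?_
        rw [← hgI]
        exact h (g k) (hgm k) (hgs k) (hgt k)
    _ = ENNReal.ofReal D * ∑' k, ∫⁻ y in B k, f y ^ p := ENNReal.tsum_mul_left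
    _ ≤ ENNReal.ofReal D * ((((2 * (d + 2) + 1) ^ (d + 1) : ℕ) : ℝ≥0∞) * I) := by
        refine mul_le_mul' le_rfl ?_
        exact overlapF (d + 2) (fun y => f y ^ p) (hf.pow_const p)
    _ = _ := by
        rw [← mul_assoc, ← ENNReal.ofReal_natCast, ← ENNReal.ofReal_mul hD.le]
        congr 2
        push_cast
        ring

/-- independent events of probability `lam` -/
structure RCells {n : ℕ} {Ω : Type} [MeasurableSpace Ω] (P : Measure Ω)
    (A : (Fin n → ℤ) → Set Ω) (lam : ℝ) : Prop where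
  meas : ∀ j, MeasurableSet (A j)
  indep : iIndepSet A P
  prob : ∀ j, P (A j) = ENNReal.ofReal lam

theorem exists_cells (n : ℕ) (lam : ℝ) (h0 : 0 ≤ lam) (h1 : lam ≤ 1) :
    ∃ (Ω : Type) (_ : MeasurableSpace Ω) (P : Measure Ω) (_ : IsProbabilityMeasure P)
      (A : (Fin n → ℤ) → Set Ω), RCells P A lam := by
  classical
  set μ : Measure ℝ := volume.restrict (Icc 0 1) with hμ
  have hμp : IsProbabilityMeasure μ := ⟨by rw [hμ, Measure.restrict_apply_univ]; simp⟩
  set P : Measure ((Fin n → ℤ) → ℝ) := Measure.infinitePi fun _ => μ with hP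
  set A : (Fin n → ℤ) → Set ((Fin n → ℤ) → ℝ) := fun j => {ω | ω j ≤ lam} with hA
  have hAm : ∀ j, MeasurableSet (A j) := fun j =>
    measurableSet_le (measurable_pi_apply j) measurable_const
  have hpi : ∀ s : Finset (Fin n → ℤ), P (⋂ i ∈ s, A i) = ∏ i ∈ s, μ (Iic lam) := by
    intro s
    have h1 : (⋂ i ∈ s, A i) = Set.pi s fun i => Iic lam := by
      ext ω
      simp [hA, Set.mem_pi]
    rw [h1, hP, Measure.infinitePi_pi _ (fun i _ => measurableSet_Iic)]
  have hone : ∀ j, P (A j) = ENNReal.ofReal lam := by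
    intro j
    have h2 := hpi {j}
    rw [Finset.prod_singleton] at h2
    have h3 : (⋂ i ∈ ({j} : Finset (Fin n → ℤ)), A i) = A j := by simp
    rw [h3] at h2
    rw [h2, hμ, Measure.restrict_apply measurableSet_Iic]
    have h5 : Iic lam ∩ Icc (0 : ℝ) 1 = Icc 0 lam := by
      ext x
      simp only [mem_inter_iff, mem_Iic, mem_Icc]
      constructor
      · rintro ⟨h6, h7, h8⟩; exact ⟨h7, h6⟩
      · rintro ⟨h6, h7⟩; exact ⟨h7, h6, h7.trans h1⟩
    rw [h5, Real.volume_Icc, sub_zero]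
  refine ⟨(Fin n → ℤ) → ℝ, inferInstance, P, by rw [hP]; infer_instance, A, hAm, ?_, hone⟩
  rw [iIndepSet_iff_meas_biInter hAm]
  intro s
  rw [hpi s]
  refine Finset.prod_congr rfl fun j _ => ?_
  have h2 := hpi {j}
  rw [Finset.prod_singleton] at h2
  have h3 : (⋂ i ∈ ({j} : Finset (Fin n → ℤ)), A i) = A j := by simp
  rw [h3] at h2
  exact h2.symm

end Pool.Agent.N248.KG
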