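import Mathlib
import Pool.Agent.N248.KG.N
import Pool.Agent.N248.KR.Conv
import Pool.Agent.N248.KT.Fin
set_option autoImplicit false

/-! Kakeya in random regions: the equivalence and the unconditional range. -/

namespace Pool.Agent.N248.KG

open MeasureTheory Set Metric ProbabilityTheory
open scoped ENNReal NNReal
open Pool.Agent.N248.KR

variable {d : ℕ}

/-- the maximal inequality on random regions of density `δ ^ τ` with loss `δ ^ (-g)` -/
def RandR (d : ℕ) (p τ g : ℝ) : Prop :=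
  ∀ ε B R : ℝ, 0 < ε → 0 < B → 0 < R → ∃ C : ℝ, 0 < C ∧ ∀ δ : ℝ, 0 < δ → δ < 1 →
    ∀ (Ω : Type) [MeasurableSpace Ω] (P : Measure Ω) [IsProbabilityMeasure P]
      (A : (Fin (d + 1) → ℤ) → Set Ω), RCells P A (δ ^ τ) →
      P {x | ¬ KBOn d p (C * δ ^ (-g - ε)) δ
        (reg δ {j | x ∈ A j} ∩ closedBall (0 : E (d + 1)) R)} ≤ ENNReal.ofReal (C * δ ^ B)

theorem RCells.prod {n : ℕ} {Ω : Type} [MeasurableSpace Ω] {P : Measure Ω}
    {A : (Fin n → ℤ) → Set Ω} {lam : ℝ} (h : RCells P A lam) (T : Finset (Fin n → ℤ)) :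
    P (⋂ j ∈ T, A j) ≤ ∏ j ∈ T, P (A j) := by
  have := (iIndepSet_iff_meas_biInter h.meas).1 h.indep T
  exact this.le

theorem rand_of (hd : 1 ≤ d) {p τ g : ℝ} (hp : 1 < p) (hg : (d : ℝ) + 1 - p ≤ g)
    (h : KB d (Pu d) p (g + τ * (p - 1))) : RandR d p τ g := by
  intro ε B R hε hB hR
  obtain ⟨C, hC, hf⟩ := fwd_sph hd hp h ε B R hε hB.le hR.le
  refine ⟨2 * C, by linarith, ?_⟩
  intro δ hδ hδ1 Ω _ P _ A hA
  have h1 := hf δ hδ hδ1 P A hA.prod (δ ^ τ) (by positivity) (fun j => (hA.prob j).le)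
  refine (measure_mono ?_).trans (h1.trans (ENNReal.ofReal_le_ofReal ?_))
  · intro x hx hgo
    refine hx (hgo.mono ?_)
    have e1 : (δ ^ τ) ^ (p - 1) * δ ^ (-(g + τ * (p - 1))) = δ ^ (-g) := by
      rw [← Real.rpow_mul hδ.le, ← Real.rpow_add hδ]
      congr 1; ring
    have e2 : δ ^ (p - ((d : ℝ) + 1)) ≤ δ ^ (-g) :=
      Real.rpow_le_rpow_of_exponent_ge hδ hδ1.le (by linarith)
    have e3 : δ ^ (-g - ε) = δ ^ (-ε) * δ ^ (-g) := by
      rw [← Real.rpow_add hδ]; congr 1; ring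
    rw [e1, e3]
    calc C * δ ^ (-ε) * (δ ^ (-g) + δ ^ (p - ((d : ℝ) + 1)))
        ≤ C * δ ^ (-ε) * (δ ^ (-g) + δ ^ (-g)) := by gcongr
      _ = _ := by ring
  · have : 0 < δ ^ B := by positivity
    nlinarith

theorem of_rand (hd : 1 ≤ d) {p τ g : ℝ} (hp : 1 < p) (hτ : 0 ≤ τ) (hg : 0 ≤ g)
    (h : RandR d p τ g) : KB d (Pu d) p (g + τ * (p - 1)) := by
  intro ε hε
  have hκ := kap_pos d
  have hp0 : 0 < p := by linarith
  obtain ⟨Cn, hCn, hnet⟩ := sph_net d hd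
  obtain ⟨Ca, hCa, hsi⟩ := sum_le_int d hd hp0
  obtain ⟨Cb, hCb, his⟩ := int_le_sum d hd hp0
  obtain ⟨C, hC, hR⟩ := h ε (τ * p + 1) ((d + 2 : ℕ) : ℝ) hε (by positivity) (by positivity)
  set δ₀ : ℝ := min (1 / 10) (1 / (2 * C)) with hδ₀
  have hδ₀0 : 0 < δ₀ := lt_min (by norm_num) (by positivity)
  set D1 : ℝ := Cb * ((2 ^ p * 2 * (Ca * C)) * (2 * (d + 2) + 1) ^ (d + 1)) with hD1
  set D2 : ℝ := (kap d)⁻¹ * (δ₀ ^ d)⁻¹ with hD2
  have hD10 : 0 < D1 := by positivity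
  have hD20 : 0 < D2 := by positivity
  refine ⟨D1 + D2, by linarith, ?_⟩
  intro δ hδ hδ1 f hf
  have hγ : 0 ≤ g + τ * (p - 1) := by
    have : 0 ≤ τ * (p - 1) := mul_nonneg hτ (by linarith)
    linarith
  rcases lt_or_ge δ₀ δ with hlt | hle
  · have e1 : 1 ≤ δ ^ (-(g + τ * (p - 1)) - ε) :=
      Real.one_le_rpow_of_pos_of_le_one_of_nonpos hδ hδ1.le (by linarith)
    refine (KBOn_triv hδ hp univ f hf fun y _ => mem_univ y).trans ?_
    gcongr
    have e2 : (kap d * δ ^ d)⁻¹ ≤ D2 := by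
      rw [mul_inv, hD2]
      gcongr
    nlinarith
  have h10 : δ ≤ 1 / 10 := hle.trans (min_le_left _ _)
  have hCδ : C * δ ≤ 1 / 2 := by
    have := hle.trans (min_le_right _ _)
    rw [le_div_iff₀ (by linarith)] at this
    linarith
  obtain ⟨M, ω, hM, hcov, hsep⟩ := hnet δ hδ hδ1
  have hlam0 : 0 < δ ^ τ := by positivity
  obtain ⟨Ω, mΩ, P, hP, A, hA⟩ := exists_cells (d + 1) (δ ^ τ) hlam0.le
    (Real.rpow_le_one hδ.le hδ1.le hτ)
  have hbad := hR δ hδ hδ1 Ω P A hA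
  have hq : C * δ ^ (τ * p + 1) ≤ (δ ^ τ) ^ p / 2 := by
    rw [Real.rpow_add hδ, Real.rpow_one, ← Real.rpow_mul hδ.le]
    have : 0 < δ ^ (τ * p) := by positivity
    nlinarith
  have hbad2 := hbad.trans (ENNReal.ofReal_le_ofReal hq)
  set D : ℝ := 2 ^ p * (2 * (δ ^ τ) ^ (-p)) * (Ca * (C * δ ^ (-g - ε))) * δ ^ τ with hD
  have hD0 : 0 < D := by positivity
  have hloc : ∀ f : E (d + 1) → ℝ≥0∞, AEMeasurable f volume →
      (∀ y, f y ≠ 0 → y ∈ closedBall (0 : E (d + 1)) ((d + 2 : ℕ) : ℝ)) → ∫⁻ y, f y ^ p ≠ ⊤ →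
      ENNReal.ofReal (δ ^ d) * ∑ i, kmax δ f (ω i) ^ p ≤ ENNReal.ofReal D * ∫⁻ y, f y ^ p :=
    fun f hf hs hI => local_conv hδ hp hlam0 (by positivity) (by linarith) ω
      (fun f => hsi δ hδ (by linarith) M ω hsep f) P A hA.meas hA.prob hbad2 f hf hs hI
  have hgl := glob hp0 (by linarith) hD0 ω hloc f hf
  calc ∫⁻ θ : Dir (d + 1), kmax δ f θ ^ p ∂(Pu d)
      ≤ ENNReal.ofReal Cb * (ENNReal.ofReal (δ ^ d) * ∑ i, kmax δ f (ω i) ^ p) :=
        his δ hδ (by linarith) M ω hcov f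
    _ ≤ ENNReal.ofReal Cb * (ENNReal.ofReal (D * (2 * (d + 2) + 1) ^ (d + 1)) *
        ∫⁻ y, f y ^ p) := mul_le_mul' le_rfl hgl
    _ = ENNReal.ofReal (Cb * (D * (2 * (d + 2) + 1) ^ (d + 1))) * ∫⁻ y, f y ^ p := by
        rw [← mul_assoc, ← ENNReal.ofReal_mul (by linarith)]
    _ ≤ _ := by
        refine mul_le_mul' (ENNReal.ofReal_le_ofReal ?_) le_rfl
        have e1 : (δ ^ τ) ^ (-p) * δ ^ (-g - ε) * δ ^ τ = δ ^ (-(g + τ * (p - 1)) - ε) := by
          rw [← Real.rpow_mul hδ.le, ← Real.rpow_add hδ, ← Real.rpow_add hδ]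
          congr 1; ring
        have e2 : Cb * (D * (2 * ((d : ℝ) + 2) + 1) ^ (d + 1)) =
            D1 * δ ^ (-(g + τ * (p - 1)) - ε) := by
          rw [← e1, hD, hD1]; ring
        rw [e2]
        have e3 : 0 < δ ^ (-(g + τ * (p - 1)) - ε) := by positivity
        nlinarith

/-- **the equivalence** -/
theorem KB_iff_RandR (hd : 1 ≤ d) {p τ g : ℝ} (hp : 1 < p) (hτ : 0 ≤ τ) (hg : 0 ≤ g)
    (hg' : (d : ℝ) + 1 - p ≤ g) : KB d (Pu d) p (g + τ * (p - 1)) ↔ RandR d p τ g :=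
  ⟨rand_of hd hp hg', of_rand hd hp hτ hg⟩

theorem KB_of_weak (hd : 2 ≤ d) {p p' : ℝ} (hp : 2 ≤ p) (hpd : p ≤ d + 1) (hpp : p ≤ p')
    (h : ∀ ε : ℝ, 0 < ε → ∃ C : ℝ, 0 < C ∧ ∀ r : ℝ, 0 < r → r < 1 →
      WeakAt (Pu d) p (C * r ^ (-(d + 1 - p) - ε)) r) : KB d (Pu d) p' ((d : ℝ) + 1 - p) := by
  have hd2 : (2 : ℝ) ≤ d := by exact_mod_cast hd
  refine KB_of_rand (by omega) (by linarith) (by linarith) (by linarith) (Pu d)
    (fwd (by omega) (by linarith) (by linarith) (Pu d) ?_)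
  intro ε hε
  obtain ⟨C, hC, h⟩ := h ε hε
  exact ⟨C, hC, fun r hr hr1 => KT.weak_up hpp (by positivity) (h r hr hr1)⟩

theorem kb_wolff (hd : 2 ≤ d) {p : ℝ} (hp : ((d : ℝ) + 3) / 2 ≤ p) :
    KB d (Pu d) p (((d : ℝ) - 1) / 2) := by
  have hd2 : (2 : ℝ) ≤ d := by exact_mod_cast hd
  have h1 := KB_of_weak hd (p := ((d : ℝ) + 3) / 2) (p' := p) (by linarith) (by linarith) hp
    (weak_range (by omega) (c0 := 2 * (d : ℝ) / ((d : ℝ) + 1)) (by
      rw [le_div_iff₀ (by linarith)]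
      linarith)
      (fun c hc => (Pool.Agent.Y244.WR.wolff_max hd hc).1) (by linarith) (by
        have : (d : ℝ) / (2 * (d : ℝ) / ((d : ℝ) + 1)) = ((d : ℝ) + 1) / 2 := by
          field_simp
        rw [this]
        linarith))
  have e : (d : ℝ) + 1 - ((d : ℝ) + 3) / 2 = ((d : ℝ) - 1) / 2 := by ring
  rwa [e] at h1

theorem kb_hybrid (hd : 9 ≤ d) {p : ℝ} (hp : 1 + 25 / 42 * (d : ℝ) ≤ p) :
    KB d (Pu d) p (17 / 42 * (d : ℝ)) := by
  have hd9 : (9 : ℝ) ≤ d := by exact_mod_cast hd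
  have h1 := KB_of_weak (d := d) (by omega) (p := 1 + 25 / 42 * (d : ℝ)) (p' := p) (by linarith)
    (by linarith) hp (weak_range (d := d) (by omega)
      (c0 := 42 / 25) (by norm_num) (fun c hc => by
        refine (Pool.Agent.Y254HK.max_mix hd (x := 0)
          ⟨le_rfl, zero_le_one, by linarith, ?_, ?_⟩).1
        · have h1 : 0 < c ^ 3 - 4 * c + 2 := by
            nlinarith [mul_pos (show 0 < c - 42 / 25 by linarith)
              (show 0 < c - 42 / 25 by linarith),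
              mul_pos (mul_pos (show 0 < c - 42 / 25 by linarith)
                (show 0 < c - 42 / 25 by linarith)) (show 0 < c - 42 / 25 by linarith)]
          rw [zero_mul, add_zero]
          positivity
        · rw [zero_mul, zero_mul, add_zero, add_zero]
          have h2 : 0 < c ^ 2 - 1 := by nlinarith
          nlinarith) (by linarith) (by linarith))
  have e : (d : ℝ) + 1 - (1 + 25 / 42 * (d : ℝ)) = 17 / 42 * (d : ℝ) := by ring
  rwa [e] at h1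

/-- Wolff's range on random regions -/
theorem randR_wolff (hd : 2 ≤ d) {p : ℝ} (hp : ((d : ℝ) + 3) / 2 ≤ p) :
    RandR d p (1 - ((d : ℝ) + 1) / (2 * (p - 1))) ((d : ℝ) + 1 - p) := by
  have hd2 : (2 : ℝ) ≤ d := by exact_mod_cast hd
  have hp1 : 0 < p - 1 := by linarith
  refine rand_of (by omega) (by linarith) le_rfl ?_
  have e : (d : ℝ) + 1 - p + (1 - ((d : ℝ) + 1) / (2 * (p - 1))) * (p - 1) =
      ((d : ℝ) - 1) / 2 := by
    field_simp
    ring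
  rw [e]
  exact kb_wolff hd hp

/-- the hybrid range on random regions -/
theorem randR_hybrid (hd : 9 ≤ d) {p : ℝ} (hp : 1 + 25 / 42 * (d : ℝ) ≤ p) :
    RandR d p (1 - 25 * (d : ℝ) / (42 * (p - 1))) ((d : ℝ) + 1 - p) := by
  have hd9 : (9 : ℝ) ≤ d := by exact_mod_cast hd
  have hp1 : 0 < p - 1 := by linarith
  refine rand_of (by omega) (by linarith) le_rfl ?_
  have e : (d : ℝ) + 1 - p + (1 - 25 * (d : ℝ) / (42 * (p - 1))) * (p - 1) =
      17 / 42 * (d : ℝ) := by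
    field_simp
    ring
  rw [e]
  exact kb_hybrid hd hp

end Pool.Agent.N248.KG
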